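import Mathlib

set_option autoImplicit false

/-!
Values of integral polynomials on the unit ball of a normed field.
-/

namespace Pool.Agent.W225.V

open MvPolynomial

variable {K : Type} [NormedField K] {n : ℕ}

/-- the linear part at `x` -/
noncomputable def lin (P : MvPolynomial (Fin n) ℤ) (x v : Fin n → K) : K :=
  ∑ i, aeval x (pderiv i P) * v i

lemma lin_add (P Q : MvPolynomial (Fin n) ℤ) (x v : Fin n → K) :
    lin (P + Q) x v = lin P x v + lin Q x v := by
  unfold lin
  rw [← Finset.sum_add_distrib]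
  refine Finset.sum_congr rfl fun i _ => ?_
  rw [map_add, map_add]
  ring

lemma lin_C (a : ℤ) (x v : Fin n → K) : lin (C a : MvPolynomial (Fin n) ℤ) x v = 0 := by
  unfold lin
  refine Finset.sum_eq_zero fun i _ => ?_
  rw [pderiv_C, map_zero, zero_mul]

lemma lin_mul_X (P : MvPolynomial (Fin n) ℤ) (k : Fin n) (x v : Fin n → K) :
    lin (P * X k) x v = lin P x v * x k + aeval x P * v k := by
  classical
  unfold lin
  have h : ∀ i, aeval x (pderiv i (P * X k)) * v i =
      aeval x (pderiv i P) * v i * x k + (if i = k then aeval x P * v k else 0) := by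
    intro i
    rw [Derivation.leibniz, pderiv_X]
    simp only [smul_eq_mul, map_add, map_mul, aeval_X]
    by_cases hik : i = k
    · subst hik
      simp
      ring
    · rw [if_neg hik]
      have : (Pi.single i (1 : MvPolynomial (Fin n) ℤ) : Fin n → MvPolynomial (Fin n) ℤ) k = 0 :=
        Pi.single_eq_of_ne (Ne.symm hik) _
      rw [this]
      simp
      ring
  rw [Finset.sum_congr rfl fun i _ => h i, Finset.sum_add_distrib, ← Finset.sum_mul]
  simp

/-- Second order Taylor estimate, Lipschitz estimate and bound on the unit ball. -/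
lemma exists_taylor (K : Type) [NormedField K] (P : MvPolynomial (Fin n) ℤ) :
    ∃ C : ℝ, 0 ≤ C ∧ ∀ x y : Fin n → K, ‖x‖ ≤ 1 → ‖y‖ ≤ 1 →
      ‖aeval y P - aeval x P - lin P x (y - x)‖ ≤ C * ‖y - x‖ ^ 2 ∧
      ‖aeval y P - aeval x P‖ ≤ C * ‖y - x‖ ∧ ‖aeval x P‖ ≤ C := by
  induction P using MvPolynomial.induction_on with
  | C a =>
    refine ⟨‖(a : K)‖, norm_nonneg _, fun x y _ _ => ⟨?_, ?_, ?_⟩⟩
    · rw [lin_C, aeval_C, aeval_C]
      simp only [sub_self, norm_zero]
      positivity
    · rw [aeval_C, aeval_C, sub_self, norm_zero]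
      positivity
    · rw [aeval_C]
      simp
  | add P Q hP hQ =>
    obtain ⟨A, hA, hA'⟩ := hP
    obtain ⟨B, hB, hB'⟩ := hQ
    refine ⟨A + B, by positivity, fun x y hx hy => ?_⟩
    obtain ⟨a1, a2, a3⟩ := hA' x y hx hy
    obtain ⟨b1, b2, b3⟩ := hB' x y hx hy
    refine ⟨?_, ?_, ?_⟩
    · rw [map_add, map_add, lin_add]
      have : aeval y P + aeval y Q - (aeval x P + aeval x Q) -
          (lin P x (y - x) + lin Q x (y - x)) =
          (aeval y P - aeval x P - lin P x (y - x)) +
          (aeval y Q - aeval x Q - lin Q x (y - x)) := by ring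
      rw [this]
      refine (norm_add_le _ _).trans ?_
      linarith
    · rw [map_add, map_add]
      have : aeval y P + aeval y Q - (aeval x P + aeval x Q) =
          (aeval y P - aeval x P) + (aeval y Q - aeval x Q) := by ring
      rw [this]
      refine (norm_add_le _ _).trans ?_
      linarith
    · rw [map_add]
      refine (norm_add_le _ _).trans ?_
      linarith
  | mul_X P k hP =>
    obtain ⟨A, hA, hA'⟩ := hP
    refine ⟨2 * A, by positivity, fun x y hx hy => ?_⟩
    obtain ⟨a1, a2, a3⟩ := hA' x y hx hy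
    have hxk : ‖x k‖ ≤ 1 := (norm_le_pi_norm x k).trans hx
    have hyk : ‖y k‖ ≤ 1 := (norm_le_pi_norm y k).trans hy
    have hk : ‖y k - x k‖ ≤ ‖y - x‖ := norm_le_pi_norm (y - x) k
    have h0 : 0 ≤ ‖y - x‖ := norm_nonneg _
    refine ⟨?_, ?_, ?_⟩
    · rw [lin_mul_X, map_mul, map_mul, aeval_X, aeval_X]
      have : aeval y P * y k - aeval x P * x k - (lin P x (y - x) * x k +
          aeval x P * (y - x) k) = (aeval y P - aeval x P - lin P x (y - x)) * x k +
          (aeval y P - aeval x P) * (y k - x k) := by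
        rw [Pi.sub_apply]
        ring
      rw [this]
      refine (norm_add_le _ _).trans ?_
      rw [norm_mul, norm_mul]
      have h1 : ‖aeval y P - aeval x P - lin P x (y - x)‖ * ‖x k‖ ≤ A * ‖y - x‖ ^ 2 * 1 :=
        mul_le_mul a1 hxk (norm_nonneg _) (by positivity)
      have h2 : ‖aeval y P - aeval x P‖ * ‖y k - x k‖ ≤ A * ‖y - x‖ * ‖y - x‖ :=
        mul_le_mul a2 hk (norm_nonneg _) (by positivity)
      nlinarith
    · rw [map_mul, map_mul, aeval_X, aeval_X]
      have : aeval y P * y k - aeval x P * x k = (aeval y P - aeval x P) * y k +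
          aeval x P * (y k - x k) := by ring
      rw [this]
      refine (norm_add_le _ _).trans ?_
      rw [norm_mul, norm_mul]
      have h1 : ‖aeval y P - aeval x P‖ * ‖y k‖ ≤ A * ‖y - x‖ * 1 :=
        mul_le_mul a2 hyk (norm_nonneg _) (by positivity)
      have h2 : ‖aeval x P‖ * ‖y k - x k‖ ≤ A * ‖y - x‖ :=
        mul_le_mul a3 hk (norm_nonneg _) (by positivity)
      linarith
    · rw [map_mul, aeval_X, norm_mul]
      have : ‖aeval x P‖ * ‖x k‖ ≤ A * 1 := mul_le_mul a3 hxk (norm_nonneg _) hA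
      linarith

/-- uniform version for finitely many polynomials -/
lemma exists_taylor' (K : Type) [NormedField K] {J : Type} [Finite J]
    (P : J → MvPolynomial (Fin n) ℤ) :
    ∃ C : ℝ, 1 ≤ C ∧ ∀ j, ∀ x y : Fin n → K, ‖x‖ ≤ 1 → ‖y‖ ≤ 1 →
      ‖aeval y (P j) - aeval x (P j) - lin (P j) x (y - x)‖ ≤ C * ‖y - x‖ ^ 2 ∧
      ‖aeval y (P j) - aeval x (P j)‖ ≤ C * ‖y - x‖ ∧ ‖aeval x (P j)‖ ≤ C := by
  have := Fintype.ofFinite J
  choose c hc hc' using fun j => exists_taylor K (P j)
  refine ⟨1 + ∑ j, c j, by linarith [Finset.sum_nonneg fun j (_ : j ∈ Finset.univ) => hc j],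
    fun j x y hx hy => ?_⟩
  have hle : c j ≤ 1 + ∑ j, c j := by
    have := Finset.single_le_sum (fun j _ => hc j) (Finset.mem_univ j)
    linarith
  obtain ⟨h1, h2, h3⟩ := hc' j x y hx hy
  refine ⟨h1.trans ?_, h2.trans ?_, h3.trans hle⟩
  · exact mul_le_mul_of_nonneg_right hle (by positivity)
  · exact mul_le_mul_of_nonneg_right hle (by positivity)

lemma continuous_aeval' (P : MvPolynomial (Fin n) ℤ) :
    Continuous fun x : Fin n → K => aeval x P := by
  induction P using MvPolynomial.induction_on with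
  | C a => simpa [aeval_C] using continuous_const
  | add P Q hP hQ =>
    simp only [map_add]
    exact hP.add hQ
  | mul_X P k hP =>
    simp only [map_mul, aeval_X]
    exact hP.mul (continuous_apply k)

end Pool.Agent.W225.V
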