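import Mathlib
import Pool.Agent.W225.V.Taylor

set_option autoImplicit false

/-!
Strict normal crossings, quantitatively, on the unit sphere of a locally compact field.
-/

namespace Pool.Agent.W225.V

open MvPolynomial

/-- The divisor `∑ {F j = 0}` of projective space has strict normal crossings: over every field `L`
of characteristic zero, at every nonzero `x` with coordinates in `L`, the gradients of the `F j`
that vanish at `x` are linearly independent. -/
def IsSNC {n : ℕ} {J : Type} (F : J → MvPolynomial (Fin n) ℤ) : Prop :=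
  ∀ (L : Type) [Field L] [CharZero L] (x : Fin n → L), x ≠ 0 →
    LinearIndependent L (fun (j : {j : J // aeval x (F j) = 0}) (i : Fin n) =>
      aeval x (pderiv i (F j)))

variable {K : Type} [NormedField K] {n : ℕ} {J : Type}

/-- a gradient or a standard basis vector -/
noncomputable def rowv (F : J → MvPolynomial (Fin n) ℤ) (x : Fin n → K) :
    J ⊕ Fin n → Fin n → K
  | .inl j => fun i => aeval x (pderiv i (F j))
  | .inr k => Pi.single k 1

noncomputable def rowM (F : J → MvPolynomial (Fin n) ℤ) (x : Fin n → K) (f : Fin n → J ⊕ Fin n) :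
    Matrix (Fin n) (Fin n) K := fun k i => rowv F x (f k) i

/-- the choices of rows with gradients exactly for `T` -/
def Good (T : Finset J) (f : Fin n → J ⊕ Fin n) : Prop :=
  (∀ j ∈ T, ∃ k, f k = .inl j) ∧ ∀ k j, f k = .inl j → j ∈ T

lemma exists_good [CharZero K] (F : J → MvPolynomial (Fin n) ℤ) {d : J → ℕ}
    (hd : ∀ j, (F j).IsHomogeneous (d j)) (hF : IsSNC F) (x : Fin n → K) (hx : x ≠ 0)
    (T : Finset J) (hT : ∀ j ∈ T, aeval x (F j) = 0) :
    T.card < n ∧ ∃ f : Fin n → J ⊕ Fin n, Good T f ∧ (rowM F x f).det ≠ 0 := by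
  classical
  have hli : LinearIndependent K (fun (j : T) (i : Fin n) => aeval x (pderiv i (F j))) := by
    have h := hF K x hx
    exact h.comp (fun j : T => (⟨j.1, hT j.1 j.2⟩ : {j : J // aeval x (F j) = 0}))
      (fun a b hab => Subtype.ext (congrArg (fun z => z.1) hab))
  constructor
  · -- the gradients lie in a hyperplane
    let φ : (Fin n → K) →ₗ[K] K := ∑ i, (x i) • LinearMap.proj i
    have hφ : ∀ v, φ v = ∑ i, x i * v i := by
      intro v
      simp [φ, LinearMap.sum_apply]
    have hne : φ ≠ 0 := by
      intro h0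
      apply hx
      funext i
      have := hφ (Pi.single i 1)
      rw [h0] at this
      simpa [Pi.single_apply] using this.symm
    have hker : ∀ j : T, (fun i : Fin n => aeval x (pderiv i (F j))) ∈ LinearMap.ker φ := by
      intro j
      rw [LinearMap.mem_ker, hφ]
      have h := (hd j.1).sum_X_mul_pderiv
      have h2 := congrArg (fun P => aeval x P) h
      simp only [map_sum, map_mul, aeval_X, map_nsmul] at h2
      rw [h2, hT j.1 j.2, smul_zero]
    have hli2 : LinearIndependent K (fun j : T => (⟨_, hker j⟩ : LinearMap.ker φ)) := by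
      refine LinearIndependent.of_comp (LinearMap.ker φ).subtype ?_
      exact hli
    have h1 := hli2.fintype_card_le_finrank
    rw [Fintype.card_coe] at h1
    have h2 : Module.finrank K (LinearMap.ker φ) + 1 = n := by
      have h3 := LinearMap.finrank_range_add_finrank_ker φ
      rw [Module.finrank_fin_fun] at h3
      have h4 : Module.finrank K (LinearMap.range φ) = 1 := by
        have : LinearMap.range φ = ⊤ := LinearMap.range_eq_top.2 (LinearMap.surjective hne)
        rw [this, finrank_top, Module.finrank_self]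
      omega
    omega
  · let v : T ⊕ Fin n → (Fin n → K) := fun a => rowv F x (a.map (fun j => j.1) id)
    have hs : LinearIndepOn K v (Set.range (Sum.inl : T → T ⊕ Fin n)) := by
      have h1 : LinearIndependent K (v ∘ Sum.inl) := hli
      exact (linearIndepOn_range_iff Sum.inl_injective v).2 h1
    obtain ⟨b, -, hb1, hb2, hb3⟩ := exists_linearIndepOn_extension hs (Set.subset_univ _)
    have htop : Submodule.span K (v '' b) = ⊤ := by
      rw [eq_top_iff, ← (Pi.basisFun K (Fin n)).span_eq, Submodule.span_le]
      rintro _ ⟨k, rfl⟩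
      apply hb2
      refine ⟨Sum.inr k, Set.mem_univ _, ?_⟩
      simp [v, rowv]
    have htop' : ⊤ ≤ Submodule.span K (Set.range fun a : b => v a) := by
      rw [← htop, Set.image_eq_range]
    let B : Module.Basis b K (Fin n → K) := Module.Basis.mk hb3 htop'
    have hbf : Finite b := inferInstance
    have : Fintype b := Fintype.ofFinite b
    have hcard : Fintype.card b = n := by
      have := Module.finrank_eq_card_basis B
      rw [Module.finrank_fin_fun] at this
      exact this.symm
    let e : Fin n ≃ b := (Fintype.equivFinOfCardEq hcard).symm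
    refine ⟨fun k => (e k).1.map (fun j => j.1) id, ⟨?_, ?_⟩, ?_⟩
    · intro j hj
      have : (Sum.inl ⟨j, hj⟩ : T ⊕ Fin n) ∈ b := hb1 ⟨⟨j, hj⟩, rfl⟩
      refine ⟨e.symm ⟨_, this⟩, ?_⟩
      beta_reduce
      rw [Equiv.apply_symm_apply]
      rfl
    · intro k j h
      beta_reduce at h
      rcases hek : (e k).1 with a | a
      · rw [hek] at h
        simp only [Sum.map_inl, Sum.inl.injEq] at h
        rw [← h]
        exact a.2
      · rw [hek] at h
        simp at h
    · have h1 : LinearIndependent K (fun k => v (e k)) := hb3.comp e e.injective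
      have h2 : LinearIndependent K (rowM F x fun k => (e k).1.map (fun j => j.1) id).row := h1
      rw [Matrix.linearIndependent_rows_iff_isUnit] at h2
      exact (Matrix.isUnit_iff_isUnit_det _).1 h2 |>.ne_zero

open Classical in
/-- Quantitative strict normal crossings. -/
lemma quant (K : Type) [NormedField K] [CharZero K] [ProperSpace K] [Fintype J]
    (F : J → MvPolynomial (Fin n) ℤ) {d : J → ℕ}
    (hd : ∀ j, (F j).IsHomogeneous (d j)) (hF : IsSNC F) :
    ∃ c : ℝ, 0 < c ∧ ∀ x : Fin n → K, ‖x‖ = 1 → ∀ T : Finset J,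
      (∀ j ∈ T, ‖aeval x (F j)‖ ≤ c) → T.card < n ∧
        ∃ f : Fin n → J ⊕ Fin n, Good T f ∧ c ≤ ‖(rowM F x f).det‖ := by
  have hcdet : ∀ f : Fin n → J ⊕ Fin n, Continuous fun x : Fin n → K => (rowM F x f).det := by
    intro f
    refine Continuous.matrix_det ?_
    refine continuous_pi fun k => continuous_pi fun i => ?_
    change Continuous fun x : Fin n → K => rowv F x (f k) i
    rcases f k with j | l
    · exact continuous_aeval' _
    · exact continuous_const
  have hT : ∀ T : Finset J, ∃ c : ℝ, 0 < c ∧ ∀ x : Fin n → K, ‖x‖ = 1 →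
      (∀ j ∈ T, ‖aeval x (F j)‖ ≤ c) → T.card < n ∧
        ∃ f : Fin n → J ⊕ Fin n, Good T f ∧ c ≤ ‖(rowM F x f).det‖ := by
    intro T
    let g : (Fin n → K) → ℝ := fun x => (∑ j ∈ T, ‖aeval x (F j)‖) +
      (if T.card < n then ∑ f ∈ Finset.univ.filter (fun f : Fin n → J ⊕ Fin n => Good T f),
        ‖(rowM F x f).det‖ else 0)
    have hg : Continuous g := by
      refine Continuous.add ?_ ?_
      · exact continuous_finset_sum _ fun j _ => (continuous_aeval' (F j)).norm
      · split_ifs
        · exact continuous_finset_sum _ fun f _ => (hcdet f).norm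
        · exact continuous_const
    have hpos : ∀ x : Fin n → K, ‖x‖ = 1 → 0 < g x := by
      intro x hx
      have hx0 : x ≠ 0 := by
        intro h
        rw [h, norm_zero] at hx
        exact zero_ne_one hx
      have hn1 : 0 ≤ ∑ j ∈ T, ‖aeval x (F j)‖ := Finset.sum_nonneg fun _ _ => norm_nonneg _
      have hn2 : 0 ≤ (if T.card < n then ∑ f ∈ Finset.univ.filter
          (fun f : Fin n → J ⊕ Fin n => Good T f), ‖(rowM F x f).det‖ else 0) := by
        split_ifs
        · exact Finset.sum_nonneg fun _ _ => norm_nonneg _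
        · exact le_rfl
      by_cases h : ∀ j ∈ T, aeval x (F j) = 0
      · obtain ⟨h1, f, hf, hdet⟩ := exists_good F hd hF x hx0 T h
        have h2 : 0 < ∑ f ∈ Finset.univ.filter (fun f : Fin n → J ⊕ Fin n => Good T f),
            ‖(rowM F x f).det‖ :=
          Finset.sum_pos' (fun _ _ => norm_nonneg _)
            ⟨f, Finset.mem_filter.2 ⟨Finset.mem_univ _, hf⟩, norm_pos_iff.2 hdet⟩
        have h3 : g x = (∑ j ∈ T, ‖aeval x (F j)‖) + ∑ f ∈ Finset.univ.filter
            (fun f : Fin n → J ⊕ Fin n => Good T f), ‖(rowM F x f).det‖ := by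
          simp only [g, if_pos h1]
        rw [h3]
        linarith
      · push Not at h
        obtain ⟨j, hj, hne⟩ := h
        have h2 : 0 < ∑ j ∈ T, ‖aeval x (F j)‖ :=
          Finset.sum_pos' (fun _ _ => norm_nonneg _) ⟨j, hj, norm_pos_iff.2 hne⟩
        have : g x = (∑ j ∈ T, ‖aeval x (F j)‖) + (if T.card < n then ∑ f ∈ Finset.univ.filter
          (fun f : Fin n → J ⊕ Fin n => Good T f), ‖(rowM F x f).det‖ else 0) := rfl
        rw [this]
        linarith
    obtain ⟨m, hm, hmg⟩ : ∃ m : ℝ, 0 < m ∧ ∀ x : Fin n → K, ‖x‖ = 1 → m ≤ g x := by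
      rcases (Metric.sphere (0 : Fin n → K) 1).eq_empty_or_nonempty with h | h
      · refine ⟨1, one_pos, fun x hx => ?_⟩
        have : x ∈ Metric.sphere (0 : Fin n → K) 1 := by simpa using hx
        rw [h] at this
        exact absurd this (Set.notMem_empty _)
      · obtain ⟨x0, hx0, hmin⟩ := (isCompact_sphere (0 : Fin n → K) 1).exists_isMinOn h
          hg.continuousOn
        refine ⟨g x0, hpos x0 (by simpa using hx0), fun x hx => ?_⟩
        exact hmin (by simpa using hx)
    set q : ℝ := (Fintype.card (Fin n → J ⊕ Fin n) : ℝ) + 1 with hq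
    set t : ℝ := (T.card : ℝ) + 1 with ht
    have hq0 : 0 < q := by positivity
    have ht0 : 0 < t := by positivity
    refine ⟨min (m / (4 * t)) (m / (4 * q)), by positivity, fun x hx hsm => ?_⟩
    have h1 : ∑ j ∈ T, ‖aeval x (F j)‖ ≤ m / 4 := by
      calc ∑ j ∈ T, ‖aeval x (F j)‖ ≤ ∑ j ∈ T, m / (4 * t) :=
            Finset.sum_le_sum fun j hj => (hsm j hj).trans (min_le_left _ _)
        _ = T.card * (m / (4 * t)) := by rw [Finset.sum_const, nsmul_eq_mul]
        _ ≤ t * (m / (4 * t)) := by
            apply mul_le_mul_of_nonneg_right _ (by positivity)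
            rw [ht]; linarith
        _ = m / 4 := by field_simp
    have h2 := hmg x hx
    have h3 : m / 2 ≤ (if T.card < n then ∑ f ∈ Finset.univ.filter
          (fun f : Fin n → J ⊕ Fin n => Good T f), ‖(rowM F x f).det‖ else 0) := by
      have : g x = (∑ j ∈ T, ‖aeval x (F j)‖) + (if T.card < n then ∑ f ∈ Finset.univ.filter
          (fun f : Fin n → J ⊕ Fin n => Good T f), ‖(rowM F x f).det‖ else 0) := rfl
      rw [this] at h2
      linarith
    split_ifs at h3 with hc
    · refine ⟨hc, ?_⟩
      by_contra hcon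
      push Not at hcon
      have h4 : ∑ f ∈ Finset.univ.filter (fun f : Fin n → J ⊕ Fin n => Good T f),
          ‖(rowM F x f).det‖ ≤ ∑ f ∈ Finset.univ.filter
            (fun f : Fin n → J ⊕ Fin n => Good T f), m / (4 * q) := by
        refine Finset.sum_le_sum fun f hf => ?_
        have := hcon f (Finset.mem_filter.1 hf).2
        exact this.le.trans (min_le_right _ _)
      rw [Finset.sum_const, nsmul_eq_mul] at h4
      have h5 : ((Finset.univ.filter (fun f : Fin n → J ⊕ Fin n => Good T f)).card : ℝ) ≤ q := by
        have := Finset.card_le_univ (Finset.univ.filter (fun f : Fin n → J ⊕ Fin n => Good T f))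
        have h6 : ((Finset.univ.filter (fun f : Fin n → J ⊕ Fin n => Good T f)).card : ℝ) ≤
            (Fintype.card (Fin n → J ⊕ Fin n) : ℝ) := by exact_mod_cast this
        rw [hq]; linarith
      have h6 : ((Finset.univ.filter (fun f : Fin n → J ⊕ Fin n => Good T f)).card : ℝ) *
          (m / (4 * q)) ≤ q * (m / (4 * q)) := mul_le_mul_of_nonneg_right h5 (by positivity)
      have h7 : q * (m / (4 * q)) = m / 4 := by field_simp
      linarith
    · linarith
  choose c hc hc' using hT
  obtain ⟨T0, -, hT0⟩ := Finset.exists_min_image (Finset.univ : Finset (Finset J)) c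
    ⟨∅, Finset.mem_univ _⟩
  refine ⟨c T0, hc T0, fun x hx T hsm => ?_⟩
  have hle := hT0 T (Finset.mem_univ _)
  obtain ⟨h1, f, hf, h2⟩ := hc' T x hx fun j hj => (hsm j hj).trans hle
  exact ⟨h1, f, hf, hle.trans h2⟩

end Pool.Agent.W225.V
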