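import Mathlib
import Pool.Agent.W225.V.Quant

set_option autoImplicit false

/-!
Determinants of points that are close to each other and to a normal crossing divisor.
-/

namespace Pool.Agent.W225.V

open MvPolynomial

variable {K : Type} [NormedField K] {n : ℕ} {J : Type}

lemma det_entries_le (A : Matrix (Fin n) (Fin n) K) (α β : Fin n → ℝ) (hα : ∀ l, 0 ≤ α l)
    (h : ∀ l k, ‖A l k‖ ≤ α l * β k) :
    ‖A.det‖ ≤ n.factorial * ((∏ l, α l) * ∏ k, β k) := by
  rw [Matrix.det_apply]
  refine (norm_sum_le _ _).trans ?_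
  have h1 : ∀ σ ∈ (Finset.univ : Finset (Equiv.Perm (Fin n))),
      ‖Equiv.Perm.sign σ • ∏ i, A (σ i) i‖ ≤ (∏ l, α l) * ∏ k, β k := by
    intro σ _
    have h2 : ‖Equiv.Perm.sign σ • ∏ i, A (σ i) i‖ = ∏ i, ‖A (σ i) i‖ := by
      rw [← norm_prod]
      rcases Int.units_eq_one_or (Equiv.Perm.sign σ) with h | h <;> rw [h] <;> simp
    rw [h2, ← Equiv.prod_comp σ α, ← Finset.prod_mul_distrib]
    exact Finset.prod_le_prod (fun _ _ => norm_nonneg _) fun i _ => h (σ i) i
  refine (Finset.sum_le_sum h1).trans ?_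
  rw [Finset.sum_const, Finset.card_univ, Fintype.card_perm, Fintype.card_fin, nsmul_eq_mul]

lemma det_ball_le (A : Matrix (Fin n) (Fin n) K) (h : ∀ l k, ‖A l k‖ ≤ 1) :
    ‖A.det‖ ≤ n.factorial := by
  have := det_entries_le A (fun _ => 1) (fun _ => 1) (fun _ => zero_le_one)
    (fun l k => by simpa using h l k)
  simpa using this

/-- the product over the rows of a good choice -/
lemma prod_good {T : Finset J} {f : Fin n → J ⊕ Fin n} (hf : Function.Injective f)
    (hT : Good T f) (β : J ⊕ Fin n → ℝ) {ρ : ℝ} (hβ : ∀ m, β (.inr m) = ρ) :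
    ∏ k, β (f k) = (∏ j ∈ T, β (.inl j)) * ρ ^ (n - T.card) := by
  classical
  set I : Finset (Fin n) := Finset.univ.filter (fun k => (f k).isLeft = true) with hI
  have hIT : ∏ k ∈ I, β (f k) = ∏ j ∈ T, β (.inl j) := by
    have himg : I.image f = T.image (Sum.inl : J → J ⊕ Fin n) := by
      ext a
      simp only [Finset.mem_image, hI, Finset.mem_filter, Finset.mem_univ, true_and]
      constructor
      · rintro ⟨k, hk, rfl⟩
        obtain ⟨j, hj⟩ := Sum.isLeft_iff.1 hk
        exact ⟨j, hT.2 k j hj, hj.symm⟩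
      · rintro ⟨j, hj, rfl⟩
        obtain ⟨k, hk⟩ := hT.1 j hj
        exact ⟨k, by rw [hk]; rfl, hk⟩
    rw [← Finset.prod_image (f := β) (g := f) (fun a _ b _ h => hf h), himg,
      Finset.prod_image (fun a _ b _ h => Sum.inl_injective h)]
  have hcard : I.card = T.card := by
    have himg : I.image f = T.image (Sum.inl : J → J ⊕ Fin n) := by
      ext a
      simp only [Finset.mem_image, hI, Finset.mem_filter, Finset.mem_univ, true_and]
      constructor
      · rintro ⟨k, hk, rfl⟩
        obtain ⟨j, hj⟩ := Sum.isLeft_iff.1 hk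
        exact ⟨j, hT.2 k j hj, hj.symm⟩
      · rintro ⟨j, hj, rfl⟩
        obtain ⟨k, hk⟩ := hT.1 j hj
        exact ⟨k, by rw [hk]; rfl, hk⟩
    rw [← Finset.card_image_of_injective I hf, himg,
      Finset.card_image_of_injective T Sum.inl_injective]
  have hrest : ∏ k ∈ Iᶜ, β (f k) = ρ ^ (n - T.card) := by
    rw [← hcard, Finset.prod_congr rfl (g := fun _ => ρ)]
    · rw [Finset.prod_const, Finset.card_compl, Fintype.card_fin]
    · intro k hk
      rw [hI, Finset.mem_compl, Finset.mem_filter] at hk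
      simp only [Finset.mem_univ, true_and, Bool.not_eq_true, Sum.isLeft_eq_false] at hk
      obtain ⟨m, hm⟩ := Sum.isRight_iff.1 hk
      rw [hm, hβ]
  rw [← Finset.prod_mul_prod_compl I, hIT, hrest]

lemma good_injective {F : J → MvPolynomial (Fin n) ℤ} {x : Fin n → K} {f : Fin n → J ⊕ Fin n}
    (h : (rowM F x f).det ≠ 0) : Function.Injective f := by
  intro a b hab
  by_contra hne
  apply h
  refine Matrix.det_zero_of_row_eq hne ?_
  funext i
  change rowv F x (f a) i = rowv F x (f b) i
  rw [hab]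

lemma euler_aeval {F : MvPolynomial (Fin n) ℤ} {d : ℕ} (hF : F.IsHomogeneous d) (x : Fin n → K) :
    ∑ i, x i * aeval x (pderiv i F) = (d : K) * aeval x F := by
  have h := hF.sum_X_mul_pderiv
  have h2 := congrArg (fun P => aeval x P) h
  simp only [map_sum, map_mul, aeval_X, map_nsmul] at h2
  rw [h2, nsmul_eq_mul]

lemma lin_self {F : MvPolynomial (Fin n) ℤ} {d : ℕ} (hF : F.IsHomogeneous d) (x : Fin n → K) :
    lin F x x = (d : K) * aeval x F := by
  rw [← euler_aeval hF x]
  unfold lin
  exact Finset.sum_congr rfl fun i _ => mul_comm _ _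

/-- small parts of a product -/
lemma prod_small [Fintype J] (ε : J → ℝ) (hε : ∀ j, 0 < ε j) {c : ℝ} (hc0 : 0 < c) (hc1 : c ≤ 1)
    (Sm : Finset J) (hSm : ∀ j, j ∉ Sm → c ≤ ε j) {X : ℝ} (hX : ∏ j, ε j ≤ X) :
    ∏ j ∈ Sm, ε j ≤ (1 / c) ^ (Fintype.card J) * X := by
  classical
  have h1 : c ^ (Fintype.card J) ≤ ∏ j ∈ Smᶜ, ε j := by
    calc c ^ (Fintype.card J) ≤ c ^ (Smᶜ).card :=
          pow_le_pow_of_le_one hc0.le hc1 (Finset.card_le_univ _)
      _ = ∏ j ∈ Smᶜ, c := by rw [Finset.prod_const]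
      _ ≤ ∏ j ∈ Smᶜ, ε j := Finset.prod_le_prod (fun _ _ => hc0.le) fun j hj =>
          hSm j (Finset.mem_compl.1 hj)
  have h2 : 0 < ∏ j ∈ Sm, ε j := Finset.prod_pos fun j _ => hε j
  have h3 : (∏ j ∈ Sm, ε j) * c ^ (Fintype.card J) ≤ X := by
    refine le_trans ?_ hX
    rw [← Finset.prod_mul_prod_compl Sm]
    exact mul_le_mul_of_nonneg_left h1 h2.le
  rw [one_div, inv_pow, inv_mul_eq_div, le_div_iff₀ (by positivity)]
  exact h3

/-- **Determinants of nearby points.** -/
lemma det_local (K : Type) [NormedField K] [CharZero K] [ProperSpace K] [Fintype J]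
    (hn : 1 ≤ n) (F : J → MvPolynomial (Fin n) ℤ) {d : J → ℕ}
    (hd : ∀ j, (F j).IsHomogeneous (d j)) (hF : IsSNC F) {A : ℝ} (hA : 1 ≤ A) :
    ∃ C : ℝ, 1 ≤ C ∧ ∀ R : ℝ, 1 ≤ R → ∀ ε : J → ℝ, (∀ j, 0 < ε j) → R ^ n * ∏ j, ε j ≤ 1 →
      ∀ z : Fin n → Fin n → K, (∀ l, ‖z l‖ = 1) → (∀ l l', ‖z l - z l'‖ ≤ A / R) →
        (∀ l j, ‖aeval (z l) (F j)‖ ≤ A * ε j) → ‖(Matrix.of z).det‖ ≤ C / R ^ n := by
  classical
  obtain ⟨c0', hc0', hq'⟩ := quant K F hd hF
  set c0 : ℝ := min c0' 1 with hc0def
  have hc0 : 0 < c0 := lt_min hc0' one_pos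
  have hc01 : c0 ≤ 1 := min_le_right _ _
  have hq : ∀ x : Fin n → K, ‖x‖ = 1 → ∀ T : Finset J,
      (∀ j ∈ T, ‖aeval x (F j)‖ ≤ c0) → T.card < n ∧
        ∃ f : Fin n → J ⊕ Fin n, Good T f ∧ c0 ≤ ‖(rowM F x f).det‖ := by
    intro x hx T hT
    obtain ⟨h1, f, h2, h3⟩ := hq' x hx T fun j hj => (hT j hj).trans (min_le_left _ _)
    exact ⟨h1, f, h2, (min_le_left _ _).trans h3⟩
  obtain ⟨Ct, hCt, htay⟩ := exists_taylor' K F
  set D : ℝ := ∑ j, (d j : ℝ) with hD
  have hD0 : 0 ≤ D := Finset.sum_nonneg fun j _ => Nat.cast_nonneg _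
  have hdD : ∀ j, (d j : ℝ) ≤ D := fun j =>
    Finset.single_le_sum (f := fun j => (d j : ℝ)) (fun j _ => Nat.cast_nonneg _)
      (Finset.mem_univ j)
  set C1 : ℝ := Ct * A ^ 2 + 2 * A + D * A + 1 with hC1
  have hA0 : 0 < A := by linarith
  have hC10 : 0 < C1 := by positivity
  set Q : ℝ := (1 / (c0 / A)) ^ (Fintype.card J) with hQ
  have hcA0 : 0 < c0 / A := by positivity
  have hcA1 : c0 / A ≤ 1 := by
    rw [div_le_one hA0]; linarith
  have hQ1 : 1 ≤ Q := by
    rw [hQ]
    refine one_le_pow₀ ?_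
    rw [le_div_iff₀ hcA0]
    linarith
  set C2 : ℝ := n.factorial * (C1 ^ n * (Q / c0)) with hC2
  have hfac : (1 : ℝ) ≤ n.factorial := by exact_mod_cast Nat.one_le_iff_ne_zero.2 (Nat.factorial_ne_zero n)
  refine ⟨C2 + n.factorial * (A / c0) ^ n, ?_, ?_⟩
  · have h1 : (1 : ℝ) ≤ (A / c0) ^ n := by
      refine one_le_pow₀ ?_
      rw [le_div_iff₀ hc0]; linarith
    have h2 : 0 ≤ C2 := by positivity
    nlinarith
  intro R hR ε hε hprod z hz hclose hsmall
  have hR0 : 0 < R := by linarith
  have hC20 : 0 ≤ C2 := by positivity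
  have hzle : ∀ l k, ‖z l k‖ ≤ 1 := fun l k => (norm_le_pi_norm (z l) k).trans (hz l).le
  by_cases hRbig : R < A / c0
  · -- trivial case
    have h1 : ‖(Matrix.of z).det‖ ≤ n.factorial := det_ball_le _ fun l k => hzle l k
    refine h1.trans ?_
    rw [le_div_iff₀ (by positivity)]
    have h2 : R ^ n ≤ (A / c0) ^ n := pow_le_pow_left₀ hR0.le hRbig.le n
    have h3 : (n.factorial : ℝ) * R ^ n ≤ n.factorial * (A / c0) ^ n :=
      mul_le_mul_of_nonneg_left h2 (by positivity)
    linarith
  push Not at hRbig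
  set ρ : ℝ := 1 / R with hρ
  have hρ0 : 0 < ρ := by positivity
  have hρ1 : ρ ≤ 1 := by rw [hρ, div_le_one hR0]; exact hR
  have hRρ : R * ρ = 1 := by rw [hρ]; field_simp
  have hAρ : A * ρ ≤ c0 := by
    rw [hρ, mul_one_div, div_le_iff₀ hR0]
    rw [div_le_iff₀ hc0] at hRbig
    linarith
  have hprod' : ∏ j, ε j ≤ ρ ^ n := by
    rw [hρ, div_pow, one_pow, le_div_iff₀ (by positivity), mul_comm]
    exact hprod
  let l0 : Fin n := ⟨0, hn⟩
  -- the weights
  obtain ⟨β, hβl, hβr⟩ : ∃ β : J ⊕ Fin n → ℝ, (∀ j, β (.inl j) = max (ε j) (ρ ^ 2)) ∧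
      (∀ m, β (.inr m) = ρ) :=
    ⟨fun a => match a with
      | .inl j => max (ε j) (ρ ^ 2)
      | .inr _ => ρ, fun _ => rfl, fun _ => rfl⟩
  have hβ0 : ∀ a, 0 < β a := by
    intro a
    rcases a with j | m
    · rw [hβl]; exact lt_max_of_lt_left (hε j)
    · rw [hβr]; exact hρ0
  -- the main estimate for one choice of rows
  have key : ∀ T : Finset J, ∀ f : Fin n → J ⊕ Fin n, Good T f →
      c0 ≤ ‖(rowM F (z l0) f).det‖ → (∏ k, β (f k)) ≤ Q * ρ ^ (n + 1) →
      ‖(Matrix.of z).det‖ ≤ C2 / R ^ n := by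
    intro T f hTf hdet hβf
    set G := rowM F (z l0) f with hG
    set W : Matrix (Fin n) (Fin n) K := Matrix.of z * G.transpose with hW
    have hWe : ∀ l k, W l k = ∑ i, z l i * G k i := by
      intro l k
      rw [hW, Matrix.mul_apply]
      rfl
    let W' : Matrix (Fin n) (Fin n) K := fun l k => if l = l0 then W l0 k else W l k - W l0 k
    have hdetW : W.det = W'.det := by
      refine Matrix.det_eq_of_forall_row_eq_smul_add_const
        (fun l => if l = l0 then 0 else 1) l0 (by simp) fun l k => ?_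
      by_cases hl : l = l0
      · simp [W', hl]
      · simp [W', hl]
    have hlin : ∀ k (v : Fin n → K), ∀ j, f k = .inl j → ∑ i, v i * G k i = lin (F j) (z l0) v := by
      intro k v j hk
      unfold lin
      refine Finset.sum_congr rfl fun i _ => ?_
      rw [hG]
      change v i * rowv F (z l0) (f k) i = _
      rw [hk]
      exact mul_comm _ _
    have hstd : ∀ k (v : Fin n → K), ∀ m, f k = .inr m → ∑ i, v i * G k i = v m := by
      intro k v m hk
      have : ∀ i, v i * G k i = if i = m then v m else 0 := by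
        intro i
        rw [hG]
        change v i * rowv F (z l0) (f k) i = _
        rw [hk]
        change v i * (Pi.single m 1 : Fin n → K) i = _
        by_cases him : i = m
        · subst him; simp
        · rw [Pi.single_eq_of_ne him, mul_zero, if_neg him]
      rw [Finset.sum_congr rfl fun i _ => this i]
      simp
    have hW'e : ∀ l k, ‖W' l k‖ ≤ (if l = l0 then C1 * R else C1) * β (f k) := by
      intro l k
      by_cases hl : l = l0
      · have h1 : W' l k = ∑ i, z l0 i * G k i := by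
          simp only [W', if_pos hl]
          exact hWe l0 k
        rw [h1, if_pos hl]
        rcases hfk : f k with j | m
        · rw [hlin k _ j hfk, lin_self (hd j), norm_mul, hβl]
          have h2 : ‖((d j : ℕ) : K)‖ ≤ D := by
            have := Nat.norm_cast_le (α := K) (d j)
            rw [norm_one, mul_one] at this
            exact this.trans (hdD j)
          have h3 := hsmall l0 j
          calc ‖((d j : ℕ) : K)‖ * ‖aeval (z l0) (F j)‖ ≤ D * (A * ε j) :=
                mul_le_mul h2 h3 (norm_nonneg _) hD0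
            _ = (D * A) * ε j := by ring
            _ ≤ (C1 * R) * max (ε j) (ρ ^ 2) := by
                refine mul_le_mul ?_ (le_max_left _ _) (hε j).le (by positivity)
                have : D * A ≤ C1 := by
                  rw [hC1]
                  have : 0 ≤ Ct * A ^ 2 := by positivity
                  linarith
                have h4 : C1 * 1 ≤ C1 * R := mul_le_mul_of_nonneg_left hR hC10.le
                linarith
        · rw [hstd k _ m hfk, hβr]
          have h2 : C1 * R * ρ = C1 := by rw [mul_assoc, hRρ, mul_one]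
          rw [h2]
          refine (hzle l0 m).trans ?_
          rw [hC1]
          have : 0 ≤ Ct * A ^ 2 := by positivity
          have : 0 ≤ D * A := by positivity
          linarith
      · have h1 : W' l k = ∑ i, (z l - z l0) i * G k i := by
          simp only [W', if_neg hl]
          rw [hWe, hWe, ← Finset.sum_sub_distrib]
          refine Finset.sum_congr rfl fun i _ => ?_
          rw [Pi.sub_apply]
          ring
        rw [h1, if_neg hl]
        have hcl := hclose l l0
        have hcl' : ‖z l - z l0‖ ≤ A * ρ := by rw [hρ, mul_one_div]; exact hcl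
        rcases hfk : f k with j | m
        · rw [hlin k _ j hfk, hβl]
          obtain ⟨h2, -, -⟩ := htay j (z l0) (z l) (hz l0).le (hz l).le
          have h3 := hsmall l0 j
          have h4 := hsmall l j
          have h5 : ‖lin (F j) (z l0) (z l - z l0)‖ ≤ Ct * ‖z l - z l0‖ ^ 2 + A * ε j + A * ε j := by
            have e : lin (F j) (z l0) (z l - z l0) = aeval (z l) (F j) - aeval (z l0) (F j) -
                (aeval (z l) (F j) - aeval (z l0) (F j) - lin (F j) (z l0) (z l - z l0)) := by ring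
            rw [e]
            refine (norm_sub_le _ _).trans ?_
            have h6 := norm_sub_le (aeval (z l) (F j)) (aeval (z l0) (F j))
            linarith
          refine h5.trans ?_
          have h7 : ‖z l - z l0‖ ^ 2 ≤ A ^ 2 * ρ ^ 2 := by
            rw [← mul_pow]
            exact pow_le_pow_left₀ (norm_nonneg _) hcl' 2
          set mx := max (ε j) (ρ ^ 2) with hmx
          have h8 : ε j ≤ mx := le_max_left _ _
          have h9 : ρ ^ 2 ≤ mx := le_max_right _ _
          have h10 : Ct * ‖z l - z l0‖ ^ 2 ≤ Ct * A ^ 2 * mx := by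
            calc Ct * ‖z l - z l0‖ ^ 2 ≤ Ct * (A ^ 2 * ρ ^ 2) :=
                  mul_le_mul_of_nonneg_left h7 (by linarith)
              _ = Ct * A ^ 2 * ρ ^ 2 := by ring
              _ ≤ Ct * A ^ 2 * mx := mul_le_mul_of_nonneg_left h9 (by positivity)
          have h11 : A * ε j ≤ A * mx := mul_le_mul_of_nonneg_left h8 hA0.le
          have h12 : 0 ≤ mx := le_trans (by positivity) h9
          rw [hC1]
          have h13 : 0 ≤ (D * A + 1) * mx := by positivity
          linarith
        · rw [hstd k _ m hfk, hβr]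
          have h2 := norm_le_pi_norm (z l - z l0) m
          refine h2.trans (hcl'.trans ?_)
          refine mul_le_mul_of_nonneg_right ?_ hρ0.le
          rw [hC1]
          have : 0 ≤ Ct * A ^ 2 := by positivity
          have : 0 ≤ D * A := by positivity
          linarith
    have hdb := det_entries_le W' (fun l => if l = l0 then C1 * R else C1) (fun k => β (f k))
      (fun l => by split_ifs <;> positivity) hW'e
    have hprodα : (∏ l, (if l = l0 then C1 * R else C1)) = C1 ^ n * R := by
      have : ∀ l, (if l = l0 then C1 * R else C1) = C1 * (if l = l0 then R else 1) := by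
        intro l; split_ifs <;> ring
      rw [Finset.prod_congr rfl fun l _ => this l, Finset.prod_mul_distrib, Finset.prod_const,
        Finset.card_univ, Fintype.card_fin, Finset.prod_ite_eq' Finset.univ l0]
      simp
    rw [hprodα] at hdb
    have hmul : ‖W.det‖ = ‖(Matrix.of z).det‖ * ‖G.det‖ := by
      rw [hW, Matrix.det_mul, Matrix.det_transpose, norm_mul]
    rw [← hdetW, hmul] at hdb
    have h14 : ‖(Matrix.of z).det‖ * c0 ≤ n.factorial * (C1 ^ n * R * (Q * ρ ^ (n + 1))) := by
      refine (mul_le_mul_of_nonneg_left hdet (norm_nonneg _)).trans (hdb.trans ?_)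
      refine mul_le_mul_of_nonneg_left ?_ (by positivity)
      exact mul_le_mul_of_nonneg_left hβf (by positivity)
    have h15 : C1 ^ n * R * (Q * ρ ^ (n + 1)) = C1 ^ n * Q / R ^ n := by
      rw [pow_succ]
      calc C1 ^ n * R * (Q * (ρ ^ n * ρ)) = C1 ^ n * Q * ρ ^ n * (R * ρ) := by ring
        _ = C1 ^ n * Q / R ^ n := by rw [hRρ, mul_one, hρ, div_pow, one_pow, mul_one_div]
    rw [h15, ← le_div_iff₀ hc0] at h14
    refine h14.trans (le_of_eq ?_)
    rw [hC2]
    field_simp
  have hfin : ‖(Matrix.of z).det‖ ≤ C2 / R ^ n := by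
    by_cases hcase : ∃ j0, ε j0 ≤ ρ ^ 2
    · obtain ⟨j0, hj0⟩ := hcase
      obtain ⟨h1, f, hf, hdet⟩ := hq (z l0) (hz l0) {j0} (by
        intro j hj
        rw [Finset.mem_singleton] at hj
        rw [hj]
        refine (hsmall l0 j0).trans ?_
        have : A * ε j0 ≤ A * ρ := by
          refine mul_le_mul_of_nonneg_left (hj0.trans ?_) hA0.le
          nlinarith
        linarith)
      refine key {j0} f hf hdet ?_
      have hne : (rowM F (z l0) f).det ≠ 0 := norm_pos_iff.1 (lt_of_lt_of_le hc0 hdet)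
      rw [prod_good (good_injective hne) hf β hβr, Finset.prod_singleton, Finset.card_singleton,
        hβl, max_eq_right hj0, ← pow_add]
      have : 2 + (n - 1) = n + 1 := by omega
      rw [this]
      have h2 : 0 < ρ ^ (n + 1) := by positivity
      nlinarith
    · push Not at hcase
      set Sm : Finset J := Finset.univ.filter (fun j => A * ε j ≤ c0) with hSm
      obtain ⟨h1, f, hf, hdet⟩ := hq (z l0) (hz l0) Sm (by
        intro j hj
        exact (hsmall l0 j).trans (Finset.mem_filter.1 hj).2)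
      refine key Sm f hf hdet ?_
      have hne : (rowM F (z l0) f).det ≠ 0 := norm_pos_iff.1 (lt_of_lt_of_le hc0 hdet)
      rw [prod_good (good_injective hne) hf β hβr]
      have h2 : ∏ j ∈ Sm, β (.inl j) = ∏ j ∈ Sm, ε j :=
        Finset.prod_congr rfl fun j _ => by rw [hβl, max_eq_left (hcase j).le]
      rw [h2]
      have h3 := prod_small ε hε hcA0 hcA1 Sm (fun j hj => by
        rw [hSm, Finset.mem_filter] at hj
        simp only [Finset.mem_univ, true_and, not_le] at hj
        rw [div_le_iff₀ hA0]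
        linarith) hprod'
      have h4 : ρ ^ (n - Sm.card) ≤ ρ := by
        calc ρ ^ (n - Sm.card) ≤ ρ ^ 1 := pow_le_pow_of_le_one hρ0.le hρ1 (by omega)
          _ = ρ := pow_one ρ
      calc (∏ j ∈ Sm, ε j) * ρ ^ (n - Sm.card) ≤ (Q * ρ ^ n) * ρ :=
            mul_le_mul h3 h4 (by positivity) (by positivity)
        _ = Q * ρ ^ (n + 1) := by ring
  refine hfin.trans ?_
  refine div_le_div_of_nonneg_right ?_ (by positivity)
  have : 0 ≤ (n.factorial : ℝ) * (A / c0) ^ n := by positivity
  linarith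

end Pool.Agent.W225.V
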