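import Mathlib
import Pool.Agent.W225.V.DetLoc

set_option autoImplicit false

/-!
The part of a chart of projective space near a normal crossing divisor is covered by few small
cells.
-/

namespace Pool.Agent.W225.V

open MvPolynomial

variable {n : ℕ} {J : Type}

/-- the unit ball is covered by `O(R)` sets of diameter `1 / R` -/
def Cov (K : Type) [NormedField K] : Prop :=
  ∃ C : ℝ, 1 ≤ C ∧ ∀ R : ℝ, 1 ≤ R → ∃ (m : ℕ) (q : K → Fin m), (m : ℝ) ≤ C * R ∧
    ∀ a b : K, ‖a‖ ≤ 1 → ‖b‖ ≤ 1 → q a = q b → ‖a - b‖ ≤ 1 / R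

lemma quant1 (K : Type) [NormedField K] [CharZero K] [ProperSpace K] [Fintype J]
    (F : J → MvPolynomial (Fin n) ℤ) {d : J → ℕ}
    (hd : ∀ j, (F j).IsHomogeneous (d j)) (hF : IsSNC F) :
    ∃ c : ℝ, 0 < c ∧ c ≤ 1 ∧ ∀ x : Fin n → K, ‖x‖ = 1 → ∀ T : Finset J,
      (∀ j ∈ T, ‖aeval x (F j)‖ ≤ c) → T.card < n ∧
        ∃ f : Fin n → J ⊕ Fin n, Good T f ∧ c ≤ ‖(rowM F x f).det‖ := by
  obtain ⟨c0', hc0', hq'⟩ := quant K F hd hF
  refine ⟨min c0' 1, lt_min hc0' one_pos, min_le_right _ _, fun x hx T hT => ?_⟩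
  obtain ⟨h1, f, h2, h3⟩ := hq' x hx T fun j hj => (hT j hj).trans (min_le_left _ _)
  exact ⟨h1, f, h2, (min_le_left _ _).trans h3⟩

/-- a large partial derivative -/
lemma exists_large_grad {K : Type} [NormedField K] {F : J → MvPolynomial (Fin n) ℤ}
    {x : Fin n → K} {j : J} {f : Fin n → J ⊕ Fin n} (hf : Good {j} f) {c : ℝ}
    (hc : 0 < c) (h : c ≤ ‖(rowM F x f).det‖) :
    ∃ k, c / (2 * n.factorial) ≤ ‖aeval x (pderiv k (F j))‖ := by
  classical
  by_contra hcon
  push Not at hcon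
  set η : ℝ := c / (2 * n.factorial) with hη
  have hη0 : 0 < η := by positivity
  obtain ⟨k1, hk1⟩ := hf.1 j (Finset.mem_singleton_self j)
  have hne : (rowM F x f).det ≠ 0 := norm_pos_iff.1 (lt_of_lt_of_le hc h)
  have hinj := good_injective hne
  have hle := det_entries_le (rowM F x f) (fun l => if l = k1 then η else 1) (fun _ => 1)
    (fun l => by split_ifs <;> positivity) (by
      intro l k
      rw [mul_one]
      change ‖rowv F x (f l) k‖ ≤ _
      by_cases hl : l = k1
      · rw [if_pos hl, hl, hk1]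
        exact (hcon k).le
      · rw [if_neg hl]
        rcases hfl : f l with j' | m
        · have hj' : j' = j := Finset.mem_singleton.1 (hf.2 l j' hfl)
          rw [hj'] at hfl
          exact absurd (hinj (hfl.trans hk1.symm)) hl
        · change ‖(Pi.single m 1 : Fin n → K) k‖ ≤ 1
          by_cases hkm : k = m
          · subst hkm; simp
          · rw [Pi.single_eq_of_ne hkm, norm_zero]; exact zero_le_one)
  rw [Finset.prod_ite_eq' Finset.univ k1] at hle
  simp only [Finset.mem_univ, if_true, Finset.prod_const_one, mul_one] at hle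
  have h2 : (n.factorial : ℝ) * η = c / 2 := by
    rw [hη]; field_simp
  rw [h2] at hle
  linarith

/-- either the scale is bounded, or one form is small -/
lemma near {K : Type} [NormedField K] [Fintype J] (hn : 2 ≤ n)
    {F : J → MvPolynomial (Fin n) ℤ} {c0 A : ℝ} (hc0 : 0 < c0) (hc01 : c0 ≤ 1) (hA : 1 ≤ A)
    (hq : ∀ x : Fin n → K, ‖x‖ = 1 → ∀ T : Finset J,
      (∀ j ∈ T, ‖aeval x (F j)‖ ≤ c0) → T.card < n)
    {R : ℝ} (hR : 1 ≤ R) {ε : J → ℝ} (hε : ∀ j, 0 < ε j) (hprod : R ^ n * ∏ j, ε j ≤ 1)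
    (z : Fin n → K) (hz : ‖z‖ = 1) (hsmall : ∀ j, ‖aeval z (F j)‖ ≤ A * ε j) :
    R ≤ (1 / (c0 / A)) ^ (Fintype.card J) ∨
      ∃ j, ε j ≤ (1 / (c0 / A)) ^ (Fintype.card J) / R := by
  classical
  set Q : ℝ := (1 / (c0 / A)) ^ (Fintype.card J) with hQ
  have hA0 : 0 < A := by linarith
  have hcA0 : 0 < c0 / A := by positivity
  have hcA1 : c0 / A ≤ 1 := by
    rw [div_le_one hA0]; linarith
  have hQ1 : 1 ≤ Q := by
    rw [hQ]
    refine one_le_pow₀ ?_
    rw [le_div_iff₀ hcA0]
    linarith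
  by_contra hcon
  push Not at hcon
  obtain ⟨h1, h2⟩ := hcon
  have hR0 : 0 < R := by linarith
  set ρ : ℝ := 1 / R with hρ
  have hρ0 : 0 < ρ := by positivity
  have hprod' : ∏ j, ε j ≤ ρ ^ n := by
    rw [hρ, div_pow, one_pow, le_div_iff₀ (by positivity), mul_comm]
    exact hprod
  set Sm : Finset J := Finset.univ.filter (fun j => A * ε j ≤ c0) with hSm
  have hcard := hq z hz Sm (by
    intro j hj
    exact (hsmall j).trans (Finset.mem_filter.1 hj).2)
  have h3 := prod_small ε hε hcA0 hcA1 Sm (fun j hj => by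
    rw [hSm, Finset.mem_filter] at hj
    simp only [Finset.mem_univ, true_and, not_le] at hj
    rw [div_le_iff₀ hA0]
    linarith) hprod'
  rw [← hQ] at h3
  have hQρ : Q * ρ ≤ 1 := by
    rw [hρ, mul_one_div, div_le_one hR0]; exact h1.le
  have hQρ0 : 0 < Q * ρ := by positivity
  have h4 : (Q * ρ) ^ (n - 1) ≤ ∏ j ∈ Sm, ε j := by
    calc (Q * ρ) ^ (n - 1) ≤ (Q * ρ) ^ Sm.card :=
          pow_le_pow_of_le_one hQρ0.le hQρ (by omega)
      _ = ∏ j ∈ Sm, (Q * ρ) := by rw [Finset.prod_const]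
      _ ≤ ∏ j ∈ Sm, ε j := by
          refine Finset.prod_le_prod (fun _ _ => hQρ0.le) fun j _ => ?_
          rw [hρ, mul_one_div]
          exact (h2 j).le
  have h5 : Q ^ (n - 1) * ρ ^ (n - 1) ≤ (Q * ρ) * ρ ^ (n - 1) := by
    rw [← mul_pow]
    refine (h4.trans h3).trans (le_of_eq ?_)
    have : n = (n - 1) + 1 := by omega
    conv_lhs => rw [this, pow_succ]
    ring
  have h6 : Q ^ (n - 1) ≤ Q * ρ := le_of_mul_le_mul_right h5 (by positivity)
  have h7 : Q ≤ Q ^ (n - 1) := by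
    calc Q = Q ^ 1 := (pow_one Q).symm
      _ ≤ Q ^ (n - 1) := pow_le_pow_right₀ hQ1 (by omega)
  have h8 : ρ < 1 := by
    rw [hρ, div_lt_one hR0]; linarith
  have h9 : Q * ρ < Q * 1 := mul_lt_mul_of_pos_left h8 (by linarith)
  linarith

/-- enumeration of all but two indices -/
lemma exists_enum (hn : 2 ≤ n) (i k : Fin n) (hik : k ≠ i) :
    ∃ e : Fin (n - 2) → Fin n, ∀ l, l ≠ i → l ≠ k → ∃ t, e t = l := by
  classical
  set s : Finset (Fin n) := (Finset.univ.erase i).erase k with hs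
  have hcard : s.card = n - 2 := by
    rw [hs, Finset.card_erase_of_mem (Finset.mem_erase.2 ⟨hik, Finset.mem_univ _⟩),
      Finset.card_erase_of_mem (Finset.mem_univ _), Finset.card_univ, Fintype.card_fin]
    omega
  let g := s.equivFinOfCardEq hcard
  refine ⟨fun t => (g.symm t).1, fun l hl hl' => ?_⟩
  have hls : l ∈ s := by
    rw [hs, Finset.mem_erase, Finset.mem_erase]
    exact ⟨hl', hl, Finset.mem_univ _⟩
  exact ⟨g ⟨l, hls⟩, by simp⟩

/-- **Few cells near the divisor.** -/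
lemma cells (K : Type) [NormedField K] [CharZero K] [ProperSpace K] (hcov : Cov K) [Fintype J]
    (hn : 2 ≤ n) (F : J → MvPolynomial (Fin n) ℤ) {d : J → ℕ}
    (hd : ∀ j, (F j).IsHomogeneous (d j)) (hF : IsSNC F) {A : ℝ} (hA : 1 ≤ A) :
    ∃ C : ℝ, 1 ≤ C ∧ ∀ R : ℝ, 1 ≤ R → ∀ ε : J → ℝ, (∀ j, 0 < ε j) → R ^ n * ∏ j, ε j ≤ 1 →
      ∀ i : Fin n, ∃ (m : ℕ) (q : (Fin n → K) → Fin m), (m : ℝ) ≤ C * R ^ (n - 2) ∧
        ∀ z z' : Fin n → K, (‖z‖ = 1 ∧ z i = 1 ∧ ∀ j, ‖aeval z (F j)‖ ≤ A * ε j) →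
          (‖z'‖ = 1 ∧ z' i = 1 ∧ ∀ j, ‖aeval z' (F j)‖ ≤ A * ε j) → q z = q z' →
            ‖z - z'‖ ≤ C / R := by
  classical
  obtain ⟨c0, hc0, hc01, hq⟩ := quant1 K F hd hF
  obtain ⟨Ct, hCt, htay⟩ := exists_taylor' K F
  obtain ⟨Cg, hCg, hgr⟩ := exists_taylor' K (fun p : J × Fin n => pderiv p.2 (F p.1))
  obtain ⟨CV, hCV, hcv⟩ := hcov
  set D : ℝ := ∑ j, (d j : ℝ) with hD
  have hD0 : 0 ≤ D := Finset.sum_nonneg fun j _ => Nat.cast_nonneg _
  have hdD : ∀ j, (d j : ℝ) ≤ D := fun j =>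
    Finset.single_le_sum (f := fun j => (d j : ℝ)) (fun j _ => Nat.cast_nonneg _)
      (Finset.mem_univ j)
  have hA0 : 0 < A := by linarith
  have hn0 : (0 : ℝ) < n := by exact_mod_cast (by omega : 0 < n)
  set Q : ℝ := (1 / (c0 / A)) ^ (Fintype.card J) with hQ
  have hcA0 : 0 < c0 / A := by positivity
  have hcA1 : c0 / A ≤ 1 := by
    rw [div_le_one hA0]; linarith
  have hQ1 : 1 ≤ Q := by
    rw [hQ]
    refine one_le_pow₀ ?_
    rw [le_div_iff₀ hcA0]
    linarith
  set η : ℝ := c0 / (2 * n.factorial) with hη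
  have hη0 : 0 < η := by positivity
  set c2 : ℝ := η / (2 * n) with hc2
  have hc20 : 0 < c2 := by positivity
  set η1 : ℝ := min 1 (c2 / (4 * Ct)) with hη1
  have hη10 : 0 < η1 := lt_min one_pos (by positivity)
  have hη11 : η1 ≤ 1 := min_le_left _ _
  set R0 : ℝ := Q + A * Q / c0 + 2 * D * A * Q / η + 1 with hR0def
  have hR00 : 0 < R0 := by positivity
  set C3 : ℝ := 2 * Ct + 2 * (A * Q) + n * Cg with hC3
  have hC30 : 0 < C3 := by positivity
  set C : ℝ := 1 + 2 * R0 + n * CV ^ (n - 2) * (CV / η1) + 2 * C3 / c2 with hC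
  have hCV0 : 0 < CV := by linarith
  have hp1 : 0 ≤ n * CV ^ (n - 2) * (CV / η1) := by positivity
  have hp2 : 0 ≤ 2 * C3 / c2 := by positivity
  have hC1 : 1 ≤ C := by rw [hC]; linarith
  have hC0 : 0 < C := by linarith
  refine ⟨C, hC1, fun R hR ε hε hprod i => ?_⟩
  have hR0 : 0 < R := by linarith
  have hRn : 1 ≤ R ^ (n - 2) := one_le_pow₀ hR
  by_cases hsm : R ≤ R0
  · refine ⟨1, fun _ => 0, ?_, ?_⟩
    · rw [Nat.cast_one]; exact one_le_mul_of_one_le_of_one_le hC1 hRn
    · intro z z' hz hz' _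
      refine (norm_sub_le _ _).trans ?_
      rw [hz.1, hz'.1, le_div_iff₀ hR0]
      rw [hC]; linarith
  push Not at hsm
  by_cases hv : ∃ z : Fin n → K, ‖z‖ = 1 ∧ z i = 1 ∧ ∀ j, ‖aeval z (F j)‖ ≤ A * ε j
  swap
  · refine ⟨1, fun _ => 0, ?_, ?_⟩
    · rw [Nat.cast_one]; exact one_le_mul_of_one_le_of_one_le hC1 hRn
    · intro z z' hz _ _
      exact absurd ⟨z, hz⟩ hv
  obtain ⟨z0, hz0, -, hz0s⟩ := hv
  have hpos1 : 0 ≤ A * Q / c0 := by positivity
  have hpos2 : 0 ≤ 2 * D * A * Q / η := by positivity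
  obtain ⟨j, hj⟩ : ∃ j, ε j ≤ Q / R := by
    rcases near hn hc0 hc01 hA (fun x hx T hT => (hq x hx T hT).1) hR hε hprod z0 hz0 hz0s with h | h
    · rw [← hQ] at h
      exfalso
      rw [hR0def] at hsm
      linarith
    · exact h
  have hAe : A * ε j ≤ A * Q / R := by
    rw [mul_div_assoc]
    exact mul_le_mul_of_nonneg_left hj hA0.le
  have hAQR : A * Q / R ≤ c0 := by
    rw [div_le_iff₀ hR0]
    have : A * Q / c0 < R := by rw [hR0def] at hsm; linarith
    rw [div_lt_iff₀ hc0] at this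
    linarith
  have hDR : D * (A * Q / R) < η / 2 := by
    have : 2 * D * A * Q / η < R := by rw [hR0def] at hsm; linarith
    rw [div_lt_iff₀ hη0] at this
    have e : D * (A * Q / R) = (D * A * Q) / R := by ring
    rw [e, div_lt_iff₀ hR0]
    linarith
  -- a large derivative off the chart index
  have hk : ∀ z : Fin n → K, ∃ k, (‖z‖ = 1 ∧ z i = 1 ∧ ∀ j, ‖aeval z (F j)‖ ≤ A * ε j) →
      k ≠ i ∧ c2 ≤ ‖aeval z (pderiv k (F j))‖ := by
    intro z
    by_cases hz : ‖z‖ = 1 ∧ z i = 1 ∧ ∀ j, ‖aeval z (F j)‖ ≤ A * ε j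
    swap
    · exact ⟨i, fun h => absurd h hz⟩
    obtain ⟨hz1, hzi, hzs⟩ := hz
    obtain ⟨-, f, hf, hdet⟩ := hq z hz1 {j} (by
      intro j' hj'
      rw [Finset.mem_singleton] at hj'
      rw [hj']
      exact ((hzs j).trans hAe).trans hAQR)
    obtain ⟨k, hk⟩ := exists_large_grad hf hc0 hdet
    rw [← hη] at hk
    by_contra hcon
    push Not at hcon
    have hall : ∀ l, l ≠ i → ‖aeval z (pderiv l (F j))‖ < c2 := fun l hl =>
      (hcon l).2 hl
    have hc2η : c2 ≤ η := by
      have : (1 : ℝ) ≤ n := by exact_mod_cast (by omega : 1 ≤ n)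
      rw [hc2]
      exact div_le_self hη0.le (by linarith)
    have hki : k = i := by
      by_contra h
      have := hall k h
      linarith
    rw [hki] at hk
    have heu := euler_aeval (hd j) z
    rw [← Finset.add_sum_erase _ _ (Finset.mem_univ i), hzi, one_mul] at heu
    have h2 : aeval z (pderiv i (F j)) = (d j : K) * aeval z (F j) -
        ∑ l ∈ Finset.univ.erase i, z l * aeval z (pderiv l (F j)) := by
      rw [← heu]; ring
    have h3 : ‖∑ l ∈ Finset.univ.erase i, z l * aeval z (pderiv l (F j))‖ ≤ η / 2 := by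
      refine (norm_sum_le _ _).trans ?_
      calc ∑ l ∈ Finset.univ.erase i, ‖z l * aeval z (pderiv l (F j))‖
          ≤ ∑ l ∈ Finset.univ.erase i, c2 := by
            refine Finset.sum_le_sum fun l hl => ?_
            rw [norm_mul]
            have h4 : ‖z l‖ ≤ 1 := (norm_le_pi_norm z l).trans hz1.le
            have h5 := (hall l (Finset.ne_of_mem_erase hl)).le
            calc ‖z l‖ * ‖aeval z (pderiv l (F j))‖ ≤ 1 * c2 :=
                  mul_le_mul h4 h5 (norm_nonneg _) zero_le_one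
              _ = c2 := one_mul _
        _ ≤ n * c2 := by
            rw [Finset.sum_const, nsmul_eq_mul]
            refine mul_le_mul_of_nonneg_right ?_ hc20.le
            have := Finset.card_le_univ (Finset.univ.erase i)
            rw [Fintype.card_fin] at this
            exact_mod_cast this
        _ = η / 2 := by rw [hc2]; field_simp
    have h6 : ‖(d j : K) * aeval z (F j)‖ ≤ D * (A * Q / R) := by
      rw [norm_mul]
      have h7 : ‖((d j : ℕ) : K)‖ ≤ D := by
        have := Nat.norm_cast_le (α := K) (d j)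
        rw [norm_one, mul_one] at this
        exact this.trans (hdD j)
      exact mul_le_mul h7 ((hzs j).trans hAe) (norm_nonneg _) hD0
    have h8 : ‖aeval z (pderiv i (F j))‖ ≤ D * (A * Q / R) + η / 2 := by
      rw [h2]
      exact (norm_sub_le _ _).trans (add_le_add h6 h3)
    linarith
  choose kk hkk using hk
  have he : ∀ k : Fin n, ∃ e : Fin (n - 2) → Fin n, k ≠ i → ∀ l, l ≠ i → l ≠ k → ∃ t, e t = l := by
    intro k
    by_cases hki : k = i
    · exact ⟨fun _ => i, fun h => absurd hki h⟩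
    · obtain ⟨e, he⟩ := exists_enum hn i k hki
      exact ⟨e, fun _ => he⟩
  choose e he using he
  obtain ⟨m1, q1, hm1, hq1⟩ := hcv R hR
  obtain ⟨m0, q0, hm0, hq0⟩ := hcv (1 / η1) (by rw [le_div_iff₀ hη10]; linarith)
  rw [one_div_one_div] at hq0
  let α : Type := Fin n × (Fin (n - 2) → Fin m1) × Fin m0
  let lab : (Fin n → K) → α := fun z => (kk z, (fun t => q1 (z (e (kk z) t))), q0 (z (kk z)))
  refine ⟨Fintype.card α, fun z => Fintype.equivFin α (lab z), ?_, ?_⟩
  · have hcard : (Fintype.card α : ℝ) = n * ((m1 : ℝ) ^ (n - 2) * m0) := by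
      have : Fintype.card α = n * (m1 ^ (n - 2) * m0) := by
        simp only [α, Fintype.card_prod, Fintype.card_fin, Fintype.card_fun]
      rw [this]; push_cast; ring
    rw [hcard]
    calc (n : ℝ) * ((m1 : ℝ) ^ (n - 2) * m0)
        ≤ n * ((CV * R) ^ (n - 2) * (CV * (1 / η1))) := by
          refine mul_le_mul_of_nonneg_left ?_ hn0.le
          exact mul_le_mul (pow_le_pow_left₀ (Nat.cast_nonneg _) hm1 _) hm0 (Nat.cast_nonneg _)
            (by positivity)
      _ = (n * CV ^ (n - 2) * (CV / η1)) * R ^ (n - 2) := by rw [mul_pow]; ring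
      _ ≤ C * R ^ (n - 2) := by
          refine mul_le_mul_of_nonneg_right ?_ (by positivity)
          rw [hC]; linarith
  · intro z z' hz hz' hqq
    have hlab : lab z = lab z' := (Fintype.equivFin α).injective hqq
    have hk1 : kk z = kk z' := congrArg (fun a => a.1) hlab
    have hk2 : ∀ t, q1 (z (e (kk z) t)) = q1 (z' (e (kk z) t)) := by
      intro t
      have := congrFun (congrArg (fun a => a.2.1) hlab) t
      simp only [lab] at this
      rw [← hk1] at this
      exact this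
    have hk3 : q0 (z (kk z)) = q0 (z' (kk z)) := by
      have := congrArg (fun a => a.2.2) hlab
      simp only [lab] at this
      rw [← hk1] at this
      exact this
    set k := kk z with hkdef
    obtain ⟨hki, hkc⟩ := hkk z hz
    rw [← hkdef] at hki hkc
    have hz1 : ∀ l, ‖z l‖ ≤ 1 := fun l => (norm_le_pi_norm z l).trans hz.1.le
    have hz1' : ∀ l, ‖z' l‖ ≤ 1 := fun l => (norm_le_pi_norm z' l).trans hz'.1.le
    have hR1 : 0 ≤ 1 / R := by positivity
    set v : Fin n → K := z' - z with hv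
    have hvl : ∀ l, l ≠ k → ‖v l‖ ≤ 1 / R := by
      intro l hl
      by_cases hli : l = i
      · have : v l = 0 := by rw [hv, Pi.sub_apply, hli, hz.2.1, hz'.2.1, sub_self]
        rw [this, norm_zero]; exact hR1
      · obtain ⟨t, ht⟩ := he k hki l hli hl
        have := hk2 t
        rw [ht] at this
        have h1 := hq1 (z l) (z' l) (hz1 l) (hz1' l) this
        rw [hv, Pi.sub_apply, norm_sub_rev]
        exact h1
    set t : ℝ := ‖v k‖ with ht
    have ht0 : 0 ≤ t := norm_nonneg _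
    have htη : t ≤ η1 := by
      have := hq0 (z k) (z' k) (hz1 k) (hz1' k) hk3
      rw [ht, hv, Pi.sub_apply, norm_sub_rev]
      exact this
    have hvn : ‖v‖ ≤ 1 / R + t := by
      rw [pi_norm_le_iff_of_nonneg (by positivity)]
      intro l
      by_cases hl : l = k
      · rw [hl]; linarith
      · have := hvl l hl; linarith
    obtain ⟨h1, -, -⟩ := htay j z z' hz.1.le hz'.1.le
    rw [← hv] at h1
    have hF1 : ‖aeval z (F j)‖ ≤ A * Q / R := (hz.2.2 j).trans hAe
    have hF2 : ‖aeval z' (F j)‖ ≤ A * Q / R := (hz'.2.2 j).trans hAe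
    have hlin : ‖lin (F j) z v‖ ≤ Ct * ‖v‖ ^ 2 + 2 * (A * Q / R) := by
      have e1 : lin (F j) z v = aeval z' (F j) - aeval z (F j) -
          (aeval z' (F j) - aeval z (F j) - lin (F j) z v) := by ring
      rw [e1]
      refine (norm_sub_le _ _).trans ?_
      have h6 := norm_sub_le (aeval z' (F j)) (aeval z (F j))
      linarith
    have hsplit : lin (F j) z v = aeval z (pderiv k (F j)) * v k +
        ∑ l ∈ Finset.univ.erase k, aeval z (pderiv l (F j)) * v l := by
      unfold lin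
      exact (Finset.add_sum_erase _ (fun l => aeval z (pderiv l (F j)) * v l)
        (Finset.mem_univ k)).symm
    have hrest : ‖∑ l ∈ Finset.univ.erase k, aeval z (pderiv l (F j)) * v l‖ ≤ n * Cg * (1 / R) := by
      refine (norm_sum_le _ _).trans ?_
      calc ∑ l ∈ Finset.univ.erase k, ‖aeval z (pderiv l (F j)) * v l‖
          ≤ ∑ l ∈ Finset.univ.erase k, Cg * (1 / R) := by
            refine Finset.sum_le_sum fun l hl => ?_
            rw [norm_mul]
            exact mul_le_mul (hgr (j, l) z z hz.1.le hz.1.le).2.2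
              (hvl l (Finset.ne_of_mem_erase hl)) (norm_nonneg _) (by linarith)
        _ ≤ n * Cg * (1 / R) := by
            rw [Finset.sum_const, nsmul_eq_mul, mul_assoc]
            refine mul_le_mul_of_nonneg_right ?_ (by positivity)
            have := Finset.card_le_univ (Finset.univ.erase k)
            rw [Fintype.card_fin] at this
            exact_mod_cast this
    have hmain : c2 * t ≤ Ct * ‖v‖ ^ 2 + 2 * (A * Q / R) + n * Cg * (1 / R) := by
      have e1 : aeval z (pderiv k (F j)) * v k = lin (F j) z v -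
          ∑ l ∈ Finset.univ.erase k, aeval z (pderiv l (F j)) * v l := by
        rw [hsplit]; ring
      have h2 : c2 * t ≤ ‖aeval z (pderiv k (F j)) * v k‖ := by
        rw [norm_mul]
        exact mul_le_mul_of_nonneg_right hkc ht0
      rw [e1] at h2
      refine h2.trans ((norm_sub_le _ _).trans ?_)
      linarith
    have hsq : ‖v‖ ^ 2 ≤ 2 * (1 / R) + 2 * η1 * t := by
      have h2 : ‖v‖ ^ 2 ≤ (1 / R + t) ^ 2 := pow_le_pow_left₀ (norm_nonneg _) hvn 2
      have h3 : 1 / R ≤ 1 := by rw [div_le_one hR0]; exact hR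
      have a1 : (1 / R) * (1 / R) ≤ 1 / R * 1 := mul_le_mul_of_nonneg_left h3 hR1
      have a2 : t * t ≤ η1 * t := mul_le_mul_of_nonneg_right htη ht0
      have a3 := sq_nonneg (1 / R - t)
      linarith
    have hη1c : 2 * Ct * η1 ≤ c2 / 2 := by
      have : η1 ≤ c2 / (4 * Ct) := min_le_right _ _
      rw [le_div_iff₀ (by positivity)] at this
      linarith
    have hfin : c2 * t ≤ C3 * (1 / R) + c2 / 2 * t := by
      have e2 : 2 * (A * Q / R) = 2 * (A * Q) * (1 / R) := by ring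
      have h2 : Ct * ‖v‖ ^ 2 ≤ Ct * (2 * (1 / R) + 2 * η1 * t) :=
        mul_le_mul_of_nonneg_left hsq (by linarith)
      have h3 : 2 * Ct * η1 * t ≤ c2 / 2 * t := mul_le_mul_of_nonneg_right hη1c ht0
      rw [e2] at hmain
      rw [hC3]
      linarith
    have ht2 : t ≤ 2 * C3 / c2 * (1 / R) := by
      have : c2 * t ≤ 2 * C3 * (1 / R) := by linarith
      have e3 : 2 * C3 / c2 * (1 / R) = (2 * C3 * (1 / R)) / c2 := by ring
      rw [e3, le_div_iff₀ hc20]
      linarith
    rw [norm_sub_rev, ← hv]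
    refine hvn.trans ?_
    have e4 : C / R = C * (1 / R) := by ring
    rw [e4]
    have h5 : 1 / R + 2 * C3 / c2 * (1 / R) ≤ C * (1 / R) := by
      have : (1 + 2 * C3 / c2) * (1 / R) ≤ C * (1 / R) := by
        refine mul_le_mul_of_nonneg_right ?_ hR1
        rw [hC]; linarith
      linarith
    linarith

end Pool.Agent.W225.V
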