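import Mathlib
import Pool.Agent.W225.V.Line

set_option autoImplicit false

/-!
Counting the integral points of a hyperplane at which a form is small.
-/

namespace Pool.Agent.W225.V

open Pool.Agent.H951R3.W

lemma eval_smul_hom {R : Type} [CommRing R] {n d : ℕ} (F : MvPolynomial (Fin n) R)
    (hF : F.IsHomogeneous d) (c : R) (x : Fin n → R) :
    MvPolynomial.eval (fun i => c * x i) F = c ^ d * MvPolynomial.eval x F := by
  classical
  rw [MvPolynomial.eval_eq', MvPolynomial.eval_eq', Finset.mul_sum]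
  refine Finset.sum_congr rfl fun m hm => ?_
  have hdeg : ∑ i, m i = d := by
    have h1 := hF (MvPolynomial.mem_support_iff.mp hm)
    rw [← h1]
    simp [Finsupp.weight, Finsupp.linearCombination, Finsupp.sum_fintype]
  have : ∏ i, (c * x i) ^ m i = c ^ d * ∏ i, x i ^ m i := by
    simp only [mul_pow]
    rw [Finset.prod_mul_distrib, Finset.prod_pow_eq_pow_sum, hdeg]
  rw [this]
  ring

/-- a small direction in a hyperplane off the zero set of the form -/
lemma exists_dir_hyper {N d : ℕ} (F : MvPolynomial (Fin (N + 1)) ℤ) (hF : F.IsHomogeneous d)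
    (w : Fin (N + 1) → ℤ) (hw : w ≠ 0) {h : ℝ} (hh : ∀ i, |(w i : ℝ)| ≤ h) (x : Fin (N + 1) → ℤ)
    (hx : ∑ k, w k * x k = 0) (hFx : MvPolynomial.eval x F ≠ 0) :
    ∃ u : Fin (N + 1) → ℤ, ∑ k, w k * u k = 0 ∧ MvPolynomial.eval u F ≠ 0 ∧
      ∀ i, |(u i : ℝ)| ≤ (N + 1) * d * h := by
  classical
  obtain ⟨j0, hj0⟩ : ∃ j0, w j0 ≠ 0 := by
    by_contra hcon
    push Not at hcon
    exact hw (funext hcon)
  have hh0 : 0 ≤ h := (abs_nonneg _).trans (hh j0)
  let Up : Fin (N + 1) → MvPolynomial (Fin (N + 1)) ℤ := fun l =>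
    if l = j0 then -∑ k ∈ Finset.univ.erase j0, MvPolynomial.C (w k) * MvPolynomial.X k
    else MvPolynomial.C (w j0) * MvPolynomial.X l
  have hUph : ∀ l, (Up l).IsHomogeneous 1 := by
    intro l
    by_cases hl : l = j0
    · simp only [Up, if_pos hl]
      refine MvPolynomial.IsHomogeneous.neg ?_
      refine MvPolynomial.IsHomogeneous.sum _ _ _ fun k _ => ?_
      exact MvPolynomial.isHomogeneous_C_mul_X _ _
    · simp only [Up, if_neg hl]
      exact MvPolynomial.isHomogeneous_C_mul_X _ _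
  have hUe : ∀ (c : Fin (N + 1) → ℤ) l, MvPolynomial.eval c (Up l) =
      if l = j0 then -∑ k ∈ Finset.univ.erase j0, w k * c k else w j0 * c l := by
    intro c l
    by_cases hl : l = j0
    · simp only [Up, if_pos hl]
      simp
    · simp only [Up, if_neg hl]
      simp
  set G : MvPolynomial (Fin (N + 1)) ℤ := MvPolynomial.aeval Up F with hG
  have hGh : G.IsHomogeneous d := by
    have := hF.aeval Up hUph
    rwa [one_mul] at this
  have hGe : ∀ c, MvPolynomial.eval c G =
      MvPolynomial.eval (fun l => MvPolynomial.eval c (Up l)) F := by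
    intro c
    rw [hG, MvPolynomial.aeval_def, MvPolynomial.eval_eval₂]
    rw [← MvPolynomial.eval₂_id]
    congr 1
    ext a
    simp
  have hGx : MvPolynomial.eval x G ≠ 0 := by
    have h1 : (fun l => MvPolynomial.eval x (Up l)) = fun l => w j0 * x l := by
      funext l
      rw [hUe]
      by_cases hl : l = j0
      · rw [if_pos hl, hl]
        rw [← Finset.add_sum_erase _ _ (Finset.mem_univ j0)] at hx
        linarith
      · rw [if_neg hl]
    rw [hGe, h1, eval_smul_hom F hF]
    exact mul_ne_zero (pow_ne_zero _ hj0) hFx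
  have hG0 : G ≠ 0 := by
    intro h0
    rw [h0] at hGx
    simp at hGx
  obtain ⟨c, hc, hGc⟩ : ∃ c : Fin (N + 1) → ℤ,
      (∀ i, c i ∈ (Finset.range (d + 1)).image (fun m : ℕ => (m : ℤ))) ∧
        MvPolynomial.eval c G ≠ 0 := by
    by_contra hcon
    push Not at hcon
    refine hG0 (MvPolynomial.eq_zero_of_eval_zero_at_prod_finset G
      (fun _ => (Finset.range (d + 1)).image (fun m : ℕ => (m : ℤ))) (fun i => ?_) hcon)
    rw [Finset.card_image_of_injective _ Nat.cast_injective, Finset.card_range]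
    have h1 := MvPolynomial.degreeOf_le_totalDegree G i
    have h2 := hGh.totalDegree_le
    omega
  have hcb : ∀ i, |(c i : ℝ)| ≤ d := by
    intro i
    obtain ⟨m, hm, hmc⟩ := Finset.mem_image.1 (hc i)
    rw [← hmc]
    rw [Finset.mem_range] at hm
    have : m ≤ d := by omega
    push_cast
    rw [abs_of_nonneg (Nat.cast_nonneg _)]
    exact_mod_cast this
  refine ⟨fun l => MvPolynomial.eval c (Up l), ?_, ?_, ?_⟩
  · rw [← Finset.add_sum_erase _ _ (Finset.mem_univ j0)]
    simp only [hUe, if_true]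
    have : ∀ k ∈ Finset.univ.erase j0, w k * (if k = j0 then
        -∑ k ∈ Finset.univ.erase j0, w k * c k else w j0 * c k) = w j0 * (w k * c k) := by
      intro k hk
      rw [if_neg (Finset.ne_of_mem_erase hk)]
      ring
    rw [Finset.sum_congr rfl this, ← Finset.mul_sum]
    ring
  · rw [← hGe]
    exact hGc
  · intro i
    have hN : (0 : ℝ) ≤ N := Nat.cast_nonneg _
    have hd0 : (0 : ℝ) ≤ d := Nat.cast_nonneg _
    beta_reduce
    rw [hUe]
    by_cases hi : i = j0
    · rw [if_pos hi]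
      push_cast
      rw [abs_neg]
      refine (Finset.abs_sum_le_sum_abs _ _).trans ?_
      calc ∑ k ∈ Finset.univ.erase j0, |(w k : ℝ) * c k|
          ≤ ∑ k ∈ Finset.univ.erase j0, h * d := by
            refine Finset.sum_le_sum fun k _ => ?_
            rw [abs_mul]
            exact mul_le_mul (hh k) (hcb k) (abs_nonneg _) hh0
        _ ≤ (N + 1) * d * h := by
            rw [Finset.sum_const, nsmul_eq_mul, Finset.card_erase_of_mem (Finset.mem_univ _),
              Finset.card_univ, Fintype.card_fin]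
            have : ((N + 1 - 1 : ℕ) : ℝ) = N := by norm_num
            rw [this]
            nlinarith [mul_nonneg hh0 hd0]
    · rw [if_neg hi]
      push_cast
      rw [abs_mul]
      calc |(w j0 : ℝ)| * |(c i : ℝ)| ≤ h * d := mul_le_mul (hh j0) (hcb i) (abs_nonneg _) hh0
        _ ≤ (N + 1) * d * h := by nlinarith [mul_nonneg hh0 hd0, mul_nonneg hN (mul_nonneg hh0 hd0)]

theorem hyper_count {N : ℕ} (hN : 1 ≤ N) (F : MvPolynomial (Fin (N + 1)) ℤ) {d : ℕ} (hd : 1 ≤ d)
    (hF : F.IsHomogeneous d) (S : Finset ℕ) (hS : ∀ p ∈ S, p.Prime) {K0 τ δ : ℝ} (hK0 : 0 < K0)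
    (hτ : 0 ≤ τ) (hδ : 0 < δ) :
    ∃ C : ℝ, 0 < C ∧ ∀ B : ℝ, 1 ≤ B → ∀ h : ℝ, h ≤ B → ∀ w : Fin (N + 1) → ℤ, w ≠ 0 →
      (∀ i, |(w i : ℝ)| ≤ h) → ∀ X : Finset (Fin (N + 1) → ℤ),
      (∀ x ∈ X, ∑ k, w k * x k = 0 ∧ (∀ i, |(x i : ℝ)| ≤ B) ∧ MvPolynomial.eval x F ≠ 0 ∧
        |((MvPolynomial.eval x F : ℤ) : ℝ)| *
          ∏ p ∈ S, (padicNorm p ((MvPolynomial.eval x F : ℤ) : ℚ) : ℝ) ≤ K0 * B ^ τ) →
      (X.card : ℝ) ≤ C * (h * B ^ (((N : ℝ) - 1) + τ / d + δ)) := by
  classical
  obtain ⟨A, hA1, hA⟩ := eval_bound F hF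
  obtain ⟨C1, hC1, hline⟩ := line_count S hS hd
  have hdR : (0 : ℝ) < d := by exact_mod_cast hd
  set s : ℕ := S.card with hs
  set ε : ℝ := δ / (d * (s + 1)) with hε
  have hε0 : 0 < ε := by positivity
  obtain ⟨C2, hC2, hlog⟩ := log_pow_le s hε0
  set W : ℝ := (N + 1) * d with hW
  have hW0 : 0 < W := by positivity
  set CY : ℝ := W * (2 * (2 + W) + 1) ^ (N - 1) with hCY
  set C3 : ℝ := C1 * (C2 * A ^ (ε * s)) * (1 + K0 ^ ((1 : ℝ) / d)) with hC3
  have hA0 : 0 < A := by linarith
  refine ⟨CY * C3, by positivity, fun B hB h hhB w hw hwh X hX => ?_⟩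
  have hB0 : 0 < B := by linarith
  have hh0 : 0 ≤ h := (abs_nonneg _).trans (hwh 0)
  rcases X.eq_empty_or_nonempty with hXe | ⟨x0, hx0⟩
  · rw [hXe, Finset.card_empty, Nat.cast_zero]
    positivity
  obtain ⟨u, huw, huF, hub⟩ := exists_dir_hyper F hF w hw hwh x0 (hX x0 hx0).1 (hX x0 hx0).2.2.1
  -- the largest coordinate of the direction
  obtain ⟨m, -, hm⟩ := Finset.exists_max_image (Finset.univ : Finset (Fin (N + 1)))
    (fun i => |u i|) ⟨0, Finset.mem_univ _⟩
  have hm' : ∀ i, |u i| ≤ |u m| := fun i => hm i (Finset.mem_univ _)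
  have hum : u m ≠ 0 := by
    intro h0
    apply huF
    have hu0 : u = 0 := by
      funext i
      have := hm' i
      rw [h0, abs_zero] at this
      exact abs_eq_zero.1 (le_antisymm this (abs_nonneg _))
    rw [hu0, MvPolynomial.eval_zero, MvPolynomial.constantCoeff_eq]
    refine hF.coeff_eq_zero ?_
    simp
    omega
  obtain ⟨j, hjm, hwj⟩ : ∃ j, j ≠ m ∧ w j ≠ 0 := by
    by_contra hcon
    push Not at hcon
    apply hw
    have h1 : w m = 0 := by
      rw [← Finset.add_sum_erase _ _ (Finset.mem_univ m),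
        Finset.sum_eq_zero (s := Finset.univ.erase m) (fun k hk => by
          rw [hcon k (Finset.ne_of_mem_erase hk), zero_mul]), add_zero] at huw
      rcases mul_eq_zero.1 huw with h | h
      · exact h
      · exact absurd h hum
    funext i
    by_cases hi : i = m
    · rw [hi]; exact h1
    · exact hcon i hi
  set w0 : ℕ := (u m).natAbs with hw0
  have hw0pos : 0 < w0 := Int.natAbs_pos.mpr hum
  have hw0R : (w0 : ℝ) = |(u m : ℝ)| := by
    rw [hw0, Nat.cast_natAbs]
    push_cast
    rfl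
  have hw0h : (w0 : ℝ) ≤ W * h := by
    rw [hw0R]
    exact hub m
  have hui : ∀ i, |(u i : ℝ)| ≤ w0 := by
    intro i
    rw [hw0R]
    exact_mod_cast hm' i
  set a : ℤ := MvPolynomial.eval u F with ha
  -- the decomposition
  set tv : (Fin (N + 1) → ℤ) → ℤ := fun x => x m / u m with htv
  set yv : (Fin (N + 1) → ℤ) → (Fin (N + 1) → ℤ) := fun x i => x i - tv x * u i with hyv
  set R : ℤ := ⌊(2 + W) * B⌋ with hR
  set Y : Finset (Fin (N + 1) → ℤ) :=
    Fintype.piFinset (fun i => if i = m then Finset.Ico (0 : ℤ) w0 else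
      if i = j then {0} else Finset.Icc (-R) R) with hY
  set lab : (Fin (N + 1) → ℤ) → (Fin (N + 1) → ℤ) := fun x => Function.update (yv x) j 0 with hlab
  have hmaps : ∀ x ∈ X, lab x ∈ Y := by
    intro x hx
    rw [hY, Fintype.mem_piFinset]
    intro i
    have hxB := (hX x hx).2.1
    split_ifs with hi hij
    · subst hi
      have h1 : lab x i = x i % u i := by
        rw [hlab]
        simp only
        rw [Function.update_of_ne (Ne.symm hjm), hyv]
        simp only [htv]
        rw [Int.emod_def, mul_comm]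
      rw [h1, Finset.mem_Ico]
      refine ⟨Int.emod_nonneg _ hum, ?_⟩
      have := Int.emod_lt_abs (x i) hum
      rw [hw0]
      simpa using this
    · rw [hij, hlab]
      simp
    · have h1 : lab x i = yv x i := by
        rw [hlab]
        simp only
        rw [Function.update_of_ne hij]
      rw [h1]
      have h2 : |((tv x : ℤ) : ℝ)| * w0 ≤ B + w0 := by
        have h3 : |tv x| * w0 ≤ |x m| + w0 := by
          have h4 : tv x * u m = x m - x m % u m := by
            have := Int.emod_add_mul_ediv (x m) (u m)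
            simp only [htv]
            linarith [mul_comm (u m) (x m / u m)]
          have h5 : |tv x| * |u m| = |x m - x m % u m| := by rw [← abs_mul, h4]
          have h6 : ((w0 : ℕ) : ℤ) = |u m| := by rw [hw0]; simp
          have h7 := Int.emod_nonneg (x m) hum
          have h8 := Int.emod_lt_abs (x m) hum
          rw [h6, h5]
          calc |x m - x m % u m| ≤ |x m| + |x m % u m| := abs_sub _ _
            _ ≤ |x m| + |u m| := by rw [abs_of_nonneg h7]; linarith
        have h9 : |((tv x : ℤ) : ℝ)| * w0 ≤ |(x m : ℝ)| + w0 := by exact_mod_cast h3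
        have h11 := hxB m
        linarith
      have h13 : |((yv x i : ℤ) : ℝ)| ≤ (2 + W) * B := by
        have h14 : ((yv x i : ℤ) : ℝ) = (x i : ℝ) - (tv x : ℝ) * (u i : ℝ) := by
          rw [hyv]; push_cast; ring
        rw [h14]
        calc |(x i : ℝ) - (tv x : ℝ) * (u i : ℝ)| ≤ |(x i : ℝ)| + |(tv x : ℝ) * (u i : ℝ)| :=
              abs_sub _ _
          _ ≤ B + (B + w0) := by
              rw [abs_mul]
              refine add_le_add (hxB i) ?_
              exact (mul_le_mul_of_nonneg_left (hui i) (abs_nonneg _)).trans h2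
          _ ≤ (2 + W) * B := by
              have : W * h ≤ W * B := mul_le_mul_of_nonneg_left hhB hW0.le
              linarith
      rw [Finset.mem_Icc, ← abs_le, hR, Int.le_floor]
      push_cast at h13 ⊢
      exact h13
  have hYcard : (Y.card : ℝ) ≤ (CY * h) * B ^ (N - 1) := by
    have h1 : Y.card = w0 * (2 * R + 1).toNat ^ (N - 1) := by
      rw [hY, Fintype.card_piFinset, ← Finset.mul_prod_erase Finset.univ _ (Finset.mem_univ m)]
      rw [if_pos rfl, Int.card_Ico]
      have e1 : ((w0 : ℤ) - 0).toNat = w0 := by simp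
      rw [e1]
      congr 1
      rw [← Finset.mul_prod_erase (Finset.univ.erase m) _
        (Finset.mem_erase.2 ⟨hjm, Finset.mem_univ j⟩), if_neg hjm, if_pos rfl,
        Finset.card_singleton, one_mul]
      rw [Finset.prod_congr rfl (g := fun _ => (2 * R + 1).toNat)]
      · rw [Finset.prod_const, Finset.card_erase_of_mem (Finset.mem_erase.2 ⟨hjm, Finset.mem_univ j⟩),
          Finset.card_erase_of_mem (Finset.mem_univ _), Finset.card_univ, Fintype.card_fin]
        rfl
      · intro i hi
        rw [if_neg (Finset.ne_of_mem_erase (Finset.mem_of_mem_erase hi)),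
          if_neg (Finset.ne_of_mem_erase hi), Int.card_Icc]
        congr 1
        ring
    have hR0 : 0 ≤ R := Int.floor_nonneg.mpr (by positivity)
    have h2 : (((2 * R + 1).toNat : ℕ) : ℝ) ≤ (2 * (2 + W) + 1) * B := by
      have h3 : (((2 * R + 1).toNat : ℕ) : ℝ) = 2 * (R : ℝ) + 1 := by
        have : (((2 * R + 1).toNat : ℕ) : ℤ) = 2 * R + 1 := Int.toNat_of_nonneg (by omega)
        exact_mod_cast this
      rw [h3]
      have h4 : (R : ℝ) ≤ (2 + W) * B := Int.floor_le _
      nlinarith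
    rw [h1]
    push_cast
    calc (w0 : ℝ) * (((2 * R + 1).toNat : ℕ) : ℝ) ^ (N - 1)
        ≤ (W * h) * ((2 * (2 + W) + 1) * B) ^ (N - 1) := by
          refine mul_le_mul hw0h ?_ (by positivity) (by positivity)
          exact pow_le_pow_left₀ (by positivity) h2 _
      _ = (CY * h) * B ^ (N - 1) := by rw [hCY, mul_pow]; ring
  -- fibres
  set T : ℝ := K0 * B ^ τ with hT
  have hT0 : 0 ≤ T := by positivity
  set V : ℕ := Nat.log 2 ⌊A * B ^ d⌋₊ with hV
  set Mr : ℝ := C1 * (2 * V + 1) ^ s * (1 + T ^ ((1 : ℝ) / d)) with hMr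
  have hMr0 : 0 ≤ Mr := by positivity
  have hfib : ∀ y ∈ Y, (X.filter (fun x => lab x = y)).card ≤ ⌊Mr⌋₊ := by
    intro y' _
    refine Nat.le_floor ?_
    rcases (X.filter (fun x => lab x = y')).eq_empty_or_nonempty with h0 | ⟨x1, hx1⟩
    · rw [h0, Finset.card_empty, Nat.cast_zero]
      exact hMr0
    set y := yv x1 with hy
    set Φ := X.filter (fun x => lab x = y') with hΦ
    have hyvw : ∀ x ∈ X, ∑ k, w k * yv x k = 0 := by
      intro x hx
      have h1 : ∑ k, w k * yv x k = ∑ k, w k * x k - tv x * ∑ k, w k * u k := by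
        rw [Finset.mul_sum, ← Finset.sum_sub_distrib]
        refine Finset.sum_congr rfl fun k _ => ?_
        rw [hyv]; ring
      rw [h1, huw, (hX x hx).1]
      ring
    have hyeq : ∀ x ∈ Φ, yv x = y := by
      intro x hx
      have hl : lab x = lab x1 :=
        (Finset.mem_filter.mp hx).2.trans (Finset.mem_filter.mp hx1).2.symm
      have hoff : ∀ i, i ≠ j → yv x i = y i := by
        intro i hi
        have := congrFun hl i
        rw [hlab] at this
        simp only at this
        rwa [Function.update_of_ne hi, Function.update_of_ne hi] at this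
      have hj1 : yv x j = y j := by
        have e1 := hyvw x (Finset.mem_filter.mp hx).1
        have e2 := hyvw x1 (Finset.mem_filter.mp hx1).1
        rw [← Finset.add_sum_erase _ _ (Finset.mem_univ j)] at e1 e2
        have e3 : ∑ k ∈ Finset.univ.erase j, w k * yv x k =
            ∑ k ∈ Finset.univ.erase j, w k * yv x1 k :=
          Finset.sum_congr rfl fun k hk => by rw [hoff k (Finset.ne_of_mem_erase hk), hy]
        rw [e3] at e1
        have e4 : w j * (yv x j - yv x1 j) = 0 := by linarith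
        rcases mul_eq_zero.1 e4 with h | h
        · exact absurd h hwj
        · rw [hy]; linarith
      funext i
      by_cases hi : i = j
      · rw [hi]; exact hj1
      · exact hoff i hi
    have hxt : ∀ x ∈ Φ, ∀ i, x i = y i + tv x * u i := by
      intro x hx i
      rw [← hyeq x hx, hyv]
      ring
    have hinj : Set.InjOn tv (Φ : Set (Fin (N + 1) → ℤ)) := by
      intro x hx x' hx' h
      funext i
      rw [hxt x hx i, hxt x' hx' i, h]
    set 𝒯 := Φ.image tv with h𝒯
    have hcard : 𝒯.card = Φ.card := Finset.card_image_of_injOn hinj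
    rw [← hcard]
    set FQ := MvPolynomial.map (Int.castRingHom ℚ) F with hFQ
    have hFQh : FQ.IsHomogeneous d := hF.map _
    set f : Polynomial ℚ := lineP FQ (fun i => (y i : ℚ)) (fun i => (u i : ℚ)) with hf
    obtain ⟨hdeg, hcoef⟩ := lineP_degree FQ hFQh (fun i => (y i : ℚ)) (fun i => (u i : ℚ))
    rw [eval_cast] at hcoef
    have hdeg' : f.natDegree = d := by
      refine le_antisymm hdeg ?_
      refine Polynomial.le_natDegree_of_ne_zero ?_
      rw [hcoef]
      exact_mod_cast huF
    have hlead : f.leadingCoeff = (a : ℚ) := by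
      rw [Polynomial.leadingCoeff, hdeg', hcoef]
    have hev : ∀ x ∈ Φ, f.eval (tv x : ℚ) = ((MvPolynomial.eval x F : ℤ) : ℚ) := by
      intro x hx
      rw [hf, eval_lineP, ← eval_cast]
      congr 2
      funext i
      rw [hxt x hx i]
      push_cast
      ring
    refine hline a huF f hdeg' hlead T V hT0 𝒯 ?_ ?_ ?_
    · intro t ht
      obtain ⟨x, hx, rfl⟩ := Finset.mem_image.mp ht
      rw [hev x hx]
      exact_mod_cast (hX x (Finset.mem_filter.mp hx).1).2.2.1
    · intro t ht
      obtain ⟨x, hx, rfl⟩ := Finset.mem_image.mp ht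
      rw [hev x hx]
      have := (hX x (Finset.mem_filter.mp hx).1).2.2.2
      push_cast at this ⊢
      exact this
    · intro t ht p hp
      obtain ⟨x, hx, rfl⟩ := Finset.mem_image.mp ht
      rw [hev x hx]
      have hxX := hX x (Finset.mem_filter.mp hx).1
      exact_mod_cast val_le p (hS p hp) _ hxX.2.2.1 (hA B hB x hxX.2.1)
  have hcount := Finset.card_le_mul_card_image_of_maps_to (s := X) (t := Y) (f := lab) hmaps _ hfib
  have h1 : (X.card : ℝ) ≤ ⌊Mr⌋₊ * Y.card := by exact_mod_cast hcount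
  have h2 : (X.card : ℝ) ≤ Mr * ((CY * h) * B ^ (N - 1)) :=
    h1.trans (mul_le_mul (Nat.floor_le hMr0) hYcard (by positivity) hMr0)
  -- the size of `Mr`
  have h3 : ((2 : ℝ) * V + 1) ^ s ≤ (C2 * A ^ (ε * s)) * B ^ δ := by
    have hAB : 1 ≤ A * B ^ d := one_le_mul_of_one_le_of_one_le hA1 (one_le_pow₀ hB)
    have h4 := hlog (A * B ^ d) hAB
    refine h4.trans ?_
    rw [Real.mul_rpow hA0.le (by positivity), mul_assoc]
    refine mul_le_mul_of_nonneg_left ?_ hC2.le
    refine mul_le_mul_of_nonneg_left ?_ (by positivity)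
    rw [← Real.rpow_natCast B d, ← Real.rpow_mul hB0.le]
    refine Real.rpow_le_rpow_of_exponent_le hB ?_
    rw [hε]
    have h5 : (d : ℝ) * (δ / (d * (s + 1)) * s) = δ * (s / (s + 1)) := by
      field_simp
    rw [h5]
    have h6 : (s : ℝ) / (s + 1) ≤ 1 := by
      rw [div_le_one (by positivity)]
      linarith
    nlinarith
  have h7 : 1 + T ^ ((1 : ℝ) / d) ≤ (1 + K0 ^ ((1 : ℝ) / d)) * B ^ (τ / d) := by
    rw [hT, Real.mul_rpow hK0.le (by positivity), ← Real.rpow_mul hB0.le]
    have h8 : τ * (1 / (d : ℝ)) = τ / d := by ring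
    rw [h8]
    have h9 : (1 : ℝ) ≤ B ^ (τ / d) := Real.one_le_rpow hB (by positivity)
    linarith
  have h10 : Mr ≤ C3 * (B ^ δ * B ^ (τ / d)) := by
    rw [hMr, hC3]
    calc C1 * (2 * (V : ℝ) + 1) ^ s * (1 + T ^ ((1 : ℝ) / d))
        ≤ C1 * ((C2 * A ^ (ε * s)) * B ^ δ) * ((1 + K0 ^ ((1 : ℝ) / d)) * B ^ (τ / d)) := by
          refine mul_le_mul ?_ h7 (by positivity) (by positivity)
          exact mul_le_mul_of_nonneg_left h3 hC1.le
      _ = C1 * (C2 * A ^ (ε * s)) * (1 + K0 ^ ((1 : ℝ) / d)) * (B ^ δ * B ^ (τ / d)) := by ring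
  have hBN : B ^ ((N : ℝ) - 1) = B ^ (N - 1) := by
    have : (N : ℝ) - 1 = ((N - 1 : ℕ) : ℝ) := by
      rw [Nat.cast_sub hN, Nat.cast_one]
    rw [this, Real.rpow_natCast]
  calc (X.card : ℝ) ≤ Mr * ((CY * h) * B ^ (N - 1)) := h2
    _ ≤ (C3 * (B ^ δ * B ^ (τ / d))) * ((CY * h) * B ^ (N - 1)) :=
        mul_le_mul_of_nonneg_right h10 (by positivity)
    _ = CY * C3 * (h * B ^ (((N : ℝ) - 1) + τ / d + δ)) := by
        rw [Real.rpow_add hB0, Real.rpow_add hB0, hBN]
        ring

end Pool.Agent.W225.V
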