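import Mathlib
import Pool.Agent.W225.V.Cells

set_option autoImplicit false

/-!
The local input at one place, and the coverings of the unit balls of `ℝ` and `ℚ_p`.
-/

namespace Pool.Agent.W225.V

open MvPolynomial

variable {n : ℕ} {J : Type}

/-- normalised in the chart `i`, with prescribed closeness to the components -/
def Valid {K : Type} [NormedField K] (F : J → MvPolynomial (Fin n) ℤ) (A : ℝ) (i : Fin n)
    (ε : J → ℝ) (z : Fin n → K) : Prop :=
  ‖z‖ = 1 ∧ z i = 1 ∧ ∀ j, ‖aeval z (F j)‖ ≤ A * ε j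

lemma local_pack (K : Type) [NormedField K] [CharZero K] [ProperSpace K] (hcov : Cov K) [Fintype J]
    (hn : 2 ≤ n) (F : J → MvPolynomial (Fin n) ℤ) {d : J → ℕ}
    (hd : ∀ j, (F j).IsHomogeneous (d j)) (hF : IsSNC F) {A : ℝ} (hA : 1 ≤ A) :
    ∃ C : ℝ, 1 ≤ C ∧ ∀ R : ℝ, 1 ≤ R → ∀ ε : J → ℝ, (∀ j, 0 < ε j) → R ^ n * ∏ j, ε j ≤ 1 →
      ∀ i : Fin n, ∃ (m : ℕ) (q : (Fin n → K) → Fin m), (m : ℝ) ≤ C * R ^ (n - 2) ∧
        (∀ z z' : Fin n → K, Valid F A i ε z → Valid F A i ε z' → q z = q z' →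
          ‖z - z'‖ ≤ C / R) ∧
        (∀ z : Fin n → Fin n → K, (∀ l, Valid F A i ε (z l)) → (∀ l l', q (z l) = q (z l')) →
          ‖(Matrix.of z).det‖ ≤ C / R ^ n) := by
  obtain ⟨C1, hC1, h1⟩ := cells K hcov hn F hd hF hA
  have hA' : 1 ≤ max A C1 := le_max_of_le_left hA
  obtain ⟨C2, hC2, h2⟩ := det_local K (by omega) F hd hF hA'
  refine ⟨max C1 C2, le_max_of_le_left hC1, fun R hR ε hε hprod i => ?_⟩
  have hR0 : 0 < R := by linarith
  obtain ⟨m, q, hm, hq⟩ := h1 R hR ε hε hprod i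
  refine ⟨m, q, hm.trans ?_, fun z z' hz hz' hqq => (hq z z' hz hz' hqq).trans ?_,
    fun z hz hqq => (h2 R hR ε hε hprod z (fun l => (hz l).1) ?_ ?_).trans ?_⟩
  · exact mul_le_mul_of_nonneg_right (le_max_left _ _) (by positivity)
  · exact div_le_div_of_nonneg_right (le_max_left _ _) hR0.le
  · intro l l'
    refine (hq _ _ (hz l) (hz l') (hqq l l')).trans ?_
    exact div_le_div_of_nonneg_right (le_max_right _ _) hR0.le
  · intro l j
    refine ((hz l).2.2 j).trans ?_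
    exact mul_le_mul_of_nonneg_right (le_max_left _ _) (hε j).le
  · exact div_le_div_of_nonneg_right (le_max_right _ _) (by positivity)

lemma cov_real : Cov ℝ := by
  refine ⟨3, by norm_num, fun R hR => ?_⟩
  have hR0 : 0 < R := by linarith
  refine ⟨⌊2 * R⌋₊ + 1, fun a => ⟨min ⌊(a + 1) * R⌋₊ ⌊2 * R⌋₊, by omega⟩, ?_, ?_⟩
  · push_cast
    have := Nat.floor_le (show 0 ≤ 2 * R by positivity)
    linarith
  · intro a b ha hb hab
    rw [Real.norm_eq_abs, abs_le] at ha hb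
    have ha1 : ⌊(a + 1) * R⌋₊ ≤ ⌊2 * R⌋₊ := Nat.floor_le_floor (by nlinarith)
    have hb1 : ⌊(b + 1) * R⌋₊ ≤ ⌊2 * R⌋₊ := Nat.floor_le_floor (by nlinarith)
    have h := congrArg Fin.val hab
    simp only [min_eq_left ha1, min_eq_left hb1] at h
    have h1 := Nat.floor_le (show 0 ≤ (a + 1) * R by nlinarith)
    have h2 := Nat.lt_floor_add_one ((a + 1) * R)
    have h3 := Nat.floor_le (show 0 ≤ (b + 1) * R by nlinarith)
    have h4 := Nat.lt_floor_add_one ((b + 1) * R)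
    rw [h] at h1 h2
    rw [Real.norm_eq_abs, abs_le, ← neg_div, div_le_iff₀ hR0, le_div_iff₀ hR0]
    constructor <;> nlinarith

lemma cov_padic (p : ℕ) [hp : Fact p.Prime] : Cov ℚ_[p] := by
  have hp1 : (1 : ℝ) < p := by exact_mod_cast hp.1.one_lt
  refine ⟨p, hp1.le, fun R hR => ?_⟩
  have hR0 : 0 < R := by linarith
  obtain ⟨t, ht1, ht2⟩ := exists_nat_pow_near hR hp1
  have hne : NeZero (p ^ (t + 1)) := ⟨pow_ne_zero _ hp.1.ne_zero⟩
  classical
  let mk : (a : ℚ_[p]) → ‖a‖ ≤ 1 → ℤ_[p] := fun a h => ⟨a, h⟩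
  refine ⟨p ^ (t + 1), fun a => if h : ‖a‖ ≤ 1 then
    ⟨(PadicInt.toZModPow (t + 1) (mk a h)).val, ZMod.val_lt _⟩ else 0, ?_, ?_⟩
  · push_cast
    rw [pow_succ, mul_comm]
    exact mul_le_mul_of_nonneg_left ht1 (by linarith)
  · intro a b ha hb hab
    simp only [dif_pos ha, dif_pos hb] at hab
    have h := congrArg Fin.val hab
    simp only at h
    have h1 := ZMod.val_injective _ h
    have h2 : mk a ha - mk b hb ∈ RingHom.ker (PadicInt.toZModPow (p := p) (t + 1)) := by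
      rw [RingHom.mem_ker, map_sub, h1, sub_self]
    rw [PadicInt.ker_toZModPow, ← PadicInt.norm_le_pow_iff_mem_span_pow] at h2
    have h3 : ‖mk a ha - mk b hb‖ = ‖a - b‖ := rfl
    rw [h3] at h2
    refine h2.trans ?_
    rw [zpow_neg, zpow_natCast, ← one_div]
    exact one_div_le_one_div_of_le hR0 ht2.le

end Pool.Agent.W225.V
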