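import Mathlib

set_option autoImplicit false

/-!
Lattices generated by a finite set: counting, completion, multilinear maps.
-/

namespace Pool.Agent.W225.V

lemma multilinear_mem {ι M' : Type} [DecidableEq ι] [Fintype ι] [AddCommGroup M']
    (f : MultilinearMap ℤ (fun _ : ι => M') ℤ) (I : AddSubgroup ℤ) (Y : Set M')
    (h : ∀ u, (∀ i, u i ∈ Y) → f u ∈ I) (u : ι → M') (hu : ∀ i, u i ∈ Submodule.span ℤ Y) :
    f u ∈ I := by
  have key : ∀ s : Finset ι, ∀ u : ι → M', (∀ i ∈ s, u i ∈ Submodule.span ℤ Y) →
      (∀ i, i ∉ s → u i ∈ Y) → f u ∈ I := by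
    intro s
    induction s using Finset.induction_on with
    | empty => intro u _ hu; exact h u fun i => hu i (Finset.notMem_empty i)
    | insert a s ha ih =>
      intro u hu1 hu2
      have hx : ∀ x ∈ Submodule.span ℤ Y, f (Function.update u a x) ∈ I := by
        intro x hx
        induction hx using Submodule.span_induction with
        | mem x hx =>
          apply ih
          · intro i hi
            by_cases hia : i = a
            · exact absurd (hia ▸ hi) ha
            · rw [Function.update_of_ne hia]; exact hu1 i (Finset.mem_insert_of_mem hi)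
          · intro i hi
            by_cases hia : i = a
            · subst hia; rw [Function.update_self]; exact hx
            · rw [Function.update_of_ne hia]; exact hu2 i (by simp [hia, hi])
        | zero => rw [MultilinearMap.map_update_zero]; exact I.zero_mem
        | add x y _ _ hx hy => rw [MultilinearMap.map_update_add]; exact I.add_mem hx hy
        | smul c x _ hx =>
          rw [MultilinearMap.map_update_smul]; exact I.zsmul_mem hx c
      have := hx (u a) (hu1 a (Finset.mem_insert_self a s))
      rwa [Function.update_eq_self] at this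
  exact key Finset.univ u (fun i _ => hu i) fun i hi => absurd (Finset.mem_univ i) hi

/-- a finite set inside a parallelepiped spanned by members of the set -/
lemma card_le_det {r : ℕ} {M : Type} [AddCommGroup M] (b : Module.Basis (Fin r) ℤ M)
    (Y : Finset M) (v : Fin r → M) (hv : ∀ i, v i ∈ Y)
    (hmax : ∀ u : Fin r → M, (∀ i, u i ∈ Y) → |b.det u| ≤ |b.det v|) (hne : b.det v ≠ 0) :
    (Y.card : ℤ) ≤ 5 ^ r * |b.det v| := by
  classical
  have : Module.Free ℤ M := Module.Free.of_basis b
  have : Module.Finite ℤ M := Module.Finite.of_basis b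
  let c : Fin r → M →ₗ[ℤ] ℤ := fun i => b.det.toMultilinearMap.toLinearMap v i
  have hc : ∀ i x, c i x = b.det (Function.update v i x) := fun i x => rfl
  have hcv : ∀ i j, c i (v j) = if i = j then b.det v else 0 := by
    intro i j
    rw [hc]
    by_cases hij : i = j
    · subst hij
      rw [if_pos rfl, Function.update_eq_self]
    · rw [if_neg hij]
      exact AlternatingMap.map_update_self _ _ hij
  have hcs : ∀ (m : Fin r → ℤ) i, c i (∑ j, m j • v j) = m i * b.det v := by
    intro m i
    rw [map_sum]
    simp only [map_smul, hcv, smul_eq_mul, mul_ite, mul_zero]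
    rw [Finset.sum_ite_eq Finset.univ i]
    simp
  have hcY : ∀ i, ∀ y ∈ Y, |c i y| ≤ |b.det v| := by
    intro i y hy
    rw [hc]
    refine hmax _ fun k => ?_
    by_cases hk : k = i
    · subst hk; rw [Function.update_self]; exact hy
    · rw [Function.update_of_ne hk]; exact hv k
  have hli : LinearIndependent ℤ v := by
    rw [Fintype.linearIndependent_iff]
    intro g hg i
    have h1 := hcs g i
    rw [hg, map_zero] at h1
    rcases mul_eq_zero.1 h1.symm with h | h
    · exact h
    · exact absurd h hne
  let N : Submodule ℤ M := Submodule.span ℤ (Set.range v)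
  let bN : Module.Basis (Fin r) ℤ N := Module.Basis.span hli
  have hbN : ((↑) ∘ bN : Fin r → M) = v := by
    funext i
    exact congrArg Subtype.val (Module.Basis.span_apply hli i)
  have hcard := Submodule.natAbs_det_basis_change b N bN
  rw [hbN] at hcard
  have hfin : Finite (M ⧸ N) := by
    refine Nat.finite_of_card_ne_zero ?_
    rw [← hcard]
    exact Int.natAbs_ne_zero.2 hne
  have : Fintype (M ⧸ N) := Fintype.ofFinite _
  have hfib : ∀ a ∈ (Finset.univ : Finset (M ⧸ N)),
      (Y.filter (fun y => (Submodule.Quotient.mk y : M ⧸ N) = a)).card ≤ 5 ^ r := by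
    intro a _
    rcases (Y.filter (fun y => (Submodule.Quotient.mk y : M ⧸ N) = a)).eq_empty_or_nonempty with
      h0 | ⟨y0, hy0⟩
    · rw [h0, Finset.card_empty]; exact Nat.zero_le _
    have hm : ∀ y, ∃ m : Fin r → ℤ, y ∈ Y.filter (fun y => (Submodule.Quotient.mk y : M ⧸ N) = a) →
        (y = y0 + ∑ j, m j • v j ∧ ∀ j, m j ∈ Finset.Icc (-2 : ℤ) 2) := by
      intro y
      by_cases hy : y ∈ Y.filter (fun y => (Submodule.Quotient.mk y : M ⧸ N) = a)
      swap
      · exact ⟨0, fun h => absurd h hy⟩
      rw [Finset.mem_filter] at hy hy0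
      have h1 : y - y0 ∈ N := (Submodule.Quotient.eq N).1 (hy.2.trans hy0.2.symm)
      obtain ⟨m, hm⟩ := (Submodule.mem_span_range_iff_exists_fun ℤ).1 h1
      refine ⟨m, fun _ => ⟨?_, fun j => ?_⟩⟩
      · rw [hm]; abel
      · have h2 := hcs m j
        rw [hm, map_sub] at h2
        have h3 := hcY j y hy.1
        have h4 := hcY j y0 hy0.1
        have h5 : |m j| * |b.det v| ≤ 2 * |b.det v| := by
          rw [← abs_mul, ← h2]
          refine (abs_sub _ _).trans ?_
          linarith
        have h6 : |m j| ≤ 2 := le_of_mul_le_mul_right h5 (abs_pos.2 hne)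
        rw [Finset.mem_Icc]
        exact abs_le.1 h6
    choose m hm using hm
    have h7 : (Y.filter (fun y => (Submodule.Quotient.mk y : M ⧸ N) = a)).card ≤
        (Fintype.piFinset (fun _ : Fin r => Finset.Icc (-2 : ℤ) 2)).card := by
      refine Finset.card_le_card_of_injOn m ?_ ?_
      · intro y hy
        rw [Finset.mem_coe, Fintype.mem_piFinset]
        exact (hm y hy).2
      · intro y hy y' hy' h
        rw [(hm y hy).1, (hm y' hy').1, h]
    refine h7.trans (le_of_eq ?_)
    rw [Fintype.card_piFinset, Finset.prod_const, Finset.card_univ, Fintype.card_fin]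
    rfl
  have h8 := Finset.card_le_mul_card_image_of_maps_to (s := Y) (t := Finset.univ)
    (f := fun y => (Submodule.Quotient.mk y : M ⧸ N)) (fun _ _ => Finset.mem_univ _) _ hfib
  rw [Finset.card_univ, ← Nat.card_eq_fintype_card, ← hcard] at h8
  have h9 : (Y.card : ℤ) ≤ ((5 ^ r * (b.det v).natAbs : ℕ) : ℤ) := by exact_mod_cast h8
  rw [Nat.cast_mul, Int.natCast_natAbs] at h9
  push_cast at h9
  exact h9

/-- rows taken from `u` and from the standard basis -/
def mixM {n r : ℕ} {R : Type} [CommRing R] (f : Fin n → Fin r ⊕ Fin n) (u : Fin r → Fin n → R) :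
    Matrix (Fin n) (Fin n) R := fun k => match f k with
  | .inl j => u j
  | .inr m => Pi.single m 1

lemma mixM_inl {n r : ℕ} {R : Type} [CommRing R] {f : Fin n → Fin r ⊕ Fin n}
    (u : Fin r → Fin n → R) {k : Fin n} {j : Fin r} (h : f k = .inl j) : mixM f u k = u j := by
  unfold mixM
  simp only [h]

lemma mixM_inr {n r : ℕ} {R : Type} [CommRing R] {f : Fin n → Fin r ⊕ Fin n}
    (u : Fin r → Fin n → R) {k : Fin n} {m : Fin n} (h : f k = .inr m) :
    mixM f u k = Pi.single m 1 := by
  unfold mixM
  simp only [h]

lemma exists_completion_field {K : Type} [Field K] {n r : ℕ} (v : Fin r → Fin n → K)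
    (hli : LinearIndependent K v) :
    ∃ f : Fin n → Fin r ⊕ Fin n, Function.Injective f ∧ (∀ j, ∃ k, f k = .inl j) ∧
      (mixM f v).det ≠ 0 := by
  classical
  let w : Fin r ⊕ Fin n → (Fin n → K) := fun a => match a with
    | .inl j => v j
    | .inr m => Pi.single m 1
  have hs : LinearIndepOn K w (Set.range (Sum.inl : Fin r → Fin r ⊕ Fin n)) := by
    have h1 : LinearIndependent K (w ∘ Sum.inl) := hli
    exact (linearIndepOn_range_iff Sum.inl_injective w).2 h1
  obtain ⟨b, -, hb1, hb2, hb3⟩ := exists_linearIndepOn_extension hs (Set.subset_univ _)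
  have htop : Submodule.span K (w '' b) = ⊤ := by
    rw [eq_top_iff, ← (Pi.basisFun K (Fin n)).span_eq, Submodule.span_le]
    rintro _ ⟨k, rfl⟩
    apply hb2
    refine ⟨Sum.inr k, Set.mem_univ _, ?_⟩
    simp [w]
  have htop' : ⊤ ≤ Submodule.span K (Set.range fun a : b => w a) := by
    rw [← htop, Set.image_eq_range]
  let B : Module.Basis b K (Fin n → K) := Module.Basis.mk hb3 htop'
  have hbf : Finite b := inferInstance
  have : Fintype b := Fintype.ofFinite b
  have hcard : Fintype.card b = n := by
    have := Module.finrank_eq_card_basis B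
    rw [Module.finrank_fin_fun] at this
    exact this.symm
  let e : Fin n ≃ b := (Fintype.equivFinOfCardEq hcard).symm
  refine ⟨fun k => (e k).1, fun a b hab => e.injective (Subtype.ext hab), ?_, ?_⟩
  · intro j
    have : (Sum.inl j : Fin r ⊕ Fin n) ∈ b := hb1 ⟨j, rfl⟩
    refine ⟨e.symm ⟨_, this⟩, ?_⟩
    beta_reduce
    rw [Equiv.apply_symm_apply]
  · have h1 : LinearIndependent K (fun k => w (e k)) := hb3.comp e e.injective
    have h2 : LinearIndependent K (mixM (fun k => (e k).1) v).row := by
      have : (mixM (fun k => (e k).1) v).row = fun k => w (e k) := by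
        funext k
        change mixM (fun k => (e k).1) v k = w (e k)
        rcases hek : (e k).1 with j | m
        · rw [mixM_inl v hek]
        · rw [mixM_inr v hek]
      rw [this]
      exact h1
    rw [Matrix.linearIndependent_rows_iff_isUnit] at h2
    exact (Matrix.isUnit_iff_isUnit_det _).1 h2 |>.ne_zero

lemma exists_completion {n r : ℕ} (v : Fin r → Fin n → ℤ) (hli : LinearIndependent ℤ v) :
    ∃ f : Fin n → Fin r ⊕ Fin n, Function.Injective f ∧ (∀ j, ∃ k, f k = .inl j) ∧
      (mixM f v).det ≠ 0 := by
  let φ : (Fin n → ℤ) →ₗ[ℤ] (Fin n → ℚ) :=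
    { toFun := fun x i => (x i : ℚ)
      map_add' := fun x y => by funext i; simp
      map_smul' := fun c x => by funext i; simp }
  have hφ : LinearMap.ker φ = ⊥ := by
    rw [LinearMap.ker_eq_bot]
    intro x y h
    funext i
    have := congrFun h i
    exact Int.cast_injective (α := ℚ) this
  have h1 : LinearIndependent ℤ (φ ∘ v) := hli.map' φ hφ
  have h2 : LinearIndependent ℚ (φ ∘ v) := (LinearIndependent.iff_fractionRing ℤ ℚ).1 h1
  obtain ⟨f, hf1, hf2, hf3⟩ := exists_completion_field (φ ∘ v) h2
  refine ⟨f, hf1, hf2, fun h0 => hf3 ?_⟩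
  have h3 : mixM f (φ ∘ v) = (mixM f v).map (Int.castRingHom ℚ) := by
    ext k i
    rw [Matrix.map_apply]
    rcases hk : f k with j | m
    · rw [mixM_inl _ hk, mixM_inl _ hk]; rfl
    · rw [mixM_inr _ hk, mixM_inr _ hk]
      by_cases him : i = m
      · subst him; simp
      · rw [Pi.single_eq_of_ne him, Pi.single_eq_of_ne him]; simp
  rw [h3]
  have h4 := (Int.castRingHom ℚ).map_det (mixM f v)
  rw [h0, map_zero] at h4
  exact h4.symm

lemma mixM_update {n r : ℕ} [inst : DecidableEq (Fin r)] {R : Type} [CommRing R]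
    {f : Fin n → Fin r ⊕ Fin n} (hf : Function.Injective f) {k : Fin n} {j : Fin r} (hk : f k = .inl j)
    (u : Fin r → Fin n → R) (x : Fin n → R) :
    mixM f (Function.update u j x) = (mixM f u).updateRow k x := by
  ext a i
  rw [Matrix.updateRow_apply]
  by_cases hak : a = k
  · rw [if_pos hak, hak, mixM_inl _ hk, Function.update_self]
  · rw [if_neg hak]
    rcases ha : f a with j' | m
    · rw [mixM_inl _ ha, mixM_inl _ ha, Function.update_of_ne]
      rintro rfl
      exact hak (hf (ha.trans hk.symm))
    · rw [mixM_inr _ ha, mixM_inr _ ha]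

/-- the determinant of the mixed matrix with one standard row replaced, as an alternating map -/
noncomputable def mixDet {n r : ℕ} (f : Fin n → Fin r ⊕ Fin n) (hf : Function.Injective f)
    (hf2 : ∀ j, ∃ k, f k = .inl j) (k1 : Fin n) (m1 : Fin n) (hk1 : f k1 = .inr m1)
    (x : Fin n → ℤ) : (Fin n → ℤ) [⋀^Fin r]→ₗ[ℤ] ℤ where
  toFun u := ((mixM f u).updateRow k1 x).det
  map_update_add' u j a b := by
    obtain ⟨k, hk⟩ := hf2 j
    have hne : k ≠ k1 := by rintro rfl; rw [hk1] at hk; cases hk
    have h : ∀ c : Fin n → ℤ, (mixM f (Function.update u j c)).updateRow k1 x =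
        ((mixM f u).updateRow k1 x).updateRow k c := by
      intro c
      rw [mixM_update hf hk u c, Matrix.updateRow_comm _ hne]
    rw [h, h, h, Matrix.det_updateRow_add]
  map_update_smul' u j c a := by
    obtain ⟨k, hk⟩ := hf2 j
    have hne : k ≠ k1 := by rintro rfl; rw [hk1] at hk; cases hk
    have h : ∀ c : Fin n → ℤ, (mixM f (Function.update u j c)).updateRow k1 x =
        ((mixM f u).updateRow k1 x).updateRow k c := by
      intro c
      rw [mixM_update hf hk u c, Matrix.updateRow_comm _ hne]
    rw [h, h, Matrix.det_updateRow_smul]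
    rfl
  map_eq_zero_of_eq' u i j hij hne := by
    obtain ⟨k, hk⟩ := hf2 i
    obtain ⟨l, hl⟩ := hf2 j
    have hk1' : k ≠ k1 := by rintro rfl; rw [hk1] at hk; cases hk
    have hl1' : l ≠ k1 := by rintro rfl; rw [hk1] at hl; cases hl
    have hkl : k ≠ l := by
      rintro rfl
      rw [hk] at hl
      exact hne (Sum.inl_injective hl)
    refine Matrix.det_zero_of_row_eq hkl ?_
    rw [Matrix.updateRow_ne hk1', Matrix.updateRow_ne hl1', mixM_inl _ hk, mixM_inl _ hl, hij]

end Pool.Agent.W225.V
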