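import Mathlib
import Pool.Agent.W225.V.DetLoc
import Pool.Agent.W225.V.Lat
import Pool.Agent.H951R3.W.W1

set_option autoImplicit false

/-!
Many integral points in one cell lie on a hyperplane with small coefficients.
-/

namespace Pool.Agent.W225.V

lemma det_cell_le {K : Type} [NormedField K] {n : ℕ} (A : Matrix (Fin n) (Fin n) K)
    (I : Finset (Fin n)) (hI : I.Nonempty) (x : Fin n → K) (z : Fin n → Fin n → K) {τ ρ : ℝ}
    (hτ : 0 ≤ τ) (hρ : 0 ≤ ρ) (hA : ∀ k ∈ I, ∀ i, A k i = x k * z k i) (hx : ∀ k ∈ I, ‖x k‖ ≤ τ)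
    (hz : ∀ k ∈ I, ∀ i, ‖z k i‖ ≤ 1) (hzz : ∀ k ∈ I, ∀ k' ∈ I, ∀ i, ‖z k i - z k' i‖ ≤ ρ)
    (hE : ∀ k, k ∉ I → ∀ i, ‖A k i‖ ≤ 1) :
    ‖A.det‖ ≤ n.factorial * (τ ^ I.card * ρ ^ (I.card - 1)) := by
  classical
  obtain ⟨k0, hk0⟩ := hI
  let v : Fin n → K := fun k => if k ∈ I then x k else 1
  let A' : Matrix (Fin n) (Fin n) K := fun k i => if k ∈ I then z k i else A k i
  let A'' : Matrix (Fin n) (Fin n) K := fun k i =>
    if k ∈ I.erase k0 then z k i - z k0 i else A' k i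
  have h1 : A.det = (∏ k, v k) * A'.det := by
    rw [← Matrix.det_mul_column]
    congr 1
    ext k i
    rw [Matrix.of_apply]
    by_cases hk : k ∈ I
    · simp only [v, A', if_pos hk]; exact hA k hk i
    · simp only [v, A', if_neg hk, one_mul]
  have h2 : A'.det = A''.det := by
    refine Matrix.det_eq_of_forall_row_eq_smul_add_const
      (fun k => if k ∈ I.erase k0 then 1 else 0) k0 (by simp) fun k i => ?_
    have e0 : A'' k0 i = z k0 i := by
      simp only [A'', A', Finset.mem_erase, ne_eq, not_true_eq_false, false_and, if_false,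
        if_pos hk0]
    rw [e0]
    by_cases hk : k ∈ I.erase k0
    · have hkI := Finset.mem_of_mem_erase hk
      simp only [A'', A', if_pos hk, if_pos hkI]
      ring
    · simp only [A'', if_neg hk, zero_mul, add_zero]
  have h3 : ‖∏ k, v k‖ ≤ τ ^ I.card := by
    rw [norm_prod]
    calc ∏ k, ‖v k‖ ≤ ∏ k, (if k ∈ I then τ else 1) := by
          refine Finset.prod_le_prod (fun _ _ => norm_nonneg _) fun k _ => ?_
          by_cases hk : k ∈ I
          · simp only [v, if_pos hk]; exact hx k hk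
          · simp only [v, if_neg hk, norm_one]; exact le_rfl
      _ = τ ^ I.card := by
          rw [Finset.prod_ite_mem, Finset.univ_inter, Finset.prod_const]
  have h4 : ‖A''.det‖ ≤ n.factorial * ρ ^ (I.card - 1) := by
    have h5 := det_entries_le A'' (fun k => if k ∈ I.erase k0 then ρ else 1) (fun _ => 1)
      (fun k => by split_ifs <;> positivity) (by
        intro k i
        rw [mul_one]
        by_cases hk : k ∈ I.erase k0
        · simp only [A'', if_pos hk]
          exact hzz k (Finset.mem_of_mem_erase hk) k0 hk0 i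
        · simp only [A'', if_neg hk]
          by_cases hkI : k ∈ I
          · simp only [A', if_pos hkI]; exact hz k hkI i
          · simp only [A', if_neg hkI]; exact hE k hkI i)
    rw [Finset.prod_ite_mem, Finset.univ_inter, Finset.prod_const, Finset.card_erase_of_mem hk0,
      Finset.prod_const_one, mul_one] at h5
    exact h5
  rw [h1, norm_mul, h2]
  calc ‖∏ k, v k‖ * ‖A''.det‖ ≤ τ ^ I.card * (n.factorial * ρ ^ (I.card - 1)) :=
        mul_le_mul h3 h4 (norm_nonneg _) (by positivity)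
    _ = _ := by ring

lemma mixM_cast {K : Type} [Field K] {n r : ℕ} (f : Fin n → Fin r ⊕ Fin n)
    (u : Fin r → Fin n → ℤ) :
    (mixM f u).map (Int.castRingHom K) = mixM f (fun j i => (u j i : K)) := by
  ext k i
  rw [Matrix.map_apply]
  rcases hk : f k with j | m
  · rw [mixM_inl _ hk, mixM_inl _ hk]; rfl
  · rw [mixM_inr _ hk, mixM_inr _ hk]
    by_cases him : i = m
    · subst him; simp
    · rw [Pi.single_eq_of_ne him, Pi.single_eq_of_ne him]; simp

/-- the mixed determinant of vectors of one cell -/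
lemma mixDet_le {K : Type} [NormedField K] {n r : ℕ} (hr : 1 ≤ r) {f : Fin n → Fin r ⊕ Fin n}
    (hf : Function.Injective f) (hf2 : ∀ j, ∃ k, f k = .inl j) {k1 m1 : Fin n}
    (hk1 : f k1 = .inr m1) (m : Fin n) (u : Fin r → Fin n → ℤ) (i : Fin n) {τ ρ : ℝ}
    (hτ : 0 ≤ τ) (hρ : 0 ≤ ρ) (hne : ∀ j, (u j i : K) ≠ 0) (hx : ∀ j, ‖(u j i : K)‖ ≤ τ)
    (hz : ∀ j k, ‖(u j k : K)‖ ≤ ‖(u j i : K)‖)
    (hzz : ∀ j j' k, ‖(u j k : K) / u j i - (u j' k : K) / u j' i‖ ≤ ρ) :
    ‖((mixDet f hf hf2 k1 m1 hk1 (Pi.single m 1) u : ℤ) : K)‖ ≤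
      n.factorial * (τ ^ r * ρ ^ (r - 1)) := by
  classical
  have hfr : ∀ k, k ∈ Finset.univ.filter (fun k => ∃ j, f k = .inl j) → ∃ j, f k = .inl j :=
    fun k hk => (Finset.mem_filter.1 hk).2
  set I : Finset (Fin n) := Finset.univ.filter (fun k => ∃ j, f k = .inl j) with hI
  have hcard : I.card = r := by
    have : I.image f = (Finset.univ : Finset (Fin r)).image (Sum.inl : Fin r → Fin r ⊕ Fin n) := by
      ext a
      simp only [Finset.mem_image, hI, Finset.mem_filter, Finset.mem_univ, true_and]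
      constructor
      · rintro ⟨k, ⟨j, hj⟩, rfl⟩
        exact ⟨j, hj.symm⟩
      · rintro ⟨j, rfl⟩
        obtain ⟨k, hk⟩ := hf2 j
        exact ⟨k, ⟨j, hk⟩, hk⟩
    rw [← Finset.card_image_of_injective I hf, this,
      Finset.card_image_of_injective _ Sum.inl_injective, Finset.card_univ, Fintype.card_fin]
  have hIne : I.Nonempty := by
    rw [← Finset.card_pos, hcard]; omega
  have hdet : ((mixDet f hf hf2 k1 m1 hk1 (Pi.single m 1) u : ℤ) : K) =
      (((mixM f u).updateRow k1 (Pi.single m 1)).map (Int.castRingHom K)).det := by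
    change (((((mixM f u).updateRow k1 (Pi.single m 1)).det : ℤ)) : K) = _
    have := (Int.castRingHom K).map_det ((mixM f u).updateRow k1 (Pi.single m 1))
    exact this
  rw [hdet]
  set A := ((mixM f u).updateRow k1 (Pi.single m 1)).map (Int.castRingHom K) with hA
  have hA1 : ∀ k j, f k = .inl j → ∀ l, A k l = (u j l : K) := by
    intro k j hk l
    have hne : k ≠ k1 := by rintro rfl; rw [hk1] at hk; cases hk
    rw [hA, Matrix.map_apply, Matrix.updateRow_ne hne, mixM_inl _ hk]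
    rfl
  have : Nonempty (Fin r) := ⟨⟨0, hr⟩⟩
  choose! jj hjj using hfr
  rw [← hcard]
  refine det_cell_le A I hIne (fun k => (u (jj k) i : K)) (fun k l => (u (jj k) l : K) / u (jj k) i)
    hτ hρ ?_ ?_ ?_ ?_ ?_
  · intro k hk l
    rw [hA1 k _ (hjj k hk), mul_div_cancel₀]
    exact hne _
  · intro k _
    exact hx _
  · intro k _ l
    rw [norm_div]
    exact div_le_one_of_le₀ (hz _ _) (norm_nonneg _)
  · intro k _ k' _ l
    exact hzz _ _ _
  · intro k hk l
    have hsing : ∀ m' : Fin n, ‖((Pi.single m' (1 : ℤ) : Fin n → ℤ) l : K)‖ ≤ 1 := by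
      intro m'
      by_cases hlm : l = m'
      · subst hlm; simp
      · rw [Pi.single_eq_of_ne hlm]; simp
    rw [hA, Matrix.map_apply]
    by_cases hkk : k = k1
    · rw [hkk, Matrix.updateRow_self]
      exact hsing m
    · rw [Matrix.updateRow_ne hkk]
      rcases hfk : f k with j | m'
      · exact absurd (Finset.mem_filter.2 ⟨Finset.mem_univ _, ⟨j, hfk⟩⟩) hk
      · rw [mixM_inr _ hfk]
        exact hsing m'

/-- sum of the coordinates against the standard rows -/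
lemma det_updateRow_eq_sum {n : ℕ} (A : Matrix (Fin n) (Fin n) ℤ) (k : Fin n) (x : Fin n → ℤ) :
    (A.updateRow k x).det = ∑ m, (A.updateRow k (Pi.single m 1)).det * x m := by
  classical
  let g : (Fin n → ℤ) →ₗ[ℤ] ℤ :=
    (Matrix.detRowAlternating (n := Fin n) (R := ℤ)).toMultilinearMap.toLinearMap A k
  have hg : ∀ x, g x = (A.updateRow k x).det := fun x => rfl
  rw [← hg, LinearMap.pi_apply_eq_sum_univ g x]
  refine Finset.sum_congr rfl fun m _ => ?_
  rw [hg, smul_eq_mul, mul_comm]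
  congr 3
  funext j
  by_cases hj : m = j
  · subst hj; simp
  · rw [if_neg hj, Pi.single_eq_of_ne (Ne.symm hj)]

/-- the integers of bounded `p`-adic size -/
def padicBall (p : ℕ) [Fact p.Prime] (c : ℝ) (hc : 0 ≤ c) : AddSubgroup ℤ where
  carrier := {a | ‖(a : ℚ_[p])‖ ≤ c}
  add_mem' {a b} ha hb := by
    change ‖((a + b : ℤ) : ℚ_[p])‖ ≤ c
    rw [Int.cast_add]
    exact (Padic.nonarchimedean _ _).trans (max_le ha hb)
  zero_mem' := by
    change ‖((0 : ℤ) : ℚ_[p])‖ ≤ c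
    rw [Int.cast_zero, norm_zero]
    exact hc
  neg_mem' {a} ha := by
    change ‖((-a : ℤ) : ℚ_[p])‖ ≤ c
    rw [Int.cast_neg, norm_neg]
    exact ha

lemma gcd_mem {n : ℕ} (w : Fin n → ℤ) (I : AddSubgroup ℤ) (h : ∀ m, w m ∈ I) :
    (Finset.univ.gcd w : ℤ) ∈ I := by
  obtain ⟨a, ha⟩ := Int.subgroup_cyclic I
  rw [ha, ← AddSubgroup.zmultiples_eq_closure, Int.mem_zmultiples_iff]
  refine Finset.dvd_gcd fun m _ => ?_
  have := h m
  rw [ha, ← AddSubgroup.zmultiples_eq_closure, Int.mem_zmultiples_iff] at this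
  exact this

lemma one_le_norm_prod (S : Finset ℕ) [hS : ∀ p : S, Fact (p : ℕ).Prime] (a : ℤ) (ha : a ≠ 0) :
    1 ≤ |(a : ℝ)| * ∏ p : S, ‖(a : ℚ_[(p : ℕ)])‖ := by
  have h := Pool.Agent.H951R3.W.prod_padic_int S (fun p hp => (hS ⟨p, hp⟩).1) a ha
  rw [← Finset.prod_coe_sort S (fun p => (padicNorm p (a : ℚ) : ℝ))] at h
  refine h.trans (le_of_eq ?_)
  congr 1
  refine Finset.prod_congr rfl fun p _ => ?_
  rw [← Padic.eq_padicNorm, Rat.cast_intCast]

theorem small_hyperplane {n : ℕ} (S : Finset ℕ) [hS : ∀ p : S, Fact (p : ℕ).Prime] {B ρ0 : ℝ}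
    (hB : 0 ≤ B) (hρ0 : 0 ≤ ρ0) (ρ : S → ℝ) (hρ : ∀ p, 0 ≤ ρ p) (hBρ : B * ρ0 * ∏ p, ρ p ≤ 1)
    (Y : Finset (Fin n → ℤ)) (hY : Y.Nonempty)
    (hdet : ∀ u : Fin n → Fin n → ℤ, (∀ l, u l ∈ Y) → (Matrix.of u).det = 0)
    (i0 : Fin n) (ip : S → Fin n)
    (h0 : ∀ y ∈ Y, y i0 ≠ 0 ∧ |(y i0 : ℝ)| ≤ B ∧ ∀ k, |(y k : ℝ)| ≤ |(y i0 : ℝ)|)
    (h0' : ∀ y ∈ Y, ∀ y' ∈ Y, ∀ k, |(y k : ℝ) / y i0 - (y' k : ℝ) / y' i0| ≤ ρ0)
    (hp : ∀ p : S, ∀ y ∈ Y, ‖(y (ip p) : ℚ_[(p : ℕ)])‖ = 1)
    (hp' : ∀ p : S, ∀ y ∈ Y, ∀ y' ∈ Y, ∀ k,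
      ‖(y k : ℚ_[(p : ℕ)]) / y (ip p) - (y' k : ℚ_[(p : ℕ)]) / y' (ip p)‖ ≤ ρ p) :
    ∃ w : Fin n → ℤ, w ≠ 0 ∧ (∀ y ∈ Y, ∑ k, w k * y k = 0) ∧
      ∀ m, |(w m : ℝ)| * Y.card ≤ 5 ^ n * (n.factorial : ℝ) ^ (S.card + 1) * B := by
  classical
  set M : Submodule ℤ (Fin n → ℤ) := Submodule.span ℤ (Y : Set (Fin n → ℤ)) with hM
  set r : ℕ := Module.finrank ℤ M with hr
  let b : Module.Basis (Fin r) ℤ M := Module.finBasis ℤ M
  have hYM : ∀ y ∈ Y, y ∈ M := fun y hy => Submodule.subset_span hy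
  -- the rank is positive
  have hr1 : 1 ≤ r := by
    by_contra h
    have h0r : r = 0 := by omega
    obtain ⟨y, hy⟩ := hY
    have h1 : (⟨y, hYM y hy⟩ : M) = 0 := by
      have := Module.finrank_zero_iff.1 (hr.symm.trans h0r)
      exact Subsingleton.elim _ _
    have h2 : y = 0 := congrArg Subtype.val h1
    exact (h0 y hy).1 (by rw [h2]; rfl)
  set β : Fin r → Fin n → ℤ := fun j => (b j : Fin n → ℤ) with hβdef
  have hβli : LinearIndependent ℤ β :=
    b.linearIndependent.map' M.subtype (Submodule.ker_subtype M)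
  have hβM : ∀ j, β j ∈ M := fun j => (b j).2
  obtain ⟨f, hf1, hf2, hf3⟩ := exists_completion β hβli
  have hrn : r ≤ n := by
    choose g hg using hf2
    have : Function.Injective g := by
      intro a c hac
      have := hg a
      rw [hac, hg c] at this
      exact (Sum.inl_injective this).symm
    simpa using Fintype.card_le_of_injective g this
  -- a standard row
  obtain ⟨k1, m1, hk1⟩ : ∃ k1 m1, f k1 = .inr m1 := by
    by_contra hcon
    push Not at hcon
    apply hf3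
    have h1 := multilinear_mem (Matrix.detRowAlternating (n := Fin n) (R := ℤ)).toMultilinearMap ⊥
      (Y : Set (Fin n → ℤ)) (fun u hu => by
        rw [AddSubgroup.mem_bot]
        exact hdet u hu) (mixM f β) (fun k => by
        rcases hk : f k with j | m
        · rw [mixM_inl _ hk]; exact hβM j
        · exact absurd hk (hcon k m))
    rw [AddSubgroup.mem_bot] at h1
    exact h1
  set φ : Fin n → M [⋀^Fin r]→ₗ[ℤ] ℤ := fun m =>
    (mixDet f hf1 hf2 k1 m1 hk1 (Pi.single m 1)).compLinearMap M.subtype with hφ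
  have hφe : ∀ m (u : Fin r → M), φ m u =
      mixDet f hf1 hf2 k1 m1 hk1 (Pi.single m 1) (fun j => (u j : Fin n → ℤ)) := fun m u => rfl
  set w0 : Fin n → ℤ := fun m => φ m b with hw0
  have hw0m1 : w0 m1 ≠ 0 := by
    have : w0 m1 = (mixM f β).det := by
      change ((mixM f β).updateRow k1 (Pi.single m1 1)).det = _
      rw [← mixM_inr β hk1, Matrix.updateRow_eq_self]
    rw [this]
    exact hf3
  have hw0y : ∀ x ∈ M, ∑ k, w0 k * x k = 0 := by
    let L : (Fin n → ℤ) →ₗ[ℤ] ℤ :=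
      (Matrix.detRowAlternating (n := Fin n) (R := ℤ)).toMultilinearMap.toLinearMap (mixM f β) k1
    have hL : ∀ x, L x = ∑ k, w0 k * x k := fun x => det_updateRow_eq_sum (mixM f β) k1 x
    have hLβ : ∀ j, L (β j) = 0 := by
      intro j
      obtain ⟨k, hk⟩ := hf2 j
      have hne : k ≠ k1 := by rintro rfl; rw [hk1] at hk; cases hk
      change ((mixM f β).updateRow k1 (β j)).det = 0
      refine Matrix.det_zero_of_row_eq hne ?_
      rw [Matrix.updateRow_ne hne, Matrix.updateRow_self, mixM_inl _ hk]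
    intro x hx
    rw [← hL]
    have h1 := b.sum_repr ⟨x, hx⟩
    have h2 := congrArg Subtype.val h1
    simp only [Submodule.coe_sum, Submodule.coe_smul] at h2
    rw [← h2, map_sum]
    refine Finset.sum_eq_zero fun j _ => ?_
    rw [map_smul]
    have := hLβ j
    rw [this, smul_zero]
  -- the set inside the lattice
  set YM : Finset M := Y.attach.image (fun y => (⟨y.1, hYM y.1 y.2⟩ : M)) with hYMdef
  have hYMm : ∀ x : M, x ∈ YM ↔ (x : Fin n → ℤ) ∈ Y := by
    intro x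
    rw [hYMdef, Finset.mem_image]
    constructor
    · rintro ⟨y, -, rfl⟩; exact y.2
    · intro hx; exact ⟨⟨x.1, hx⟩, Finset.mem_attach _ _, rfl⟩
  have hYMcard : YM.card = Y.card := by
    have hinj : Function.Injective (fun y : Y => (⟨y.1, hYM y.1 y.2⟩ : M)) := fun a c h =>
      Subtype.ext (congrArg (fun z : M => z.1) h)
    rw [hYMdef, Finset.card_image_of_injective _ hinj, Finset.card_attach]
  have hYMspan : ∀ j, b j ∈ Submodule.span ℤ (YM : Set M) := by
    intro j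
    have h1 : (YM : Set M) = ((↑) : M → Fin n → ℤ) ⁻¹' (Y : Set (Fin n → ℤ)) := by
      ext x
      rw [Finset.mem_coe, hYMm]
      rfl
    have h2 : Submodule.span ℤ (YM : Set M) = ⊤ := by
      rw [h1]
      exact Submodule.span_span_coe_preimage
    rw [h2]
    exact Submodule.mem_top
  obtain ⟨y1, hy1⟩ := hY
  obtain ⟨v, hv, hvmax⟩ := Finset.exists_max_image (Fintype.piFinset fun _ : Fin r => YM)
    (fun u => |b.det u|) ⟨fun _ => ⟨y1, hYM y1 hy1⟩, by
      rw [Fintype.mem_piFinset]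
      intro _
      rw [hYMm]
      exact hy1⟩
  rw [Fintype.mem_piFinset] at hv
  have hvmax' : ∀ u : Fin r → M, (∀ i, u i ∈ YM) → |b.det u| ≤ |b.det v| := fun u hu =>
    hvmax u (Fintype.mem_piFinset.2 hu)
  have hvne : b.det v ≠ 0 := by
    intro h
    have h1 := multilinear_mem b.det.toMultilinearMap ⊥ (YM : Set M) (fun u hu => by
      rw [AddSubgroup.mem_bot]
      have := hvmax' u hu
      rw [h, abs_zero] at this
      exact abs_eq_zero.1 (le_antisymm this (abs_nonneg _))) b hYMspan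
    rw [AddSubgroup.mem_bot] at h1
    have h2 : b.det b = 0 := h1
    rw [b.det_self] at h2
    exact one_ne_zero h2
  have hcard := card_le_det b YM v hv hvmax' hvne
  rw [hYMcard] at hcard
  -- the real bound
  have hvY : ∀ j, (v j : Fin n → ℤ) ∈ Y := fun j => (hYMm _).1 (hv j)
  have hreal : ∀ m, |((φ m v : ℤ) : ℝ)| ≤ n.factorial * (B ^ r * ρ0 ^ (r - 1)) := by
    intro m
    rw [hφe]
    have := mixDet_le (K := ℝ) hr1 hf1 hf2 hk1 m (fun j => (v j : Fin n → ℤ)) i0 hB hρ0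
      (fun j => by exact_mod_cast (h0 _ (hvY j)).1)
      (fun j => by rw [Real.norm_eq_abs]; exact (h0 _ (hvY j)).2.1)
      (fun j k => by rw [Real.norm_eq_abs, Real.norm_eq_abs]; exact (h0 _ (hvY j)).2.2 k)
      (fun j j' k => by rw [Real.norm_eq_abs]; exact h0' _ (hvY j) _ (hvY j') k)
    rw [Real.norm_eq_abs] at this
    exact this
  -- the `p`-adic bound
  have hpad : ∀ p : S, ∀ m, ‖((w0 m : ℤ) : ℚ_[(p : ℕ)])‖ ≤ n.factorial * (ρ p) ^ (r - 1) := by
    intro p m
    have hc : 0 ≤ (n.factorial : ℝ) * (ρ p) ^ (r - 1) := mul_nonneg (by positivity) (pow_nonneg (hρ p) _)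
    refine multilinear_mem (φ m).toMultilinearMap (padicBall p _ hc) (YM : Set M) (fun u hu => ?_) b
      hYMspan
    change ‖((φ m u : ℤ) : ℚ_[(p : ℕ)])‖ ≤ _
    have huY : ∀ j, (u j : Fin n → ℤ) ∈ Y := fun j => (hYMm _).1 (hu j)
    rw [hφe]
    have := mixDet_le (K := ℚ_[(p : ℕ)]) hr1 hf1 hf2 hk1 m (fun j => (u j : Fin n → ℤ)) (ip p)
      zero_le_one (hρ p)
      (fun j => by
        have := hp p _ (huY j)
        intro h
        rw [h, norm_zero] at this
        exact zero_ne_one this)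
      (fun j => (hp p _ (huY j)).le)
      (fun j k => by rw [hp p _ (huY j)]; exact Padic.norm_int_le_one _)
      (fun j j' k => hp' p _ (huY j) _ (huY j') k)
    rw [one_pow, one_mul] at this
    exact this
  -- divide by the greatest common divisor
  set g : ℤ := Finset.univ.gcd w0 with hg
  have hgne : g ≠ 0 := by
    intro h
    rw [hg, Finset.gcd_eq_zero_iff] at h
    exact hw0m1 (h m1 (Finset.mem_univ _))
  have hdvd : ∀ m, ∃ c, w0 m = g * c := fun m => Finset.gcd_dvd (Finset.mem_univ m)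
  choose w hw using hdvd
  have hgp : ∀ p : S, ‖((g : ℤ) : ℚ_[(p : ℕ)])‖ ≤ n.factorial * (ρ p) ^ (r - 1) := by
    intro p
    have hc : 0 ≤ (n.factorial : ℝ) * (ρ p) ^ (r - 1) := mul_nonneg (by positivity) (pow_nonneg (hρ p) _)
    exact gcd_mem w0 (padicBall p _ hc) (fun m => hpad p m)
  refine ⟨w, ?_, ?_, ?_⟩
  · intro h
    apply hw0m1
    rw [hw, h]
    simp
  · intro y hy
    have h1 := hw0y y (hYM y hy)
    have h2 : g * ∑ k, w k * y k = 0 := by
      rw [← h1, Finset.mul_sum]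
      refine Finset.sum_congr rfl fun k _ => ?_
      rw [hw k]; ring
    rcases mul_eq_zero.1 h2 with h | h
    · exact absurd h hgne
    · exact h
  · intro m
    have h1 := one_le_norm_prod S g hgne
    have h2 : |(w0 m : ℝ)| = |(g : ℝ)| * |(w m : ℝ)| := by
      rw [hw m]; push_cast; exact abs_mul _ _
    have h3 : φ m v = w0 m * b.det v := by
      have := (φ m).eq_smul_basis_det b
      have h4 := congrArg (fun ψ => ψ v) this
      simp only [AlternatingMap.smul_apply, smul_eq_mul] at h4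
      exact h4
    have h5 : |(w0 m : ℝ)| * Y.card ≤ 5 ^ r * (n.factorial * (B ^ r * ρ0 ^ (r - 1))) := by
      have h6 : (Y.card : ℝ) ≤ 5 ^ r * |((b.det v : ℤ) : ℝ)| := by exact_mod_cast hcard
      have h7 : |((φ m v : ℤ) : ℝ)| = |(w0 m : ℝ)| * |((b.det v : ℤ) : ℝ)| := by
        rw [h3]; push_cast; exact abs_mul _ _
      calc |(w0 m : ℝ)| * Y.card ≤ |(w0 m : ℝ)| * (5 ^ r * |((b.det v : ℤ) : ℝ)|) :=
            mul_le_mul_of_nonneg_left h6 (abs_nonneg _)
        _ = 5 ^ r * |((φ m v : ℤ) : ℝ)| := by rw [h7]; ring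
        _ ≤ _ := mul_le_mul_of_nonneg_left (hreal m) (by positivity)
    have h8 : ∏ p : S, ‖((g : ℤ) : ℚ_[(p : ℕ)])‖ ≤
        (n.factorial : ℝ) ^ S.card * (∏ p, ρ p) ^ (r - 1) := by
      calc ∏ p : S, ‖((g : ℤ) : ℚ_[(p : ℕ)])‖ ≤ ∏ p : S, (n.factorial * (ρ p) ^ (r - 1)) :=
            Finset.prod_le_prod (fun _ _ => norm_nonneg _) fun p _ => hgp p
        _ = _ := by
            rw [Finset.prod_mul_distrib, Finset.prod_const, Finset.card_univ, Fintype.card_coe,
              Finset.prod_pow]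
    have h9 : 0 ≤ ∏ p, ρ p := Finset.prod_nonneg fun p _ => hρ p
    have h10 : (B * ρ0 * ∏ p, ρ p) ^ (r - 1) ≤ 1 := pow_le_one₀ (mul_nonneg (mul_nonneg hB hρ0) h9) hBρ
    have h11 : (5 : ℝ) ^ r ≤ 5 ^ n := pow_le_pow_right₀ (by norm_num) hrn
    have hP0 : 0 ≤ ∏ p : S, ‖((g : ℤ) : ℚ_[(p : ℕ)])‖ := Finset.prod_nonneg fun _ _ => norm_nonneg _
    have hwY : 0 ≤ |(w m : ℝ)| * (Y.card : ℝ) := mul_nonneg (abs_nonneg _) (Nat.cast_nonneg _)
    calc |(w m : ℝ)| * Y.card = 1 * (|(w m : ℝ)| * Y.card) := (one_mul _).symm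
      _ ≤ (|(g : ℝ)| * ∏ p : S, ‖((g : ℤ) : ℚ_[(p : ℕ)])‖) * (|(w m : ℝ)| * Y.card) :=
          mul_le_mul_of_nonneg_right h1 hwY
      _ = (|(w0 m : ℝ)| * Y.card) * ∏ p : S, ‖((g : ℤ) : ℚ_[(p : ℕ)])‖ := by rw [h2]; ring
      _ ≤ (5 ^ r * (n.factorial * (B ^ r * ρ0 ^ (r - 1)))) *
          ((n.factorial : ℝ) ^ S.card * (∏ p, ρ p) ^ (r - 1)) :=
          mul_le_mul h5 h8 hP0 (mul_nonneg (by positivity) (mul_nonneg (by positivity)
            (mul_nonneg (pow_nonneg hB _) (pow_nonneg hρ0 _))))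
      _ = 5 ^ r * (n.factorial : ℝ) ^ (S.card + 1) * B * (B * ρ0 * ∏ p, ρ p) ^ (r - 1) := by
          have hBr : B ^ r = B * B ^ (r - 1) := by
            rw [← pow_succ']
            congr 1
            omega
          rw [hBr, mul_pow, mul_pow, pow_succ]
          ring
      _ ≤ 5 ^ r * (n.factorial : ℝ) ^ (S.card + 1) * B * 1 :=
          mul_le_mul_of_nonneg_left h10 (by positivity)
      _ ≤ 5 ^ n * (n.factorial : ℝ) ^ (S.card + 1) * B := by
          rw [mul_one]
          refine mul_le_mul_of_nonneg_right ?_ hB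
          exact mul_le_mul_of_nonneg_right h11 (by positivity)

end Pool.Agent.W225.V
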