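import Mathlib
import Pool.Agent.W225.V.Pack
import Pool.Agent.W225.V.Small
import Pool.Agent.W225.V.Hyper

set_option autoImplicit false

/-!
Classes of integral points with the same local data.
-/

namespace Pool.Agent.W225.V

open MvPolynomial

lemma aeval_cast_int {K : Type} [Field K] {n : ℕ} (F : MvPolynomial (Fin n) ℤ) (y : Fin n → ℤ) :
    aeval (fun i => (y i : K)) F = ((eval y F : ℤ) : K) := by
  have h := MvPolynomial.eval₂_comp (Int.castRingHom K) y F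
  rw [eq_intCast] at h
  rw [h]
  rfl

lemma aeval_scale {K : Type} [Field K] {n d : ℕ} (F : MvPolynomial (Fin n) ℤ)
    (hF : F.IsHomogeneous d) (c : K) (x : Fin n → K) :
    aeval (fun i => c * x i) F = c ^ d * aeval x F := by
  have h := eval_smul_hom (F.map (algebraMap ℤ K)) (hF.map _) c x
  rw [eval_map, eval_map] at h
  rw [aeval_def, aeval_def]
  exact h

/-- the normalised vector -/
noncomputable def nrm (K : Type) [Field K] {n : ℕ} (i : Fin n) (y : Fin n → ℤ) : Fin n → K :=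
  fun k => (y k : K) / (y i : K)

lemma nrm_valid {K : Type} [NormedField K] {n : ℕ} {J : Type} (F : J → MvPolynomial (Fin n) ℤ)
    {d : J → ℕ} (hd : ∀ j, (F j).IsHomogeneous (d j)) {A : ℝ} {i : Fin n} {ε : J → ℝ}
    {y : Fin n → ℤ} (hi : (y i : K) ≠ 0) (hmax : ∀ k, ‖(y k : K)‖ ≤ ‖(y i : K)‖)
    (hsm : ∀ j, ‖((eval y (F j) : ℤ) : K)‖ ≤ ‖(y i : K)‖ ^ d j * (A * ε j)) :
    Valid F A i ε (nrm K i y) := by
  have hi0 : 0 < ‖(y i : K)‖ := norm_pos_iff.2 hi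
  refine ⟨?_, ?_, fun j => ?_⟩
  · refine le_antisymm ?_ ?_
    · rw [pi_norm_le_iff_of_nonneg zero_le_one]
      intro k
      rw [nrm, norm_div]
      exact div_le_one_of_le₀ (hmax k) (norm_nonneg _)
    · have h := norm_le_pi_norm (nrm K i y) i
      have h2 : nrm K i y i = 1 := div_self hi
      rw [h2, norm_one] at h
      exact h
  · exact div_self hi
  · have h : nrm K i y = fun k => (y i : K)⁻¹ * (y k : K) := by
      funext k
      rw [nrm, div_eq_inv_mul]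
    rw [h, aeval_scale (F j) (hd j), aeval_cast_int, norm_mul, norm_pow, norm_inv]
    have h3 := hsm j
    calc ‖(y i : K)‖⁻¹ ^ d j * ‖((eval y (F j) : ℤ) : K)‖
        ≤ ‖(y i : K)‖⁻¹ ^ d j * (‖(y i : K)‖ ^ d j * (A * ε j)) :=
          mul_le_mul_of_nonneg_left h3 (by positivity)
      _ = A * ε j := by
          rw [inv_pow, ← mul_assoc, inv_mul_cancel₀ (by positivity), one_mul]

lemma det_nrm {K : Type} [NormedField K] {n : ℕ} (i : Fin n) (u : Fin n → Fin n → ℤ)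
    (hu : ∀ l, (u l i : K) ≠ 0) :
    (((Matrix.of u).det : ℤ) : K) =
      (∏ l, (u l i : K)) * (Matrix.of fun l => nrm K i (u l)).det := by
  have h1 : (((Matrix.of u).det : ℤ) : K) = ((Matrix.of u).map (Int.castRingHom K)).det := by
    have := (Int.castRingHom K).map_det (Matrix.of u)
    exact this
  rw [h1, ← Matrix.det_mul_column]
  congr 1
  ext l k
  rw [Matrix.map_apply, Matrix.of_apply, Matrix.of_apply, Matrix.of_apply, nrm, mul_div_cancel₀ _ (hu l)]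
  rfl

/-- prescribed local data -/
def HasData {n : ℕ} {J : Type} (F : J → MvPolynomial (Fin n) ℤ) (d : J → ℕ) (S : Finset ℕ)
    [hS : ∀ p : S, Fact (p : ℕ).Prime] (A B : ℝ) (i0 : Fin n) (ip : S → Fin n) (k0 : J → ℕ)
    (kp : S → J → ℕ) (y : Fin n → ℤ) : Prop :=
  (y i0 ≠ 0 ∧ |(y i0 : ℝ)| ≤ B ∧ (∀ k, |(y k : ℝ)| ≤ |(y i0 : ℝ)|) ∧
    ∀ j, |((eval y (F j) : ℤ) : ℝ)| ≤ |(y i0 : ℝ)| ^ d j * (A * Real.exp (-(k0 j : ℝ)))) ∧
  ∀ p : S, ‖(y (ip p) : ℚ_[(p : ℕ)])‖ = 1 ∧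
    ∀ j, ‖((eval y (F j) : ℤ) : ℚ_[(p : ℕ)])‖ ≤ A * Real.exp (-(kp p j : ℝ))

theorem class_bound {n : ℕ} (hn : 2 ≤ n) {J : Type} [Fintype J] (F : J → MvPolynomial (Fin n) ℤ)
    {d : J → ℕ} (hd : ∀ j, (F j).IsHomogeneous (d j)) (hF : IsSNC F) (S : Finset ℕ)
    [hS : ∀ p : S, Fact (p : ℕ).Prime] {A : ℝ} (hA : 1 ≤ A) {δ : ℝ} (hδ : 0 < δ) :
    ∃ C : ℝ, 1 ≤ C ∧ ∀ B : ℝ, C ≤ B → ∀ (i0 : Fin n) (ip : S → Fin n) (k0 : J → ℕ)
      (kp : S → J → ℕ), n * (1 + δ) * Real.log B ≤ (∑ j, (k0 j : ℝ)) + ∑ p, ∑ j, (kp p j : ℝ) →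
      ∃ (m : ℕ) (lab : (Fin n → ℤ) → Fin m), (m : ℝ) ≤ C * B ^ ((1 + δ) * ((n : ℝ) - 2)) ∧
        ∀ Y : Finset (Fin n → ℤ), Y.Nonempty → (∀ y ∈ Y, HasData F d S A B i0 ip k0 kp y) →
          (∀ y ∈ Y, ∀ y' ∈ Y, lab y = lab y') →
          ∃ w : Fin n → ℤ, w ≠ 0 ∧ (∀ y ∈ Y, ∑ k, w k * y k = 0) ∧
            ∀ m, |(w m : ℝ)| * Y.card ≤ C * B := by
  classical
  obtain ⟨C0, hC0, hloc0⟩ := local_pack ℝ cov_real hn F hd hF hA
  have hlp := fun p : S => local_pack ℚ_[(p : ℕ)] (cov_padic (p : ℕ)) hn F hd hF hA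
  choose Cp hCp hlocp using hlp
  set P : ℝ := C0 * ∏ p, Cp p with hP
  have hPp1 : 1 ≤ ∏ p, Cp p := by
    calc (1 : ℝ) = ∏ _p : S, (1 : ℝ) := by simp
      _ ≤ ∏ p, Cp p := Finset.prod_le_prod (fun _ _ => zero_le_one) fun p _ => hCp p
  have hP1 : 1 ≤ P := by
    rw [hP]
    nlinarith
  have hfac : (1 : ℝ) ≤ n.factorial := by
    exact_mod_cast Nat.one_le_iff_ne_zero.2 (Nat.factorial_ne_zero n)
  set C5 : ℝ := 5 ^ n * (n.factorial : ℝ) ^ (S.card + 1) with hC5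
  have hC51 : 1 ≤ C5 := by
    rw [hC5]
    have h1 : (1 : ℝ) ≤ 5 ^ n := one_le_pow₀ (by norm_num)
    have h2 : (1 : ℝ) ≤ (n.factorial : ℝ) ^ (S.card + 1) := one_le_pow₀ hfac
    nlinarith
  -- the constant
  set C : ℝ := P + C5 + (2 * P) ^ (1 / δ) with hC
  have hPδ : 0 < (2 * P) ^ (1 / δ) := by positivity
  refine ⟨C, by rw [hC]; linarith, fun B hCB i0 ip k0 kp hK => ?_⟩
  have hB1 : 1 ≤ B := by linarith
  have hB0 : 0 < B := by linarith
  have hBδ : 2 * P ≤ B ^ δ := by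
    have h1 : (2 * P) ^ (1 / δ) ≤ B := by linarith
    have h2 : ((2 * P) ^ (1 / δ)) ^ δ ≤ B ^ δ := Real.rpow_le_rpow hPδ.le h1 hδ.le
    rwa [← Real.rpow_mul (by positivity), one_div, inv_mul_cancel₀ hδ.ne', Real.rpow_one] at h2
  have hB2 : 1 < B := by
    have h1 : (1 : ℝ) < (2 * P) ^ (1 / δ) := Real.one_lt_rpow (by linarith) (by positivity)
    linarith
  have hlogB : 0 < Real.log B := Real.log_pos hB2
  set K0 : ℝ := ∑ j, (k0 j : ℝ) with hK0
  have hK00 : 0 ≤ K0 := Finset.sum_nonneg fun _ _ => Nat.cast_nonneg _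
  set Kp : S → ℝ := fun p => ∑ j, (kp p j : ℝ) with hKp
  have hKp0 : ∀ p, 0 ≤ Kp p := fun p => Finset.sum_nonneg fun _ _ => Nat.cast_nonneg _
  set K : ℝ := K0 + ∑ p, Kp p with hKdef
  have hnR : (0 : ℝ) < n := by exact_mod_cast (by omega : 0 < n)
  have hKpos : 0 < K := by
    have : 0 < n * (1 + δ) * Real.log B := by positivity
    linarith
  set θ : ℝ := (1 + δ) * Real.log B / K with hθ
  have hθ0 : 0 < θ := by positivity
  have hθn : n * θ ≤ 1 := by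
    rw [hθ, ← mul_div_assoc, div_le_one hKpos]
    linarith
  have hθK : θ * K = (1 + δ) * Real.log B := by
    rw [hθ]; field_simp
  set R0 : ℝ := Real.exp (θ * K0) with hR0
  set Rp : S → ℝ := fun p => Real.exp (θ * Kp p) with hRp
  have hR01 : 1 ≤ R0 := Real.one_le_exp (by positivity)
  have hRp1 : ∀ p, 1 ≤ Rp p := fun p => Real.one_le_exp (mul_nonneg hθ0.le (hKp0 p))
  have hR0pos : 0 < R0 := by linarith
  have hRppos : ∀ p, 0 < Rp p := fun p => by linarith [hRp1 p]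
  have hPRpos : 0 < ∏ p, Rp p := Finset.prod_pos fun p _ => hRppos p
  have hprodR : R0 * ∏ p, Rp p = B ^ (1 + δ) := by
    rw [hR0, hRp]
    simp only
    rw [← Real.exp_sum, ← Real.exp_add, ← Finset.mul_sum, ← mul_add, ← hKdef, hθK,
      Real.rpow_def_of_pos hB0, mul_comm]
  have hscale : ∀ (k : J → ℕ), Real.exp (θ * ∑ j, (k j : ℝ)) ^ n *
      ∏ j, Real.exp (-(k j : ℝ)) ≤ 1 := by
    intro k
    rw [← Real.exp_nat_mul, ← Real.exp_sum, ← Real.exp_add, Real.exp_le_one_iff,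
      Finset.sum_neg_distrib]
    have h0 : 0 ≤ ∑ j, (k j : ℝ) := Finset.sum_nonneg fun _ _ => Nat.cast_nonneg _
    nlinarith
  obtain ⟨m0, q0, hm0, hq0, hdet0⟩ := hloc0 R0 hR01 (fun j => Real.exp (-(k0 j : ℝ)))
    (fun j => Real.exp_pos _) (hscale k0) i0
  have hlp2 := fun p : S => hlocp p (Rp p) (hRp1 p) (fun j => Real.exp (-(kp p j : ℝ)))
    (fun j => Real.exp_pos _) (hscale (kp p)) (ip p)
  choose mp qp hmp hqp hdetp using hlp2
  let α : Type := Fin m0 × ((p : S) → Fin (mp p))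
  let lab : (Fin n → ℤ) → α := fun y =>
    (q0 (nrm ℝ i0 y), fun p => qp p (nrm ℚ_[(p : ℕ)] (ip p) y))
  refine ⟨Fintype.card α, fun y => Fintype.equivFin α (lab y), ?_, ?_⟩
  · have hcard : (Fintype.card α : ℝ) = m0 * ∏ p, (mp p : ℝ) := by
      have : Fintype.card α = m0 * ∏ p, mp p := by
        simp only [α, Fintype.card_prod, Fintype.card_fin, Fintype.card_pi]
      rw [this]; push_cast; ring
    rw [hcard]
    calc (m0 : ℝ) * ∏ p, (mp p : ℝ) ≤ (C0 * R0 ^ (n - 2)) * ∏ p, (Cp p * Rp p ^ (n - 2)) := by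
          refine mul_le_mul hm0 ?_ (Finset.prod_nonneg fun _ _ => Nat.cast_nonneg _) (by positivity)
          exact Finset.prod_le_prod (fun _ _ => Nat.cast_nonneg _) fun p _ => hmp p
      _ = P * (R0 * ∏ p, Rp p) ^ (n - 2) := by
          rw [Finset.prod_mul_distrib, Finset.prod_pow, hP, mul_pow]; ring
      _ = P * B ^ ((1 + δ) * ((n : ℝ) - 2)) := by
          rw [hprodR, Real.rpow_mul hB0.le, ← Real.rpow_natCast (B ^ (1 + δ)), Nat.cast_sub hn]
          norm_num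
      _ ≤ C * B ^ ((1 + δ) * ((n : ℝ) - 2)) := by
          refine mul_le_mul_of_nonneg_right ?_ (by positivity)
          rw [hC]; linarith
  · intro Y hY hYd hYl
    have hlabe : ∀ y ∈ Y, ∀ y' ∈ Y, lab y = lab y' := fun y hy y' hy' =>
      (Fintype.equivFin α).injective (hYl y hy y' hy')
    have hl0 : ∀ y ∈ Y, ∀ y' ∈ Y, q0 (nrm ℝ i0 y) = q0 (nrm ℝ i0 y') := fun y hy y' hy' =>
      congrArg (fun a => a.1) (hlabe y hy y' hy')
    have hlp : ∀ p : S, ∀ y ∈ Y, ∀ y' ∈ Y, qp p (nrm ℚ_[(p : ℕ)] (ip p) y) =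
        qp p (nrm ℚ_[(p : ℕ)] (ip p) y') := fun p y hy y' hy' =>
      congrFun (congrArg (fun a => a.2) (hlabe y hy y' hy')) p
    have hy0 : ∀ y ∈ Y, (y i0 : ℝ) ≠ 0 := fun y hy => by exact_mod_cast (hYd y hy).1.1
    have hyp : ∀ p : S, ∀ y ∈ Y, (y (ip p) : ℚ_[(p : ℕ)]) ≠ 0 := by
      intro p y hy h
      have := ((hYd y hy).2 p).1
      rw [h, norm_zero] at this
      exact zero_ne_one this
    have hval0 : ∀ y ∈ Y, Valid F A i0 (fun j => Real.exp (-(k0 j : ℝ))) (nrm ℝ i0 y) := by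
      intro y hy
      refine nrm_valid F hd (hy0 y hy) (fun k => ?_) fun j => ?_
      · rw [Real.norm_eq_abs, Real.norm_eq_abs]; exact (hYd y hy).1.2.2.1 k
      · rw [Real.norm_eq_abs, Real.norm_eq_abs]; exact (hYd y hy).1.2.2.2 j
    have hvalp : ∀ p : S, ∀ y ∈ Y, Valid F A (ip p) (fun j => Real.exp (-(kp p j : ℝ)))
        (nrm ℚ_[(p : ℕ)] (ip p) y) := by
      intro p y hy
      refine nrm_valid F hd (hyp p y hy) (fun k => ?_) fun j => ?_
      · rw [((hYd y hy).2 p).1]; exact Padic.norm_int_le_one _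
      · rw [((hYd y hy).2 p).1, one_pow, one_mul]; exact ((hYd y hy).2 p).2 j
    -- determinants vanish
    have hdet : ∀ u : Fin n → Fin n → ℤ, (∀ l, u l ∈ Y) → (Matrix.of u).det = 0 := by
      intro u hu
      by_contra hne
      have h1 := one_le_norm_prod S _ hne
      have h2 : |(((Matrix.of u).det : ℤ) : ℝ)| ≤ B ^ n * (C0 / R0 ^ n) := by
        rw [← Real.norm_eq_abs, det_nrm i0 u fun l => hy0 _ (hu l), norm_mul, norm_prod]
        refine mul_le_mul ?_ (hdet0 _ (fun l => hval0 _ (hu l)) fun l l' => hl0 _ (hu l) _ (hu l'))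
          (norm_nonneg _) (by positivity)
        calc ∏ l, ‖(u l i0 : ℝ)‖ ≤ ∏ _l : Fin n, B := by
              refine Finset.prod_le_prod (fun _ _ => norm_nonneg _) fun l _ => ?_
              rw [Real.norm_eq_abs]
              exact (hYd _ (hu l)).1.2.1
          _ = B ^ n := by rw [Finset.prod_const, Finset.card_univ, Fintype.card_fin]
      have h3 : ∀ p : S, ‖(((Matrix.of u).det : ℤ) : ℚ_[(p : ℕ)])‖ ≤ Cp p / Rp p ^ n := by
        intro p
        rw [det_nrm (ip p) u fun l => hyp p _ (hu l), norm_mul, norm_prod]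
        have h4 : ∏ l, ‖(u l (ip p) : ℚ_[(p : ℕ)])‖ = 1 :=
          Finset.prod_eq_one fun l _ => ((hYd _ (hu l)).2 p).1
        rw [h4, one_mul]
        exact hdetp p _ (fun l => hvalp p _ (hu l)) fun l l' => hlp p _ (hu l) _ (hu l')
      have h5 : ∏ p : S, ‖(((Matrix.of u).det : ℤ) : ℚ_[(p : ℕ)])‖ ≤
          (∏ p, Cp p) / (∏ p, Rp p) ^ n := by
        calc ∏ p : S, ‖(((Matrix.of u).det : ℤ) : ℚ_[(p : ℕ)])‖ ≤ ∏ p, Cp p / Rp p ^ n :=
              Finset.prod_le_prod (fun _ _ => norm_nonneg _) fun p _ => h3 p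
          _ = _ := by rw [Finset.prod_div_distrib, Finset.prod_pow]
      have h6 : |(((Matrix.of u).det : ℤ) : ℝ)| *
          ∏ p : S, ‖(((Matrix.of u).det : ℤ) : ℚ_[(p : ℕ)])‖ ≤
          (B ^ n * (C0 / R0 ^ n)) * ((∏ p, Cp p) / (∏ p, Rp p) ^ n) :=
        mul_le_mul h2 h5 (Finset.prod_nonneg fun _ _ => norm_nonneg _) (by positivity)
      have h7 : (B ^ n * (C0 / R0 ^ n)) * ((∏ p, Cp p) / (∏ p, Rp p) ^ n) =
          P * (B / (R0 * ∏ p, Rp p)) ^ n := by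
        rw [hP, div_pow, mul_pow]
        field_simp
      have h8 : B / (R0 * ∏ p, Rp p) = (B ^ δ)⁻¹ := by
        rw [hprodR, Real.rpow_add hB0, Real.rpow_one, div_mul_eq_div_div, div_self hB0.ne', one_div]
      have h9 : (B ^ δ)⁻¹ ≤ (2 * P)⁻¹ := inv_anti₀ (by positivity) hBδ
      have h10 : P * ((B ^ δ)⁻¹) ^ n < 1 := by
        have hpos : (0 : ℝ) < (B ^ δ)⁻¹ := by positivity
        have hle1 : (B ^ δ)⁻¹ ≤ 1 := by
          refine h9.trans ?_
          exact inv_le_one_of_one_le₀ (by linarith)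
        have h11 : ((B ^ δ)⁻¹) ^ n ≤ (B ^ δ)⁻¹ := by
          calc ((B ^ δ)⁻¹) ^ n ≤ ((B ^ δ)⁻¹) ^ 1 :=
                pow_le_pow_of_le_one hpos.le hle1 (by omega)
            _ = _ := pow_one _
        have h12 : P * ((B ^ δ)⁻¹) ^ n ≤ P * (2 * P)⁻¹ :=
          mul_le_mul_of_nonneg_left (h11.trans h9) (by linarith)
        have h13 : P * (2 * P)⁻¹ = 1 / 2 := by field_simp
        linarith
      rw [h7, h8] at h6
      linarith
    have hρ : B * (C0 / R0) * ∏ p, (Cp p / Rp p) ≤ 1 := by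
      rw [Finset.prod_div_distrib]
      have h1 : B * (C0 / R0) * ((∏ p, Cp p) / ∏ p, Rp p) = P * (B / (R0 * ∏ p, Rp p)) := by
        rw [hP]; field_simp
      have h2 : B / (R0 * ∏ p, Rp p) = (B ^ δ)⁻¹ := by
        rw [hprodR, Real.rpow_add hB0, Real.rpow_one, div_mul_eq_div_div, div_self hB0.ne', one_div]
      rw [h1, h2]
      have h9 : (B ^ δ)⁻¹ ≤ (2 * P)⁻¹ := inv_anti₀ (by positivity) hBδ
      have h12 : P * (B ^ δ)⁻¹ ≤ P * (2 * P)⁻¹ := mul_le_mul_of_nonneg_left h9 (by linarith)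
      have h13 : P * (2 * P)⁻¹ = 1 / 2 := by field_simp
      linarith
    obtain ⟨w, hw0, hw1, hw2⟩ := small_hyperplane S hB0.le (show 0 ≤ C0 / R0 by positivity)
      (fun p => Cp p / Rp p) (fun p => div_nonneg (by linarith [hCp p]) (hRppos p).le) hρ Y hY hdet
      i0 ip (fun y hy => ⟨(hYd y hy).1.1, (hYd y hy).1.2.1, (hYd y hy).1.2.2.1⟩)
      (fun y hy y' hy' k => by
        have h := hq0 _ _ (hval0 y hy) (hval0 y' hy') (hl0 y hy y' hy')
        have h2 := (norm_le_pi_norm (nrm ℝ i0 y - nrm ℝ i0 y') k).trans h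
        rw [Real.norm_eq_abs] at h2
        exact h2)
      (fun p y hy => ((hYd y hy).2 p).1)
      (fun p y hy y' hy' k => by
        have h := hqp p _ _ (hvalp p y hy) (hvalp p y' hy') (hlp p y hy y' hy')
        exact (norm_le_pi_norm (nrm ℚ_[(p : ℕ)] (ip p) y - nrm ℚ_[(p : ℕ)] (ip p) y') k).trans h)
    refine ⟨w, hw0, hw1, fun m => (hw2 m).trans ?_⟩
    refine mul_le_mul_of_nonneg_right ?_ hB0.le
    rw [hC]; linarith

end Pool.Agent.W225.V
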