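import Mathlib
import Pool.Agent.W225.V.Class

set_option autoImplicit false

/-!
The points of a dyadic range of heights at which Vojta's inequality fails.
-/

namespace Pool.Agent.W225.V

open MvPolynomial Pool.Agent.H951R3.W

/-- from bounded finite subsets to finiteness and cardinality -/
lemma ncard_le_of_finset {α : Type} (V : Set α) (b : ℝ)
    (h : ∀ E : Finset α, (E : Set α) ⊆ V → (E.card : ℝ) ≤ b) :
    V.Finite ∧ (V.ncard : ℝ) ≤ b := by
  have hfin : V.Finite := by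
    by_contra hinf
    obtain ⟨E, hEV, hEc⟩ := Set.Infinite.exists_subset_card_eq hinf (⌊b⌋₊ + 1)
    have h1 := h E hEV
    have h2 := Nat.lt_floor_add_one b
    rw [hEc] at h1
    push_cast at h1
    linarith
  refine ⟨hfin, ?_⟩
  rw [Set.ncard_eq_toFinset_card V hfin]
  exact h _ (by simp)

lemma card_le_fiber {α β : Type} [DecidableEq β] (X : Finset α) (t : Finset β) (f : α → β)
    (hf : ∀ x ∈ X, f x ∈ t) {M : ℝ} (hM : 0 ≤ M)
    (h : ∀ b ∈ t, ((X.filter (fun x => f x = b)).card : ℝ) ≤ M) : (X.card : ℝ) ≤ M * t.card := by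
  have h1 := Finset.card_le_mul_card_image_of_maps_to (s := X) (t := t) (f := f) hf ⌊M⌋₊
    (fun b hb => Nat.le_floor (h b hb))
  have h2 : (X.card : ℝ) ≤ ⌊M⌋₊ * t.card := by exact_mod_cast h1
  exact h2.trans (mul_le_mul_of_nonneg_right (Nat.floor_le hM) (Nat.cast_nonneg _))

/-- powers of the logarithm -/
lemma log_pow_bound (M : ℕ) (a b : ℝ) (ha : 0 ≤ a) (hb : 0 ≤ b) {δ : ℝ} (hδ : 0 < δ) :
    ∃ C : ℝ, 0 < C ∧ ∀ B : ℝ, 1 ≤ B → (a * Real.log B + b + 1) ^ M ≤ C * B ^ δ := by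
  set e : ℝ := (M + 1) / δ with he
  have he0 : 0 < e := by positivity
  refine ⟨((a + b + 1) * (1 + e)) ^ M, by positivity, fun B hB => ?_⟩
  have hB0 : 0 < B := by linarith
  set x : ℝ := Real.log B with hx
  have hx0 : 0 ≤ x := Real.log_nonneg hB
  have h1 : a * x + b + 1 ≤ (a + b + 1) * (1 + x) := by nlinarith [mul_nonneg hb hx0]
  have h2 : 1 + x ≤ (1 + e) * Real.exp (x / e) := by
    have h3 := Real.add_one_le_exp (x / e)
    have h4 : 1 + x ≤ (1 + e) * (x / e + 1) := by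
      have : (1 + e) * (x / e + 1) = 1 + x + (x / e + e) := by field_simp; ring
      rw [this]
      have : 0 ≤ x / e + e := by positivity
      linarith
    exact h4.trans (mul_le_mul_of_nonneg_left h3 (by positivity))
  have h5 : a * x + b + 1 ≤ ((a + b + 1) * (1 + e)) * Real.exp (x / e) := by
    refine h1.trans ?_
    rw [mul_assoc]
    exact mul_le_mul_of_nonneg_left h2 (by positivity)
  calc (a * x + b + 1) ^ M ≤ (((a + b + 1) * (1 + e)) * Real.exp (x / e)) ^ M :=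
        pow_le_pow_left₀ (by positivity) h5 M
    _ = ((a + b + 1) * (1 + e)) ^ M * Real.exp (M * (x / e)) := by
        rw [mul_pow, ← Real.exp_nat_mul]
    _ ≤ ((a + b + 1) * (1 + e)) ^ M * B ^ δ := by
        refine mul_le_mul_of_nonneg_left ?_ (by positivity)
        rw [Real.rpow_def_of_pos hB0, Real.exp_le_exp, ← hx, he]
        have : (M : ℝ) * (x / ((M + 1) / δ)) = x * δ * (M / (M + 1)) := by field_simp
        rw [this]
        have h6 : (M : ℝ) / (M + 1) ≤ 1 := by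
          rw [div_le_one (by positivity)]; linarith
        have h7 : 0 ≤ x * δ := by positivity
        nlinarith

/-- all integral points of a box -/
lemma box_card {n : ℕ} {B : ℝ} (hB : 1 ≤ B) (X : Finset (Fin n → ℤ))
    (hX : ∀ x ∈ X, ∀ i, |(x i : ℝ)| ≤ B) : (X.card : ℝ) ≤ (3 * B) ^ n := by
  have hsub : X ⊆ Fintype.piFinset (fun _ : Fin n => Finset.Icc (-⌊B⌋) ⌊B⌋) := by
    intro x hx
    rw [Fintype.mem_piFinset]
    intro i
    rw [Finset.mem_Icc, ← abs_le, Int.le_floor]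
    have := hX x hx i
    push_cast
    exact this
  have h1 := Finset.card_le_card hsub
  rw [Fintype.card_piFinset, Finset.prod_const, Finset.card_univ, Fintype.card_fin,
    Int.card_Icc] at h1
  have h2 : (((⌊B⌋ + 1 - -⌊B⌋).toNat : ℕ) : ℝ) ≤ 3 * B := by
    have h0 : 0 ≤ ⌊B⌋ := Int.floor_nonneg.2 (by linarith)
    have h3 : (((⌊B⌋ + 1 - -⌊B⌋).toNat : ℕ) : ℝ) = 2 * (⌊B⌋ : ℝ) + 1 := by
      have : (((⌊B⌋ + 1 - -⌊B⌋).toNat : ℕ) : ℤ) = 2 * ⌊B⌋ + 1 := by
        rw [Int.toNat_of_nonneg (by omega)]; ring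
      exact_mod_cast this
    rw [h3]
    have := Int.floor_le B
    linarith
  calc (X.card : ℝ) ≤ (((⌊B⌋ + 1 - -⌊B⌋).toNat : ℕ) : ℝ) ^ n := by exact_mod_cast h1
    _ ≤ (3 * B) ^ n := pow_le_pow_left₀ (Nat.cast_nonneg _) h2 n

/-- the coefficient vectors of size at most `h` -/
lemma coef_card {n : ℕ} {h : ℝ} (hh : 1 ≤ h) :
    ∃ T : Finset (Fin n → ℤ), (∀ w, w ∈ T ↔ w ≠ 0 ∧ ∀ i, |(w i : ℝ)| ≤ h) ∧
      (T.card : ℝ) ≤ (3 * h) ^ n := by
  classical
  refine ⟨(Fintype.piFinset (fun _ : Fin n => Finset.Icc (-⌊h⌋) ⌊h⌋)).filter (fun w => w ≠ 0),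
    fun w => ?_, ?_⟩
  · rw [Finset.mem_filter, Fintype.mem_piFinset, and_comm]
    refine and_congr_right fun _ => forall_congr' fun i => ?_
    rw [Finset.mem_Icc, ← abs_le, Int.le_floor]
    push_cast
    exact Iff.rfl
  · refine box_card hh _ fun x hx i => ?_
    rw [Finset.mem_filter, Fintype.mem_piFinset] at hx
    have := hx.1 i
    rw [Finset.mem_Icc, ← abs_le, Int.le_floor] at this
    push_cast at this
    exact this

/-- the sum of the local heights for the places `∞` and `p ∈ S`, for a vector of size `H` -/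
noncomputable def lam {n : ℕ} (G : MvPolynomial (Fin n) ℤ) (e : ℕ) (H : ℝ) (x : Fin n → ℤ) : ℝ :=
  Real.log (H ^ e / |((eval x G : ℤ) : ℝ)|)

lemma norm_int_exp (p : ℕ) [Fact p.Prime] (a : ℤ) (ha : a ≠ 0) :
    ‖(a : ℚ_[p])‖ = Real.exp (-((padicValInt p a : ℝ) * Real.log p)) := by
  have hp : (0 : ℝ) < p := by exact_mod_cast (Fact.out : p.Prime).pos
  have h : ‖(a : ℚ_[p])‖ = (p : ℝ) ^ (-(padicValInt p a : ℤ)) := by
    rw [Padic.norm_eq_zpow_neg_valuation (by exact_mod_cast ha), Padic.valuation_intCast]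
  rw [h, zpow_neg, zpow_natCast, Real.exp_neg, ← Real.log_pow, Real.exp_log (by positivity)]

end Pool.Agent.W225.V
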