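import Mathlib
import Pool.Agent.W225.V.Dyadic

set_option autoImplicit false

/-!
The points with large proximity that lie on no hyperplane with small coefficients.
-/

namespace Pool.Agent.W225.V

open MvPolynomial

theorem generic_count {n : ℕ} (hn : 2 ≤ n) {J : Type} [Fintype J] (F : J → MvPolynomial (Fin n) ℤ)
    {d : J → ℕ} (hd : ∀ j, (F j).IsHomogeneous (d j)) (hF : IsSNC F) (S : Finset ℕ)
    [hS : ∀ p : S, Fact (p : ℕ).Prime] {A : ℝ} (hA : 1 ≤ A) {δ : ℝ} (hδ : 0 < δ) (a b : ℝ)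
    (ha : 0 ≤ a) (hb : 0 ≤ b) :
    ∃ C : ℝ, 1 ≤ C ∧ ∀ B : ℝ, C ≤ B → ∀ h : ℝ, 0 < h → ∀ X : Finset (Fin n → ℤ),
      (∀ x ∈ X, (∀ w : Fin n → ℤ, w ≠ 0 → (∀ i, |(w i : ℝ)| ≤ h) → ∑ k, w k * x k ≠ 0) ∧
        ∃ (i0 : Fin n) (ip : S → Fin n) (k0 : J → ℕ) (kp : S → J → ℕ),
          HasData F d S A B i0 ip k0 kp x ∧
          n * (1 + δ) * Real.log B ≤ (∑ j, (k0 j : ℝ)) + ∑ p, ∑ j, (kp p j : ℝ) ∧
          (∀ j, (k0 j : ℝ) ≤ a * Real.log B + b) ∧
          ∀ p j, (kp p j : ℝ) ≤ a * Real.log B + b) →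
      (X.card : ℝ) ≤ C * (B ^ ((1 + δ) * ((n : ℝ) - 2) + 1 + δ) / h) := by
  classical
  obtain ⟨C1, hC1, hclass⟩ := class_bound hn F hd hF S hA hδ
  obtain ⟨C2, hC2, hlog⟩ := log_pow_bound (Fintype.card J * (S.card + 1)) a b ha hb hδ
  set C3 : ℝ := C1 * C1 * ((n : ℝ) ^ (S.card + 1) * C2) with hC3
  have hnR : (0 : ℝ) < n := by exact_mod_cast (by omega : 0 < n)
  have hC10 : 0 < C1 := by linarith
  have hC30 : 0 < C3 := by positivity
  refine ⟨C1 + C3, by linarith, fun B hCB h hh X hX => ?_⟩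
  have hB1 : 1 ≤ B := by linarith
  have hB0 : 0 < B := by linarith
  have hlogB : 0 ≤ Real.log B := Real.log_nonneg hB1
  set kmax : ℕ := ⌊a * Real.log B + b⌋₊ with hkmax
  have hdata : ∀ x : Fin n → ℤ, ∃ (D : (Fin n × (S → Fin n)) × ((J → ℕ) × (S → J → ℕ))),
      x ∈ X → HasData F d S A B D.1.1 D.1.2 D.2.1 D.2.2 x ∧
        n * (1 + δ) * Real.log B ≤ (∑ j, (D.2.1 j : ℝ)) + ∑ p, ∑ j, (D.2.2 p j : ℝ) ∧
        (∀ j, D.2.1 j ≤ kmax) ∧ ∀ p j, D.2.2 p j ≤ kmax := by
    intro x
    by_cases hx : x ∈ X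
    · obtain ⟨-, i0, ip, k0, kp, h1, h2, h3, h4⟩ := hX x hx
      exact ⟨((i0, ip), (k0, kp)), fun _ => ⟨h1, h2, fun j => Nat.le_floor (h3 j),
        fun p j => Nat.le_floor (h4 p j)⟩⟩
    · exact ⟨((⟨0, by omega⟩, fun _ => ⟨0, by omega⟩), (fun _ => 0, fun _ _ => 0)),
        fun h => absurd h hx⟩
  choose D hD using hdata
  -- the finite set of data
  let T : Finset ((Fin n × (S → Fin n)) × ((J → ℕ) × (S → J → ℕ))) :=
    Finset.univ ×ˢ ((Fintype.piFinset fun _ : J => Finset.range (kmax + 1)) ×ˢ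
      (Fintype.piFinset fun _ : S => Fintype.piFinset fun _ : J => Finset.range (kmax + 1)))
  have hDT : ∀ x ∈ X, D x ∈ T := by
    intro x hx
    obtain ⟨-, -, h3, h4⟩ := hD x hx
    rw [Finset.mem_product, Finset.mem_product, Fintype.mem_piFinset, Fintype.mem_piFinset]
    refine ⟨Finset.mem_univ _, fun j => Finset.mem_range.2 (Nat.lt_succ_of_le (h3 j)), fun p => ?_⟩
    rw [Fintype.mem_piFinset]
    exact fun j => Finset.mem_range.2 (Nat.lt_succ_of_le (h4 p j))
  have hTcard : (T.card : ℝ) ≤ (n : ℝ) ^ (S.card + 1) * (C2 * B ^ δ) := by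
    have h1 : T.card = n ^ (S.card + 1) * (kmax + 1) ^ (Fintype.card J * (S.card + 1)) := by
      simp only [T]
      rw [Finset.card_product, Finset.card_product, Finset.card_univ, Fintype.card_prod,
        Fintype.card_fun, Fintype.card_fin, Fintype.card_coe, Fintype.card_piFinset,
        Fintype.card_piFinset, Finset.prod_const, Finset.prod_const, Fintype.card_piFinset,
        Finset.prod_const, Finset.card_range, Finset.card_univ, Finset.card_univ, Fintype.card_coe,
        pow_succ, mul_add, mul_one, pow_add, pow_mul]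
      ring
    rw [h1]
    push_cast
    refine mul_le_mul_of_nonneg_left ?_ (by positivity)
    refine le_trans ?_ (hlog B hB1)
    refine pow_le_pow_left₀ (by positivity) ?_ _
    have := Nat.floor_le (show 0 ≤ a * Real.log B + b by positivity)
    rw [hkmax]
    linarith
  have hCBh : 0 ≤ C1 * B / h := by positivity
  have hfib : ∀ c ∈ T, ((X.filter (fun x => D x = c)).card : ℝ) ≤
      (C1 * B / h) * (C1 * B ^ ((1 + δ) * ((n : ℝ) - 2))) := by
    intro c _
    rcases (X.filter (fun x => D x = c)).eq_empty_or_nonempty with h0 | ⟨x1, hx1⟩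
    · rw [h0, Finset.card_empty, Nat.cast_zero]
      positivity
    rw [Finset.mem_filter] at hx1
    have hK := (hD x1 hx1.1).2.1
    rw [hx1.2] at hK
    obtain ⟨m, lab, hm, hlab⟩ := hclass B (by linarith) c.1.1 c.1.2 c.2.1 c.2.2 hK
    have h1 := card_le_fiber (X.filter (fun x => D x = c)) (Finset.univ : Finset (Fin m)) lab
      (fun _ _ => Finset.mem_univ _) hCBh (by
        intro l _
        set Y := (X.filter (fun x => D x = c)).filter (fun x => lab x = l) with hY
        rcases Y.eq_empty_or_nonempty with h0 | hYne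
        · rw [h0, Finset.card_empty, Nat.cast_zero]
          exact hCBh
        have hYX : ∀ y ∈ Y, y ∈ X ∧ D y = c ∧ lab y = l := by
          intro y hy
          rw [hY, Finset.mem_filter, Finset.mem_filter] at hy
          exact ⟨hy.1.1, hy.1.2, hy.2⟩
        obtain ⟨w, hw0, hw1, hw2⟩ := hlab Y hYne (fun y hy => by
          obtain ⟨h3, h4, -⟩ := hYX y hy
          have h5 := (hD y h3).1
          rw [h4] at h5
          exact h5) (fun y hy y' hy' => (hYX y hy).2.2.trans (hYX y' hy').2.2.symm)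
        by_contra hcon
        push Not at hcon
        rw [div_lt_iff₀ hh] at hcon
        obtain ⟨y, hy⟩ := hYne
        have hYpos : (0 : ℝ) < Y.card := by
          exact_mod_cast Finset.card_pos.2 ⟨y, hy⟩
        refine (hX y (hYX y hy).1).1 w hw0 (fun i => ?_) (hw1 y hy)
        by_contra hcon2
        push Not at hcon2
        have h6 := hw2 i
        have h7 : h * Y.card < |(w i : ℝ)| * Y.card := mul_lt_mul_of_pos_right hcon2 hYpos
        linarith)
    rw [Finset.card_univ, Fintype.card_fin] at h1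
    exact h1.trans (mul_le_mul_of_nonneg_left hm hCBh)
  have h2 := card_le_fiber X T D hDT (by positivity) hfib
  refine h2.trans ((mul_le_mul_of_nonneg_left hTcard (by positivity)).trans ?_)
  have h3 : (C1 * B / h) * (C1 * B ^ ((1 + δ) * ((n : ℝ) - 2))) *
      ((n : ℝ) ^ (S.card + 1) * (C2 * B ^ δ)) =
      C3 * (B ^ ((1 + δ) * ((n : ℝ) - 2) + 1 + δ) / h) := by
    rw [Real.rpow_add hB0, Real.rpow_add hB0, Real.rpow_one, hC3]
    ring
  rw [h3]
  exact mul_le_mul_of_nonneg_right (by linarith) (by positivity)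

end Pool.Agent.W225.V
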