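import Mathlib
import Pool.Agent.W225.V.Generic

set_option autoImplicit false

/-!
Vojta's inequality with respect to a normal crossing divisor: the exceptional points are few.
-/

namespace Pool.Agent.W225.V

open MvPolynomial Pool.Agent.H951R3.W

/-- primitive vector -/
def IsPrim {n : ℕ} (x : Fin n → ℤ) : Prop := Finset.univ.gcd x = 1

/-- the height of a primitive vector -/
def ht {n : ℕ} (x : Fin n → ℤ) : ℕ := Finset.univ.sup (fun i => (x i).natAbs)

/-- the proximity function -/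
noncomputable def prox {n : ℕ} {J : Type} [Fintype J] (F : J → MvPolynomial (Fin n) ℤ)
    (d : J → ℕ) (S : Finset ℕ) (x : Fin n → ℤ) : ℝ :=
  ∑ j, (Real.log ((ht x : ℝ) ^ d j / |((eval x (F j) : ℤ) : ℝ)|) +
    ∑ p ∈ S, (padicValInt p (eval x (F j)) : ℝ) * Real.log p)

lemma abs_le_ht {n : ℕ} (x : Fin n → ℤ) (i : Fin n) : |(x i : ℝ)| ≤ ht x := by
  have : (x i).natAbs ≤ ht x :=
    Finset.le_sup (f := fun i => (x i).natAbs) (Finset.mem_univ i)
  have h2 : (((x i).natAbs : ℕ) : ℝ) ≤ (ht x : ℝ) := by exact_mod_cast this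
  rw [Nat.cast_natAbs] at h2
  push_cast at h2
  exact h2

lemma IsPrim.one_le {n : ℕ} {x : Fin n → ℤ} (h : IsPrim x) : (1 : ℝ) ≤ ht x := by
  have h1 : ht x ≠ 0 := by
    intro h0
    have h2 : x = 0 := by
      funext i
      have h3 := abs_le_ht x i
      rw [h0, Nat.cast_zero] at h3
      have h4 : (x i : ℝ) = 0 := abs_eq_zero.mp (le_antisymm h3 (abs_nonneg _))
      exact_mod_cast h4
    rw [h2] at h
    unfold IsPrim at h
    have h5 : Finset.univ.gcd (0 : Fin n → ℤ) = 0 := by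
      rw [Finset.gcd_eq_zero_iff]
      intro i _
      rfl
    rw [h5] at h
    exact zero_ne_one h
  exact_mod_cast Nat.one_le_iff_ne_zero.mpr h1

lemma exists_ht {n : ℕ} (hn : 0 < n) (x : Fin n → ℤ) : ∃ i, |(x i : ℝ)| = ht x := by
  obtain ⟨i, -, hi⟩ := Finset.exists_mem_eq_sup (Finset.univ : Finset (Fin n))
    ⟨⟨0, hn⟩, Finset.mem_univ _⟩ (fun i => (x i).natAbs)
  refine ⟨i, ?_⟩
  have h2 : (((x i).natAbs : ℕ) : ℝ) = (ht x : ℝ) := by
    unfold ht
    exact_mod_cast hi.symm
  rw [Nat.cast_natAbs] at h2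
  push_cast at h2
  exact h2

lemma IsPrim.exists_unit {n : ℕ} {x : Fin n → ℤ} (h : IsPrim x) (p : ℕ) [hp : Fact p.Prime] :
    ∃ i, ‖(x i : ℚ_[p])‖ = 1 := by
  by_contra hcon
  push Not at hcon
  have h1 : ∀ i, (p : ℤ) ∣ x i := by
    intro i
    rw [← Padic.norm_intCast_lt_one_iff]
    exact lt_of_le_of_ne (Padic.norm_int_le_one _) (hcon i)
  have h2 : (p : ℤ) ∣ Finset.univ.gcd x := Finset.dvd_gcd fun i _ => h1 i
  rw [h] at h2
  have h3 : (p : ℤ) ∣ (1 : ℤ) := h2
  have h4 : p ∣ 1 := by exact_mod_cast h3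
  exact hp.1.one_lt.ne' (Nat.dvd_one.1 h4)

/-- the `p`-part is at most the integer -/
lemma val_log_le (p : ℕ) [hp : Fact p.Prime] (a : ℤ) (ha : a ≠ 0) :
    (padicValInt p a : ℝ) * Real.log p ≤ Real.log |(a : ℝ)| := by
  have h2 : p ^ padicValInt p a ≤ a.natAbs := by
    refine Nat.le_of_dvd (Int.natAbs_pos.2 ha) ?_
    exact pow_padicValNat_dvd
  have h3 : (p : ℝ) ^ padicValInt p a ≤ |(a : ℝ)| := by
    have h4 : ((p ^ padicValInt p a : ℕ) : ℝ) ≤ ((a.natAbs : ℕ) : ℝ) := by exact_mod_cast h2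
    rw [Nat.cast_natAbs] at h4
    push_cast at h4
    exact h4
  have hp0 : (0 : ℝ) < p := by exact_mod_cast hp.1.pos
  rw [← Real.log_pow]
  exact Real.log_le_log (by positivity) h3

/-- the product formula for the proximity function -/
lemma prod_eq_exp {n : ℕ} {J : Type} [Fintype J] (F : J → MvPolynomial (Fin n) ℤ)
    (d : J → ℕ) (S : Finset ℕ) (hS : ∀ p ∈ S, p.Prime) (x : Fin n → ℤ) (hx : (1 : ℝ) ≤ ht x)
    (hne : ∀ j, eval x (F j) ≠ 0) :
    |((eval x (∏ j, F j) : ℤ) : ℝ)| *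
      ∏ p ∈ S, (padicNorm p ((eval x (∏ j, F j) : ℤ) : ℚ) : ℝ) =
      Real.exp ((∑ j, (d j : ℝ)) * Real.log (ht x) - prox F d S x) := by
  classical
  have hprod : eval x (∏ j, F j) = ∏ j, eval x (F j) := map_prod _ _ _
  have hR : ∀ j, (0 : ℝ) < |((eval x (F j) : ℤ) : ℝ)| := fun j =>
    abs_pos.mpr (by exact_mod_cast hne j)
  have hH0 : (0 : ℝ) < ht x := by linarith
  have hval : ∀ p ∈ S, ∀ j, (padicNorm p ((eval x (F j) : ℤ) : ℚ) : ℝ) =
      Real.exp (-((padicValInt p (eval x (F j)) : ℝ) * Real.log p)) := by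
    intro p hp j
    have : Fact p.Prime := ⟨hS p hp⟩
    rw [← norm_int_exp p _ (hne j), ← Padic.eq_padicNorm, Rat.cast_intCast]
  have h1 : |((eval x (∏ j, F j) : ℤ) : ℝ)| =
      Real.exp (∑ j, Real.log |((eval x (F j) : ℤ) : ℝ)|) := by
    rw [hprod, Real.exp_sum]
    push_cast
    rw [Finset.abs_prod]
    exact Finset.prod_congr rfl fun j _ => (Real.exp_log (hR j)).symm
  have h2 : ∀ p ∈ S, (padicNorm p ((eval x (∏ j, F j) : ℤ) : ℚ) : ℝ) =
      Real.exp (-∑ j, ((padicValInt p (eval x (F j)) : ℝ) * Real.log p)) := by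
    intro p hp
    have : Fact p.Prime := ⟨hS p hp⟩
    rw [hprod, ← Finset.sum_neg_distrib, Real.exp_sum]
    have e : padicNorm p ((∏ j, eval x (F j) : ℤ) : ℚ) =
        ∏ j, padicNorm p ((eval x (F j) : ℤ) : ℚ) := by
      push_cast
      exact map_prod (IsAbsoluteValue.toAbsoluteValue (padicNorm p)) _ _
    rw [e]
    push_cast
    exact Finset.prod_congr rfl fun j _ => hval p hp j
  rw [h1, Finset.prod_congr rfl h2, ← Real.exp_sum, ← Real.exp_add]
  congr 1
  unfold prox
  have h3 : ∀ j, Real.log ((ht x : ℝ) ^ d j / |((eval x (F j) : ℤ) : ℝ)|) =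
      d j * Real.log (ht x) - Real.log |((eval x (F j) : ℤ) : ℝ)| := by
    intro j
    rw [Real.log_div (by positivity) (hR j).ne', Real.log_pow]
  simp only [h3]
  rw [Finset.sum_add_distrib, Finset.sum_sub_distrib, ← Finset.sum_mul, Finset.sum_neg_distrib,
    Finset.sum_comm (s := S)]
  ring

theorem dyadic_count {N : ℕ} (hN : 2 ≤ N) {J : Type} [Fintype J]
    (F : J → MvPolynomial (Fin (N + 1)) ℤ) {d : J → ℕ} (hd : ∀ j, (F j).IsHomogeneous (d j))
    (hF : IsSNC F) (S : Finset ℕ) (hS : ∀ p ∈ S, p.Prime) (hD : N + 2 ≤ ∑ j, d j) {ε c : ℝ}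
    (hε : 0 < ε) :
    ∃ C : ℝ, 0 < C ∧ ∀ B : ℝ, 1 ≤ B → ∀ X : Finset (Fin (N + 1) → ℤ),
      (∀ x ∈ X, IsPrim x ∧ (ht x : ℝ) ≤ B ∧ B < 2 * ht x ∧ (∀ j, eval x (F j) ≠ 0) ∧
        ε * Real.log (ht x) + c < prox F d S x - (N + 1) * Real.log (ht x)) →
      (X.card : ℝ) ≤ C * B ^ ((N : ℝ) - 1 / (2 * ((∑ j, d j : ℕ) : ℝ))) := by
  classical
  have hSf : ∀ p : S, Fact (p : ℕ).Prime := fun p => ⟨hS p.1 p.2⟩
  choose Aj hAj1 hAj using fun j => eval_bound (F j) (hd j)
  set A : ℝ := 1 + ∑ j, Aj j with hAdef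
  have hAjle : ∀ j, Aj j ≤ A := by
    intro j
    have := Finset.single_le_sum (f := Aj) (fun j _ => by linarith [hAj1 j]) (Finset.mem_univ j)
    rw [hAdef]; linarith
  have hA : 1 ≤ A := by
    have := Finset.sum_nonneg fun j (_ : j ∈ Finset.univ) => (by linarith [hAj1 j] : 0 ≤ Aj j)
    rw [hAdef]; linarith
  have hA0 : 0 < A := by linarith
  set D : ℕ := ∑ j, d j with hDdef
  have hDR : (∑ j, (d j : ℝ)) = (D : ℝ) := by rw [hDdef]; push_cast; rfl
  have hNR : (2 : ℝ) ≤ N := by exact_mod_cast hN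
  have hDN : (N : ℝ) + 2 ≤ D := by exact_mod_cast hD
  have hD0 : (0 : ℝ) < D := by linarith
  set δ : ℝ := min (ε / (2 * (N + 1))) (((N : ℝ) - 1) / (2 * D * N * (N + 3))) with hδdef
  have hδ : 0 < δ := by
    refine lt_min (by positivity) (div_pos (by linarith) (by positivity))
  have hδ1 : δ * (2 * (N + 1)) ≤ ε := by
    have := min_le_left (ε / (2 * ((N : ℝ) + 1))) (((N : ℝ) - 1) / (2 * D * N * (N + 3)))
    rw [← hδdef, le_div_iff₀ (by positivity)] at this
    exact this
  have hδ2 : δ * N * (D * (N + 3)) ≤ ((N : ℝ) - 1) / 2 := by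
    have := min_le_right (ε / (2 * ((N : ℝ) + 1))) (((N : ℝ) - 1) / (2 * D * N * (N + 3)))
    rw [← hδdef, le_div_iff₀ (by positivity)] at this
    linarith
  set η : ℝ := ((N : ℝ) + 1) / (D * (N + 3)) with hη
  have hη0 : 0 < η := by positivity
  have hηD : η * (D * (N + 3)) = N + 1 := by rw [hη]; field_simp
  set κ : ℝ := (N : ℝ) - 1 / (2 * (D : ℝ)) with hκ
  have h2D : 1 / (2 * (D : ℝ)) ≤ 1 := by
    rw [div_le_one (by positivity)]; linarith
  have hκ1 : 1 ≤ κ := by rw [hκ]; linarith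
  -- the exponent inequality
  have hexp : (N : ℝ) - η + δ * N ≤ κ := by
    have h1 : δ * N + 1 / (2 * (D : ℝ)) ≤ η := by
      have h2 : (δ * N + 1 / (2 * (D : ℝ))) * (D * (N + 3)) ≤ η * (D * (N + 3)) := by
        rw [hηD, add_mul]
        have h3 : 1 / (2 * (D : ℝ)) * (D * (N + 3)) = (N + 3) / 2 := by field_simp
        rw [h3]
        linarith
      exact le_of_mul_le_mul_right h2 (by positivity)
    rw [hκ]; linarith
  -- the two counts
  obtain ⟨C1, hC1, hgen⟩ := generic_count (n := N + 1) (by omega) F hd hF S hA hδ (D : ℝ)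
    (Real.log A) hD0.le (Real.log_nonneg hA)
  have hGh : (∏ j, F j).IsHomogeneous D := IsHomogeneous.prod _ _ _ fun j _ => hd j
  set τ : ℝ := (D : ℝ) - (N + 1) with hτ
  have hτ0 : 0 ≤ τ := by rw [hτ]; linarith
  obtain ⟨C2, hC2, hhyp⟩ := hyper_count (N := N) (by omega) (∏ j, F j) (d := D) (by omega) hGh S hS
    (K0 := Real.exp (-c)) (τ := τ) (δ := δ) (Real.exp_pos _) hτ0 hδ
  set Q : ℝ := ((S.card : ℝ) + 1) * (Fintype.card J) with hQ
  have hQ0 : 0 ≤ Q := by positivity
  set Cst : ℝ := ((N : ℝ) + 1 + ε) * Real.log 2 + |c| + Q with hCst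
  have hlog2 : 0 < Real.log 2 := Real.log_pos (by norm_num)
  set B2 : ℝ := C1 + Real.exp (2 * Cst / ε) with hB2
  have hB21 : 1 ≤ B2 := by rw [hB2]; linarith [Real.exp_pos (2 * Cst / ε)]
  refine ⟨(3 * B2) ^ (N + 1) + C1 + C2 * 3 ^ (N + 1), by positivity, fun B hB X hX => ?_⟩
  have hB0 : 0 < B := by linarith
  have hBκ : 1 ≤ B ^ κ := Real.one_le_rpow hB (by linarith)
  have hbox : ∀ x ∈ X, ∀ i, |(x i : ℝ)| ≤ B := fun x hx i =>
    (abs_le_ht x i).trans (hX x hx).2.1
  by_cases hsmallB : B < B2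
  · have h1 := box_card hB X hbox
    have h2 : (3 * B) ^ (N + 1) ≤ (3 * B2) ^ (N + 1) :=
      pow_le_pow_left₀ (by positivity) (by linarith) _
    have h3 : 0 ≤ (3 * B2) ^ (N + 1) := by positivity
    have h4 : 0 ≤ C2 * 3 ^ (N + 1) := by positivity
    calc (X.card : ℝ) ≤ ((3 * B2) ^ (N + 1) + C1 + C2 * 3 ^ (N + 1)) * 1 := by
          rw [mul_one]; linarith
      _ ≤ _ := mul_le_mul_of_nonneg_left hBκ (by linarith)
  push Not at hsmallB
  have hBC1 : C1 ≤ B := by
    have := Real.exp_pos (2 * Cst / ε)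
    linarith
  have hBst : 2 * Cst / ε ≤ Real.log B := by
    rw [Real.le_log_iff_exp_le hB0]
    linarith
  rw [div_le_iff₀ hε] at hBst
  set L : ℝ := Real.log B with hL
  have hL0 : 0 ≤ L := Real.log_nonneg hB
  set h : ℝ := B ^ η with hh
  have hh1 : 1 ≤ h := Real.one_le_rpow hB hη0.le
  have hh0 : 0 < h := by linarith
  have hhB : h ≤ B := by
    have h1 : η ≤ 1 := by
      rw [hη, div_le_one (by positivity)]
      have h2 : 1 * ((N : ℝ) + 3) ≤ D * (N + 3) :=
        mul_le_mul_of_nonneg_right (by linarith) (by linarith)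
      linarith
    calc h ≤ B ^ (1 : ℝ) := Real.rpow_le_rpow_of_exponent_le hB h1
      _ = B := Real.rpow_one B
  obtain ⟨T, hT, hTcard⟩ := coef_card (n := N + 1) hh1
  obtain ⟨Gn, hGn⟩ : ∃ Gn : (Fin (N + 1) → ℤ) → Prop,
      ∀ x, Gn x ↔ ∀ w ∈ T, ∑ k, w k * x k ≠ 0 := ⟨_, fun _ => Iff.rfl⟩
  set X1 := X.filter Gn with hX1
  have hsplit : X ⊆ X1 ∪ T.biUnion (fun w => X.filter (fun x => ∑ k, w k * x k = 0)) := by
    intro x hx
    rw [Finset.mem_union]
    by_cases hc : ∀ w ∈ T, ∑ k, w k * x k ≠ 0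
    · left
      rw [hX1, Finset.mem_filter]
      exact ⟨hx, (hGn x).2 hc⟩
    · right
      push Not at hc
      obtain ⟨w, hw, hw2⟩ := hc
      rw [Finset.mem_biUnion]
      exact ⟨w, hw, Finset.mem_filter.2 ⟨hx, hw2⟩⟩
  -- generic points
  have hgen1 : (X1.card : ℝ) ≤ C1 * B ^ κ := by
    refine (hgen B hBC1 h hh0 X1 ?_).trans ?_
    · intro x hx
      rw [hX1, Finset.mem_filter] at hx
      obtain ⟨hxX, hxw'⟩ := hx
      have hxw := (hGn x).1 hxw'
      obtain ⟨hprim, hxB, hxB2, hne, hviol⟩ := hX x hxX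
      refine ⟨fun w hw0 hw => hxw w ((hT w).2 ⟨hw0, hw⟩), ?_⟩
      have hH1 : (1 : ℝ) ≤ ht x := hprim.one_le
      have hH0 : (0 : ℝ) < ht x := by linarith
      obtain ⟨i0, hi0⟩ := exists_ht (Nat.succ_pos N) x
      choose ip hip using fun p : S => hprim.exists_unit (p : ℕ)
      have hFpos : ∀ j, (0 : ℝ) < |((eval x (F j) : ℤ) : ℝ)| := fun j =>
        abs_pos.mpr (by exact_mod_cast hne j)
      have hF1 : ∀ j, (1 : ℝ) ≤ |((eval x (F j) : ℤ) : ℝ)| := fun j => by
        have : (1 : ℤ) ≤ |eval x (F j)| := Int.one_le_abs (hne j)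
        exact_mod_cast this
      have hFup : ∀ j, |((eval x (F j) : ℤ) : ℝ)| ≤ A * (ht x : ℝ) ^ d j := fun j =>
        (hAj j (ht x) hH1 x (abs_le_ht x)).trans
          (mul_le_mul_of_nonneg_right (hAjle j) (by positivity))
      have hLH : Real.log (ht x) ≤ L := Real.log_le_log hH0 hxB
      have hLH0 : 0 ≤ Real.log (ht x) := Real.log_nonneg hH1
      have hLH2 : L - Real.log 2 ≤ Real.log (ht x) := by
        have h1 := Real.log_le_log hB0 hxB2.le
        rw [Real.log_mul (by norm_num) hH0.ne'] at h1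
        linarith
      set l0 : J → ℝ := fun j =>
        Real.log ((ht x : ℝ) ^ d j / |((eval x (F j) : ℤ) : ℝ)|) with hl0
      set lp : S → J → ℝ := fun p j =>
        (padicValInt (p : ℕ) (eval x (F j)) : ℝ) * Real.log (p : ℕ) with hlp
      have hlp0 : ∀ p j, 0 ≤ lp p j := by
        intro p j
        have : (1 : ℝ) ≤ ((p : ℕ) : ℝ) := by exact_mod_cast (hS p.1 p.2).one_lt.le
        exact mul_nonneg (Nat.cast_nonneg _) (Real.log_nonneg this)
      have hdj : ∀ j, (d j : ℝ) ≤ D := by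
        intro j
        rw [← hDR]
        exact Finset.single_le_sum (f := fun j => (d j : ℝ)) (fun j _ => Nat.cast_nonneg _)
          (Finset.mem_univ j)
      have hdL : ∀ j, (d j : ℝ) * Real.log (ht x) ≤ D * L := fun j =>
        mul_le_mul (hdj j) hLH hLH0 hD0.le
      have hl0e : ∀ j, l0 j = d j * Real.log (ht x) - Real.log |((eval x (F j) : ℤ) : ℝ)| := by
        intro j
        rw [hl0]
        simp only
        rw [Real.log_div (by positivity) (hFpos j).ne', Real.log_pow]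
      refine ⟨i0, ip, fun j => ⌊l0 j⌋₊, fun p j => ⌊lp p j⌋₊, ⟨⟨?_, ?_, ?_, ?_⟩, ?_⟩, ?_, ?_, ?_⟩
      · intro h0
        rw [h0] at hi0
        simp only [Int.cast_zero, abs_zero] at hi0
        linarith
      · rw [hi0]; exact hxB
      · intro k
        rw [hi0]
        exact abs_le_ht x k
      · intro j
        rw [hi0]
        rcases le_or_gt 0 (l0 j) with hpos | hneg
        · have h1 : Real.exp (-l0 j) ≤ Real.exp (-((⌊l0 j⌋₊ : ℕ) : ℝ)) := by
            rw [Real.exp_le_exp]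
            have := Nat.floor_le hpos
            linarith
          have h2 : Real.exp (-l0 j) = |((eval x (F j) : ℤ) : ℝ)| / (ht x : ℝ) ^ d j := by
            rw [Real.exp_neg, hl0]
            simp only
            rw [Real.exp_log (div_pos (by positivity) (hFpos j)), inv_div]
          rw [h2, div_le_iff₀ (by positivity)] at h1
          have h3 : 0 < Real.exp (-((⌊l0 j⌋₊ : ℕ) : ℝ)) * (ht x : ℝ) ^ d j := by positivity
          have h4 := mul_le_mul_of_nonneg_right hA h3.le
          linarith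
        · have h1 : ⌊l0 j⌋₊ = 0 := Nat.floor_of_nonpos hneg.le
          beta_reduce
          rw [h1, Nat.cast_zero, neg_zero, Real.exp_zero, mul_one]
          have := hFup j
          linarith
      · intro p
        refine ⟨hip p, fun j => ?_⟩
        rw [norm_int_exp (p : ℕ) _ (hne j)]
        have h1 : Real.exp (-lp p j) ≤ Real.exp (-((⌊lp p j⌋₊ : ℕ) : ℝ)) := by
          rw [Real.exp_le_exp]
          have := Nat.floor_le (hlp0 p j)
          linarith
        refine h1.trans ?_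
        have h3 : 0 < Real.exp (-((⌊lp p j⌋₊ : ℕ) : ℝ)) := Real.exp_pos _
        exact le_mul_of_one_le_left h3.le hA
      · -- the total of the data
        have h1 : ∀ j, l0 j - 1 ≤ ((⌊l0 j⌋₊ : ℕ) : ℝ) := fun j => by
          have := Nat.lt_floor_add_one (l0 j)
          linarith
        have h2 : ∀ p j, lp p j - 1 ≤ ((⌊lp p j⌋₊ : ℕ) : ℝ) := fun p j => by
          have := Nat.lt_floor_add_one (lp p j)
          linarith
        have h3 : prox F d S x = (∑ j, l0 j) + ∑ p, ∑ j, lp p j := by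
          unfold prox
          rw [Finset.sum_add_distrib]
          congr 1
          rw [Finset.sum_comm]
          rw [← Finset.sum_coe_sort S]
        have h4 : (∑ j, l0 j) - (Fintype.card J) ≤ ∑ j, ((⌊l0 j⌋₊ : ℕ) : ℝ) := by
          have := Finset.sum_le_sum fun j (_ : j ∈ Finset.univ) => h1 j
          rw [Finset.sum_sub_distrib, Finset.sum_const, Finset.card_univ, nsmul_eq_mul,
            mul_one] at this
          exact this
        have h5 : (∑ p, ∑ j, lp p j) - (S.card : ℝ) * (Fintype.card J) ≤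
            ∑ p, ∑ j, ((⌊lp p j⌋₊ : ℕ) : ℝ) := by
          have h6 : ∀ p ∈ (Finset.univ : Finset S), (∑ j, lp p j) - (Fintype.card J : ℝ) ≤
              ∑ j, ((⌊lp p j⌋₊ : ℕ) : ℝ) := by
            intro p _
            have := Finset.sum_le_sum fun j (_ : j ∈ Finset.univ) => h2 p j
            rw [Finset.sum_sub_distrib, Finset.sum_const, Finset.card_univ, nsmul_eq_mul,
              mul_one] at this
            exact this
          have := Finset.sum_le_sum h6
          rw [Finset.sum_sub_distrib, Finset.sum_const, Finset.card_univ, nsmul_eq_mul,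
            Fintype.card_coe] at this
          exact this
        have h7 : ((N + 1 : ℕ) : ℝ) = (N : ℝ) + 1 := by push_cast; ring
        rw [h7]
        rw [h3] at hviol
        have h8 : ((N : ℝ) + 1 + ε) * (L - Real.log 2) ≤
            ((N : ℝ) + 1 + ε) * Real.log (ht x) :=
          mul_le_mul_of_nonneg_left hLH2 (by positivity)
        have h9 : -|c| ≤ c := neg_abs_le c
        have h10 : δ * (2 * (N + 1)) * L ≤ ε * L := mul_le_mul_of_nonneg_right hδ1 hL0
        rw [hCst, hQ] at hBst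
        linarith
      · intro j
        rcases le_or_gt 0 (l0 j) with hpos | hneg
        · refine (Nat.floor_le hpos).trans ?_
          rw [hl0e]
          have h1 : 0 ≤ Real.log |((eval x (F j) : ℤ) : ℝ)| := Real.log_nonneg (hF1 j)
          have h2 := Real.log_nonneg hA
          have h3 := hdL j
          linarith
        · beta_reduce
          rw [Nat.floor_of_nonpos hneg.le, Nat.cast_zero]
          have h2 := Real.log_nonneg hA
          positivity
      · intro p j
        refine (Nat.floor_le (hlp0 p j)).trans ((val_log_le (p : ℕ) _ (hne j)).trans ?_)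
        have h1 := Real.log_le_log (hFpos j) (hFup j)
        rw [Real.log_mul hA0.ne' (by positivity), Real.log_pow] at h1
        have h3 := hdL j
        linarith
    · refine mul_le_mul_of_nonneg_left ?_ (by linarith)
      rw [hh, ← Real.rpow_sub hB0]
      refine Real.rpow_le_rpow_of_exponent_le hB ?_
      push_cast
      have : (1 + δ) * ((N : ℝ) + 1 - 2) + 1 + δ - η = N - η + δ * N := by ring
      rw [this]
      exact hexp
  -- points on hyperplanes with small coefficients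
  have hhyp1 : ∀ w ∈ T, ((X.filter (fun x => ∑ k, w k * x k = 0)).card : ℝ) ≤
      C2 * (h * B ^ (((N : ℝ) - 1) + τ / D + δ)) := by
    intro w hw
    obtain ⟨hw0, hwh⟩ := (hT w).1 hw
    refine hhyp B hB h hhB w hw0 hwh _ fun x hx => ?_
    rw [Finset.mem_filter] at hx
    obtain ⟨hxX, hxw⟩ := hx
    obtain ⟨hprim, hxB, hxB2, hne, hviol⟩ := hX x hxX
    refine ⟨hxw, hbox x hxX, ?_, ?_⟩
    · rw [map_prod]
      exact Finset.prod_ne_zero_iff.2 fun j _ => hne j
    · have hH1 : (1 : ℝ) ≤ ht x := hprim.one_le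
      have hH0 : (0 : ℝ) < ht x := by linarith
      rw [prod_eq_exp F d S hS x hH1 hne, hDR, Real.rpow_def_of_pos hB0, ← Real.exp_add,
        Real.exp_le_exp, ← hL]
      have hLH : Real.log (ht x) ≤ L := Real.log_le_log hH0 hxB
      have hLH0 : 0 ≤ Real.log (ht x) := Real.log_nonneg hH1
      have h1 : τ * Real.log (ht x) ≤ τ * L := mul_le_mul_of_nonneg_left hLH hτ0
      have h2 : 0 ≤ ε * Real.log (ht x) := by positivity
      rw [hτ] at h1 ⊢
      linarith
  have hlow : ((T.biUnion (fun w => X.filter (fun x => ∑ k, w k * x k = 0))).card : ℝ) ≤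
      C2 * 3 ^ (N + 1) * B ^ κ := by
    have h1 : ((T.biUnion (fun w => X.filter (fun x => ∑ k, w k * x k = 0))).card : ℝ) ≤
        ∑ w ∈ T, ((X.filter (fun x => ∑ k, w k * x k = 0)).card : ℝ) := by
      exact_mod_cast Finset.card_biUnion_le
    refine h1.trans ((Finset.sum_le_sum hhyp1).trans ?_)
    rw [Finset.sum_const, nsmul_eq_mul]
    calc (T.card : ℝ) * (C2 * (h * B ^ (((N : ℝ) - 1) + τ / D + δ)))
        ≤ (3 * h) ^ (N + 1) * (C2 * (h * B ^ (((N : ℝ) - 1) + τ / D + δ))) :=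
          mul_le_mul_of_nonneg_right hTcard (by positivity)
      _ = C2 * 3 ^ (N + 1) * (h ^ (N + 2) * B ^ (((N : ℝ) - 1) + τ / D + δ)) := by
          rw [mul_pow]; ring
      _ = C2 * 3 ^ (N + 1) * B ^ (η * (N + 2) + (((N : ℝ) - 1) + τ / D + δ)) := by
          rw [Real.rpow_add hB0 (η * (N + 2)), Real.rpow_mul hB0.le, ← hh]
          congr 2
          rw [← Real.rpow_natCast]
          push_cast
          rfl
      _ ≤ C2 * 3 ^ (N + 1) * B ^ κ := by
          refine mul_le_mul_of_nonneg_left ?_ (by positivity)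
          refine Real.rpow_le_rpow_of_exponent_le hB ?_
          have h2 : τ / D = 1 - (N + 1) / D := by
            rw [hτ, sub_div, div_self hD0.ne']
          have h3 : ((N : ℝ) + 1) / D = η * (N + 3) := by
            rw [div_eq_iff hD0.ne']
            linarith
          rw [h2, h3]
          have h4 : δ ≤ δ * N := le_mul_of_one_le_right hδ.le (by linarith)
          linarith
  have hfin : (X.card : ℝ) ≤ X1.card +
      ((T.biUnion (fun w => X.filter (fun x => ∑ k, w k * x k = 0))).card : ℝ) := by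
    have h1 := (Finset.card_le_card hsplit).trans (Finset.card_union_le _ _)
    exact_mod_cast h1
  have h5 : 0 ≤ (3 * B2) ^ (N + 1) * B ^ κ := by positivity
  calc (X.card : ℝ) ≤ C1 * B ^ κ + C2 * 3 ^ (N + 1) * B ^ κ := by linarith
    _ ≤ ((3 * B2) ^ (N + 1) + C1 + C2 * 3 ^ (N + 1)) * B ^ κ := by linarith

end Pool.Agent.W225.V
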